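import Mathlib

set_option autoImplicit false

namespace Pool.Agent.Lib.MP_2948f4_lc

open SimpleGraph

theorem exists_path_parity {V : Type} {G : SimpleGraph V}
    (h : ∀ (v : V) (w : G.Walk v v), w.IsCycle → Even w.length) {u v : V} (p : G.Walk u v) :
    ∃ q : G.Walk u v, q.IsPath ∧ q.length % 2 = p.length % 2 := by
  classical
  induction p with
  | nil => exact ⟨Walk.nil, Walk.IsPath.nil, rfl⟩
  | @cons u w v hadj p ih =>
    obtain ⟨q, hq, hl⟩ := ih
    by_cases hu : u ∈ q.support
    · refine ⟨q.dropUntil u hu, hq.dropUntil hu, ?_⟩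
      have h1 : (q.takeUntil u hu).length + (q.dropUntil u hu).length = q.length := by
        rw [← Walk.length_append, Walk.take_spec]
      have h2 : Even ((q.takeUntil u hu).length + 1) := by
        by_cases h3 : 3 ≤ (Walk.cons hadj (q.takeUntil u hu)).length
        · have := h u (Walk.cons hadj (q.takeUntil u hu))
            (Walk.isCycle_iff_isPath_tail_and_le_length.2 ⟨by simpa using hq.takeUntil hu, h3⟩)
          simpa using this
        · have h4 : (q.takeUntil u hu).length ≠ 0 := fun h0 =>
            hadj.ne (Walk.eq_of_length_eq_zero h0).symm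
          rw [Walk.length_cons] at h3
          have : (q.takeUntil u hu).length = 1 := by omega
          rw [this]
          decide
      rw [Nat.even_iff] at h2
      rw [Walk.length_cons]
      omega
    · refine ⟨Walk.cons hadj q, hq.cons hu, ?_⟩
      rw [Walk.length_cons, Walk.length_cons]
      omega

theorem colorable_of_no_odd_cycle {V : Type} {G : SimpleGraph V}
    (h : ∀ (v : V) (w : G.Walk v v), w.IsCycle → Even w.length) : G.Colorable 2 := by
  refine two_colorable_iff_forall_loop_even.2 fun u w => ?_
  obtain ⟨q, hq, hl⟩ := exists_path_parity h w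
  rw [Walk.isPath_iff_nil] at hq
  rw [Nat.even_iff, ← hl, hq.length_eq_zero]

end Pool.Agent.Lib.MP_2948f4_lc
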