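import Mathlib

set_option autoImplicit false

namespace Pool.Agent.Lib.MP_2948f4_lc

/-- First-order formulas of set theory with free variables among `Fin n` (de Bruijn indices). -/
inductive Fm : ℕ → Type
  | mem {n : ℕ} (i j : Fin n) : Fm n
  | eq {n : ℕ} (i j : Fin n) : Fm n
  | neg {n : ℕ} (φ : Fm n) : Fm n
  | and {n : ℕ} (φ ψ : Fm n) : Fm n
  | all {n : ℕ} (φ : Fm (n + 1)) : Fm n

/-- Tarski satisfaction in the structure `(M, ∈)`. -/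
def Sat (M : ZFSet.{0}) : {n : ℕ} → Fm n → (Fin n → ZFSet.{0}) → Prop
  | _, Fm.mem i j, v => v i ∈ v j
  | _, Fm.eq i j, v => v i = v j
  | _, Fm.neg φ, v => ¬ Sat M φ v
  | _, Fm.and φ ψ, v => Sat M φ v ∧ Sat M ψ v
  | _, Fm.all φ, v => ∀ x ∈ M, Sat M φ (Fin.cons x v)

/-- `M` is a transitive set model of ZF + DC. Extensionality and Foundation hold in every
transitive set; Replacement is stated in the stronger form of Collection. -/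
structure IsZFDC (M : ZFSet.{0}) : Prop where
  trans : M.IsTransitive
  pairing : ∀ a ∈ M, ∀ b ∈ M, ({a, b} : ZFSet) ∈ M
  union : ∀ a ∈ M, ZFSet.sUnion a ∈ M
  power : ∀ a ∈ M, a.powerset ∩ M ∈ M
  infinity : ZFSet.omega ∈ M
  separation : ∀ (n : ℕ) (φ : Fm (n + 1)) (v : Fin n → ZFSet), (∀ i, v i ∈ M) →
    ∀ a ∈ M, a.sep (fun x => Sat M φ (Fin.cons x v)) ∈ M
  collection : ∀ (n : ℕ) (φ : Fm (n + 2)) (v : Fin n → ZFSet), (∀ i, v i ∈ M) →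
    ∀ a ∈ M, (∀ x ∈ a, ∃ y ∈ M, Sat M φ (Fin.cons y (Fin.cons x v))) →
      ∃ b ∈ M, ∀ x ∈ a, ∃ y ∈ b, Sat M φ (Fin.cons y (Fin.cons x v))
  dc : ∀ a ∈ M, ∀ R ∈ M, a ≠ ∅ → (∀ x ∈ a, ∃ y ∈ a, ZFSet.pair x y ∈ R) →
    ∃ g ∈ M, ZFSet.IsFunc ZFSet.omega a g ∧ ∀ n ∈ ZFSet.omega, ∀ x y : ZFSet,
      ZFSet.pair n x ∈ g → ZFSet.pair (insert n n) y ∈ g → ZFSet.pair x y ∈ R

/-- The subset of the von Neumann `ω` that corresponds to a set of natural numbers. -/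
def code (x : Set ℕ) : ZFSet.{0} :=
  ZFSet.omega.sep (fun z => ∃ n ∈ x, z = ZFSet.mk (PSet.ofNat n))

/-- `U` is, in `M`, a nonprincipal ultrafilter on `ω`. -/
def IsNonprincipalUltrafilter (M U : ZFSet.{0}) : Prop :=
  (∀ a ∈ U, a ⊆ ZFSet.omega) ∧
  (∀ a ∈ U, ∀ b ∈ U, a ∩ b ∈ U) ∧
  (∀ a ∈ U, ∀ b ∈ M, a ⊆ b → b ⊆ ZFSet.omega → b ∈ U) ∧
  (∀ a ∈ M, a ⊆ ZFSet.omega → a ∈ U ∨ ZFSet.omega \ a ∈ U) ∧
  (∀ a ∈ U, (a : Set ZFSet).Infinite)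

end Pool.Agent.Lib.MP_2948f4_lc
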