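import Mathlib
import Pool.Agent.Lib.MP_2948f4_lc.Defs

set_option autoImplicit false

namespace Pool.Agent.Lib.MP_2948f4_lc

/-- Forcing names over a set of conditions `P`. -/
inductive Name (P : Type) : Type 1
  | mk (ι : Type) (A : ι → Name P) (c : ι → P) : Name P

namespace Name

variable {P : Type}

def ι : Name P → Type
  | mk ι _ _ => ι

def A : (τ : Name P) → τ.ι → Name P
  | mk _ A _ => A

def c : (τ : Name P) → τ.ι → P
  | mk _ _ c => c

@[simp] theorem mk_ι (ι : Type) (A : ι → Name P) (c : ι → P) : (mk ι A c).ι = ι := rfl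
@[simp] theorem mk_A (ι : Type) (A : ι → Name P) (c : ι → P) : (mk ι A c).A = A := rfl
@[simp] theorem mk_c (ι : Type) (A : ι → Name P) (c : ι → P) : (mk ι A c).c = c := rfl

theorem induct {C : Name P → Prop} (h : ∀ τ : Name P, (∀ i, C (τ.A i)) → C τ) (τ : Name P) :
    C τ := by
  induction τ with
  | mk ι A c ih => exact h _ ih

end Name

open Name

variable {P : Type} [Preorder P]

/-- `p` forces `σ = τ`. -/
def FEq : Name P → Name P → P → Prop
  | Name.mk _ A c, Name.mk _ A' c', p =>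
    (∀ i q, q ≤ p → q ≤ c i → ∃ r, r ≤ q ∧ ∃ j, r ≤ c' j ∧ FEq (A i) (A' j) r) ∧
    (∀ j q, q ≤ p → q ≤ c' j → ∃ r, r ≤ q ∧ ∃ i, r ≤ c i ∧ FEq (A i) (A' j) r)

/-- `p` forces `σ ∈ τ`. -/
def FMem (σ τ : Name P) (p : P) : Prop :=
  ∀ q, q ≤ p → ∃ r, r ≤ q ∧ ∃ j, r ≤ τ.c j ∧ FEq σ (τ.A j) r

theorem FEq_def (σ τ : Name P) (p : P) : FEq σ τ p ↔
    (∀ i q, q ≤ p → q ≤ σ.c i → ∃ r, r ≤ q ∧ ∃ j, r ≤ τ.c j ∧ FEq (σ.A i) (τ.A j) r) ∧
    (∀ j q, q ≤ p → q ≤ τ.c j → ∃ r, r ≤ q ∧ ∃ i, r ≤ σ.c i ∧ FEq (σ.A i) (τ.A j) r) := by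
  cases σ; cases τ; rfl

theorem FEq.mono {σ τ : Name P} {p q : P} (h : FEq σ τ p) (hq : q ≤ p) : FEq σ τ q := by
  rw [FEq_def] at h ⊢
  exact ⟨fun i r hr => h.1 i r (hr.trans hq), fun i r hr => h.2 i r (hr.trans hq)⟩

theorem FEq.dense {σ τ : Name P} {p : P} (h : ∀ q, q ≤ p → ∃ r, r ≤ q ∧ FEq σ τ r) :
    FEq σ τ p := by
  rw [FEq_def]
  constructor
  · intro i q hq hc
    obtain ⟨r, hr, h1⟩ := h q hq
    obtain ⟨s, hs, h2⟩ := ((FEq_def _ _ _).1 h1).1 i r le_rfl (hr.trans hc)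
    exact ⟨s, hs.trans hr, h2⟩
  · intro i q hq hc
    obtain ⟨r, hr, h1⟩ := h q hq
    obtain ⟨s, hs, h2⟩ := ((FEq_def _ _ _).1 h1).2 i r le_rfl (hr.trans hc)
    exact ⟨s, hs.trans hr, h2⟩

theorem FEq.refl (σ : Name P) : ∀ p : P, FEq σ σ p := by
  induction σ using Name.induct with
  | h σ ih =>
    intro p
    rw [FEq_def]
    exact ⟨fun i q _ hc => ⟨q, le_rfl, i, hc, ih i q⟩, fun i q _ hc => ⟨q, le_rfl, i, hc, ih i q⟩⟩

theorem FEq.symm {σ : Name P} : ∀ {τ : Name P} {p : P}, FEq σ τ p → FEq τ σ p := by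
  induction σ using Name.induct with
  | h σ ih =>
    intro τ p h
    rw [FEq_def] at h ⊢
    constructor
    · intro j q hq hc
      obtain ⟨r, hr, i, hi, h1⟩ := h.2 j q hq hc
      exact ⟨r, hr, i, hi, ih i h1⟩
    · intro i q hq hc
      obtain ⟨r, hr, j, hj, h1⟩ := h.1 i q hq hc
      exact ⟨r, hr, j, hj, ih i h1⟩

theorem FEq.trans {σ : Name P} :
    ∀ {τ ρ : Name P} {p : P}, FEq σ τ p → FEq τ ρ p → FEq σ ρ p := by
  induction σ using Name.induct with
  | h σ ih =>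
    intro τ ρ p h h'
    rw [FEq_def] at h h' ⊢
    constructor
    · intro i q hq hc
      obtain ⟨r, hr, j, hj, h1⟩ := h.1 i q hq hc
      obtain ⟨s, hs, k, hk, h2⟩ := h'.1 j r (hr.trans hq) hj
      exact ⟨s, hs.trans hr, k, hk, ih i (h1.mono hs) h2⟩
    · intro k q hq hc
      obtain ⟨r, hr, j, hj, h1⟩ := h'.2 k q hq hc
      obtain ⟨s, hs, i, hi, h2⟩ := h.2 j r (hr.trans hq) hj
      exact ⟨s, hs.trans hr, i, hi, ih i h2 (h1.mono hs)⟩

theorem FMem.mono {σ τ : Name P} {p q : P} (h : FMem σ τ p) (hq : q ≤ p) : FMem σ τ q :=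
  fun r hr => h r (hr.trans hq)

theorem FMem.dense {σ τ : Name P} {p : P} (h : ∀ q, q ≤ p → ∃ r, r ≤ q ∧ FMem σ τ r) :
    FMem σ τ p := by
  intro q hq
  obtain ⟨r, hr, h1⟩ := h q hq
  obtain ⟨s, hs, h2⟩ := h1 r le_rfl
  exact ⟨s, hs.trans hr, h2⟩

theorem FMem.of_eq {σ τ : Name P} {p : P} (j : τ.ι) (hj : p ≤ τ.c j) (h : FEq σ (τ.A j) p) :
    FMem σ τ p :=
  fun q hq => ⟨q, le_rfl, j, hq.trans hj, h.mono hq⟩

theorem FMem.self {τ : Name P} {p : P} (j : τ.ι) (hj : p ≤ τ.c j) : FMem (τ.A j) τ p :=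
  FMem.of_eq j hj (FEq.refl _ _)

theorem FMem.congr_left {σ σ' τ : Name P} {p : P} (h : FMem σ τ p) (he : FEq σ σ' p) :
    FMem σ' τ p := by
  intro q hq
  obtain ⟨r, hr, j, hj, h1⟩ := h q hq
  exact ⟨r, hr, j, hj, (he.mono (hr.trans hq)).symm.trans h1⟩

theorem FMem.congr_right {σ τ τ' : Name P} {p : P} (h : FMem σ τ p) (he : FEq τ τ' p) :
    FMem σ τ' p := by
  intro q hq
  obtain ⟨r, hr, j, hj, h1⟩ := h q hq
  obtain ⟨s, hs, k, hk, h2⟩ := ((FEq_def _ _ _).1 he).1 j r (hr.trans hq) hj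
  exact ⟨s, hs.trans hr, k, hk, (h1.mono hs).trans h2⟩

theorem FEq_iff (σ τ : Name P) (p : P) : FEq σ τ p ↔
    (∀ i q, q ≤ p → q ≤ σ.c i → FMem (σ.A i) τ q) ∧
    (∀ j q, q ≤ p → q ≤ τ.c j → FMem (τ.A j) σ q) := by
  constructor
  · intro h
    exact ⟨fun i q hq hc => (FMem.self i hc).congr_right (h.mono hq),
      fun j q hq hc => (FMem.self j hc).congr_right (h.symm.mono hq)⟩
  · rintro ⟨h1, h2⟩
    rw [FEq_def]
    refine ⟨fun i q hq hc => h1 i q hq hc q le_rfl, fun j q hq hc => ?_⟩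
    obtain ⟨r, hr, i, hi, h3⟩ := h2 j q hq hc q le_rfl
    exact ⟨r, hr, i, hi, h3.symm⟩

/-- A symmetric system: a group acting on the conditions and a normal filter on the group. -/
class SymSys (G P : Type) [Group G] [Preorder P] [MulAction G P] where
  F : Filter G
  smul_le : ∀ (g : G) {p q : P}, p ≤ q → g • p ≤ g • q
  conj : ∀ (g : G) (H : Set G), H ∈ F → {π | g⁻¹ * π * g ∈ H} ∈ F

variable {G : Type} [Group G] [MulAction G P]

/-- Action of the group on names. -/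
def act (g : G) : Name P → Name P
  | Name.mk ι A c => Name.mk ι (fun i => act g (A i)) (fun i => g • c i)

omit [Preorder P] in
theorem act_mk (g : G) (ι : Type) (A : ι → Name P) (c : ι → P) :
    act g (Name.mk ι A c) = Name.mk ι (fun i => act g (A i)) (fun i => g • c i) := rfl

omit [Preorder P] in
theorem act_one (τ : Name P) : act (1 : G) τ = τ := by
  induction τ with
  | mk ι A c ih => simp [act_mk, ih]

omit [Preorder P] in
theorem act_mul (g h : G) (τ : Name P) : act (g * h) τ = act g (act h τ) := by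
  induction τ with
  | mk ι A c ih => simp [act_mk, ih, mul_smul]

omit [Preorder P] in
theorem act_inv_act (g : G) (τ : Name P) : act g⁻¹ (act g τ) = τ := by
  rw [← act_mul, inv_mul_cancel, act_one]

omit [Preorder P] in
theorem act_act_inv (g : G) (τ : Name P) : act g (act g⁻¹ τ) = τ := by
  rw [← act_mul, mul_inv_cancel, act_one]

variable [SymSys G P]

theorem le_smul_iff (g : G) (p q : P) : p ≤ g • q ↔ g⁻¹ • p ≤ q := by
  constructor
  · intro h
    simpa using SymSys.smul_le g⁻¹ h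
  · intro h
    simpa using SymSys.smul_le g h

theorem smul_le_iff (g : G) (p q : P) : g • p ≤ q ↔ p ≤ g⁻¹ • q := by
  rw [le_smul_iff, inv_inv]

theorem FEq.act (g : G) {σ : Name P} :
    ∀ {τ : Name P} {p : P}, FEq σ τ p → FEq (act g σ) (act g τ) (g • p) := by
  induction σ with
  | mk ι A c ih =>
    intro τ p h
    cases τ with
    | mk ι' A' c' =>
      rw [FEq_def] at h
      rw [act_mk, act_mk, FEq_def]
      constructor
      · intro i q hq hc
        obtain ⟨r, hr, j, hj, h1⟩ := h.1 i (g⁻¹ • q) ((le_smul_iff g _ _).1 hq)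
          ((le_smul_iff g _ _).1 hc)
        exact ⟨g • r, (smul_le_iff g _ _).2 hr, j, SymSys.smul_le g hj, ih i h1⟩
      · intro j q hq hc
        obtain ⟨r, hr, i, hi, h1⟩ := h.2 j (g⁻¹ • q) ((le_smul_iff g _ _).1 hq)
          ((le_smul_iff g _ _).1 hc)
        exact ⟨g • r, (smul_le_iff g _ _).2 hr, i, SymSys.smul_le g hi, ih i h1⟩

theorem FMem.act (g : G) {σ τ : Name P} {p : P} (h : FMem σ τ p) :
    FMem (act g σ) (act g τ) (g • p) := by
  cases τ with
  | mk ι' A' c' =>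
    intro q hq
    obtain ⟨r, hr, j, hj, h1⟩ := h (g⁻¹ • q) ((le_smul_iff g _ _).1 hq)
    exact ⟨g • r, (smul_le_iff g _ _).2 hr, j, SymSys.smul_le g hj, h1.act g⟩

/-- The group elements that are forced to fix a name. -/
def symm (G : Type) [Group G] [MulAction G P] (τ : Name P) : Set G :=
  {g | ∀ p, FEq (act g τ) τ p}

/-- Hereditarily symmetric names. -/
def HS (G : Type) [Group G] [MulAction G P] [SymSys G P] : Name P → Prop
  | Name.mk ι A c => symm G (Name.mk ι A c) ∈ SymSys.F (G := G) P ∧ ∀ i, HS G (A i)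

theorem HS_iff (τ : Name P) :
    HS G τ ↔ symm G τ ∈ SymSys.F (G := G) P ∧ ∀ i, HS G (τ.A i) := by
  cases τ; rfl

theorem HS.symm_mem {τ : Name P} (h : HS G τ) : symm G τ ∈ SymSys.F (G := G) P :=
  ((HS_iff τ).1 h).1

theorem HS.sub {τ : Name P} (h : HS G τ) (i : τ.ι) : HS G (τ.A i) :=
  ((HS_iff τ).1 h).2 i

theorem HS.act (g : G) {τ : Name P} (h : HS G τ) : HS G (act g τ) := by
  induction τ with
  | mk ι A c ih =>
    rw [HS_iff]
    refine ⟨?_, fun i => ih i (h.sub i)⟩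
    refine Filter.mem_of_superset (SymSys.conj g _ h.symm_mem) ?_
    intro π hπ p
    have := (hπ (g⁻¹ • p)).act g
    rw [← act_mul, smul_inv_smul] at this
    rw [← act_mul]
    simpa [mul_assoc] using this

/-- The forcing relation for the hereditarily symmetric names. -/
def Forces (G : Type) [Group G] [MulAction G P] [SymSys G P] :
    {n : ℕ} → Fm n → (Fin n → Name P) → P → Prop
  | _, Fm.mem i j, v, p => FMem (v i) (v j) p
  | _, Fm.eq i j, v, p => FEq (v i) (v j) p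
  | _, Fm.neg φ, v, p => ∀ q, q ≤ p → ¬ Forces G φ v q
  | _, Fm.and φ ψ, v, p => Forces G φ v p ∧ Forces G ψ v p
  | _, Fm.all φ, v, p => ∀ τ, HS G τ → Forces G φ (Fin.cons τ v) p

theorem Forces.mono {n : ℕ} {φ : Fm n} :
    ∀ {v : Fin n → Name P} {p q : P}, Forces G φ v p → q ≤ p → Forces G φ v q := by
  induction φ with
  | mem i j => exact fun h hq => FMem.mono h hq
  | eq i j => exact fun h hq => FEq.mono h hq
  | neg φ _ => exact fun h hq r hr => h r (hr.trans hq)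
  | and φ ψ ih1 ih2 => exact fun h hq => ⟨ih1 h.1 hq, ih2 h.2 hq⟩
  | all φ ih => exact fun h hq τ hτ => ih (h τ hτ) hq

theorem Forces.dense {n : ℕ} {φ : Fm n} :
    ∀ {v : Fin n → Name P} {p : P}, (∀ q, q ≤ p → ∃ r, r ≤ q ∧ Forces G φ v r) →
      Forces G φ v p := by
  induction φ with
  | mem i j => exact fun h => FMem.dense h
  | eq i j => exact fun h => FEq.dense h
  | neg φ _ =>
    intro v p h q hq hf
    obtain ⟨r, hr, h1⟩ := h q hq
    exact h1 r le_rfl (hf.mono hr)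
  | and φ ψ ih1 ih2 =>
    intro v p h
    exact ⟨ih1 fun q hq => (h q hq).imp fun r hr => ⟨hr.1, hr.2.1⟩,
      ih2 fun q hq => (h q hq).imp fun r hr => ⟨hr.1, hr.2.2⟩⟩
  | all φ ih =>
    intro v p h τ hτ
    exact ih fun q hq => (h q hq).imp fun r hr => ⟨hr.1, hr.2 τ hτ⟩

theorem Forces.congr {n : ℕ} {φ : Fm n} :
    ∀ {v w : Fin n → Name P} {p : P}, (∀ i, FEq (v i) (w i) p) → Forces G φ v p →
      Forces G φ w p := by
  induction φ with
  | mem i j => exact fun he h => (FMem.congr_left h (he i)).congr_right (he j)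
  | eq i j => exact fun he h => (he i).symm.trans (FEq.trans h (he j))
  | neg φ ih =>
    intro v w p he h q hq hf
    exact h q hq (ih (fun i => ((he i).mono hq).symm) hf)
  | and φ ψ ih1 ih2 => exact fun he h => ⟨ih1 he h.1, ih2 he h.2⟩
  | all φ ih =>
    intro v w p he h τ hτ
    refine ih (fun i => ?_) (h τ hτ)
    refine Fin.cases ?_ (fun i => ?_) i
    · exact FEq.refl _ _
    · exact he i

theorem Forces.act_iff (g : G) {n : ℕ} {φ : Fm n} :
    ∀ {v : Fin n → Name P} {p : P},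
      Forces G φ v p ↔ Forces G φ (fun i => act g (v i)) (g • p) := by
  induction φ with
  | mem i j =>
    intro v p
    refine ⟨fun h => FMem.act g h, fun h => ?_⟩
    have := FMem.act g⁻¹ h
    simp only [act_inv_act, inv_smul_smul] at this
    exact this
  | eq i j =>
    intro v p
    refine ⟨fun h => FEq.act g h, fun h => ?_⟩
    have := FEq.act g⁻¹ h
    simp only [act_inv_act, inv_smul_smul] at this
    exact this
  | neg φ ih =>
    intro v p
    constructor
    · intro h q hq hf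
      refine h (g⁻¹ • q) ((le_smul_iff g _ _).1 hq) (ih.2 ?_)
      simpa only [smul_inv_smul] using hf
    · intro h q hq hf
      exact h (g • q) (SymSys.smul_le g hq) (ih.1 hf)
  | and φ ψ ih1 ih2 => exact and_congr ih1 ih2
  | all φ ih =>
    intro v p
    have key : ∀ τ : Name P, (fun i => act g ((Fin.cons τ v : Fin _ → Name P) i)) =
        Fin.cons (act g τ) (fun i => act g (v i)) := by
      intro τ
      funext i
      refine Fin.cases ?_ (fun i => ?_) i <;> rfl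
    constructor
    · intro h τ hτ
      have := ih.1 (h (act g⁻¹ τ) (hτ.act g⁻¹))
      rwa [key, act_act_inv] at this
    · intro h τ hτ
      have := h (act g τ) (hτ.act g)
      rw [← key] at this
      exact ih.2 this

end Pool.Agent.Lib.MP_2948f4_lc
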