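import Mathlib
import Pool.Agent.Lib.MP_2948f4_lc.Names

set_option autoImplicit false

namespace Pool.Agent.Lib.MP_2948f4_lc

open Name

variable {P : Type} [Preorder P]

theorem FEq_of_match {σ τ : Name P} {p : P}
    (h1 : ∀ i, ∃ j, σ.c i ≤ τ.c j ∧ FEq (σ.A i) (τ.A j) p)
    (h2 : ∀ j, ∃ i, τ.c j ≤ σ.c i ∧ FEq (σ.A i) (τ.A j) p) : FEq σ τ p := by
  rw [FEq_def]
  constructor
  · intro i q hq hc
    obtain ⟨j, hj, h⟩ := h1 i
    exact ⟨q, le_rfl, j, hc.trans hj, h.mono hq⟩
  · intro j q hq hc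
    obtain ⟨i, hi, h⟩ := h2 j
    exact ⟨q, le_rfl, i, hc.trans hi, h.mono hq⟩

/-- A property of a name and a condition that behaves like a forced statement. -/
structure Good (Q : Name P → P → Prop) : Prop where
  mono : ∀ {σ p q}, Q σ p → q ≤ p → Q σ q
  dense : ∀ {σ p}, (∀ q, q ≤ p → ∃ r, r ≤ q ∧ Q σ r) → Q σ p
  congr : ∀ {σ σ' p}, Q σ p → FEq σ σ' p → Q σ' p

/-- The name for the subset of `a` cut out by `Q`. -/
def sepN (a : Name P) (Q : Name P → P → Prop) : Name P :=
  Name.mk {x : a.ι × P // x.2 ≤ a.c x.1 ∧ Q (a.A x.1) x.2} (fun x => a.A x.1.1) (fun x => x.1.2)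

theorem FMem_sepN {a σ : Name P} {Q : Name P → P → Prop} (hQ : Good Q) {p : P} :
    FMem σ (sepN a Q) p ↔ FMem σ a p ∧ Q σ p := by
  constructor
  · intro h
    constructor
    · intro q hq
      obtain ⟨r, hr, ⟨⟨i, s⟩, hs1, hs2⟩, hj, h1⟩ := h q hq
      exact ⟨r, hr, i, le_trans hj hs1, h1⟩
    · refine hQ.dense fun q hq => ?_
      obtain ⟨r, hr, ⟨⟨i, s⟩, hs1, hs2⟩, hj, h1⟩ := h q hq
      exact ⟨r, hr, hQ.congr (hQ.mono hs2 hj) h1.symm⟩
  · rintro ⟨h1, h2⟩ q hq
    obtain ⟨r, hr, i, hi, h3⟩ := h1 q hq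
    exact ⟨r, hr, ⟨⟨i, r⟩, hi, hQ.congr (hQ.mono h2 (hr.trans hq)) h3⟩, le_rfl, h3⟩

variable {G : Type} [Group G] [MulAction G P] [SymSys G P]

theorem FMem_act_iff (g : G) {σ τ : Name P} {p : P} :
    FMem σ (act g τ) p ↔ FMem (act g⁻¹ σ) τ (g⁻¹ • p) := by
  constructor
  · intro h
    have := h.act g⁻¹
    rwa [act_inv_act] at this
  · intro h
    have := h.act g
    rwa [act_act_inv, smul_inv_smul] at this

/-- Extensionality for forced equality. -/
theorem FEq_ext {σ τ : Name P} {p : P}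
    (h : ∀ ρ q, q ≤ p → (FMem ρ σ q ↔ FMem ρ τ q)) : FEq σ τ p := by
  rw [FEq_iff]
  exact ⟨fun i q hq hc => (h _ q hq).1 (FMem.self i hc),
    fun j q hq hc => (h _ q hq).2 (FMem.self j hc)⟩

theorem symm_inv {τ : Name P} {g : G} (h : g ∈ symm G τ) : g⁻¹ ∈ symm G τ := by
  intro p
  have := (h (g • p)).act g⁻¹
  rw [act_inv_act, inv_smul_smul] at this
  exact this.symm

theorem HS_sepN {a : Name P} {Q : Name P → P → Prop} (hQ : Good Q) (ha : HS G a)
    (H : Set G) (hH : H ∈ SymSys.F (G := G) P)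
    (hinv : ∀ g ∈ H, ∀ σ p, Q σ p ↔ Q (act g σ) (g • p)) : HS G (sepN a Q) := by
  rw [HS_iff]
  refine ⟨?_, fun x => ha.sub _⟩
  refine Filter.mem_of_superset (Filter.inter_mem hH ha.symm_mem) ?_
  rintro g ⟨hg1, hg2⟩ p
  refine FEq_ext fun ρ q _ => ?_
  rw [FMem_act_iff, FMem_sepN hQ, FMem_sepN hQ, hinv g hg1, act_act_inv, smul_inv_smul,
    ← FMem_act_iff]
  refine and_congr_left fun _ => ⟨fun h => h.congr_right (hg2 q), fun h => ?_⟩
  exact h.congr_right (hg2 q).symm

theorem good_forces {n : ℕ} (φ : Fm (n + 1)) (v : Fin n → Name P) :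
    Good (fun σ p => Forces G φ (Fin.cons σ v) p) where
  mono h hq := h.mono hq
  dense h := Forces.dense h
  congr h he := by
    refine Forces.congr (fun i => ?_) h
    refine Fin.cases ?_ (fun i => ?_) i
    · exact he
    · exact FEq.refl _ _

theorem HS_sep_forces {n : ℕ} (φ : Fm (n + 1)) {v : Fin n → Name P} (hv : ∀ i, HS G (v i))
    {a : Name P} (ha : HS G a) : HS G (sepN a (fun σ p => Forces G φ (Fin.cons σ v) p)) := by
  refine HS_sepN (good_forces φ v) ha (⋂ i, symm G (v i))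
    (Filter.iInter_mem.2 fun i => (hv i).symm_mem) ?_
  intro g hg σ p
  rw [Set.mem_iInter] at hg
  rw [Forces.act_iff g]
  constructor
  · refine Forces.congr fun i => ?_
    refine Fin.cases ?_ (fun i => ?_) i
    · exact FEq.refl _ _
    · exact hg i _
  · refine Forces.congr fun i => ?_
    refine Fin.cases ?_ (fun i => ?_) i
    · exact FEq.refl _ _
    · exact (hg i _).symm

variable [OrderTop P]

theorem le_smul_top (g : G) (p : P) : p ≤ g • (⊤ : P) :=
  (le_smul_iff g _ _).2 le_top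

/-- The name that collects all translates of a family of names. -/
def orb (G : Type) [Group G] [MulAction G P] {κ : Type} (ρ : κ → Name P) : Name P :=
  Name.mk (G × κ) (fun x => act x.1 (ρ x.2)) (fun _ => ⊤)

theorem HS_orb {κ : Type} {ρ : κ → Name P} (h : ∀ k, HS G (ρ k)) : HS G (orb G ρ) := by
  rw [HS_iff]
  refine ⟨Filter.mem_of_superset Filter.univ_mem fun g _ p => ?_, fun x => (h x.2).act x.1⟩
  refine FEq_of_match (fun x => ⟨(g * x.1, x.2), le_top, ?_⟩)
    (fun x => ⟨(g⁻¹ * x.1, x.2), le_smul_top g _, ?_⟩)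
  · change FEq (act g (act x.1 (ρ x.2))) (act (g * x.1) (ρ x.2)) p
    rw [act_mul]; exact FEq.refl _ _
  · change FEq (act g (act (g⁻¹ * x.1) (ρ x.2))) (act x.1 (ρ x.2)) p
    rw [← act_mul, mul_inv_cancel_left]; exact FEq.refl _ _

omit [SymSys G P] in
theorem FMem_orb {κ : Type} (ρ : κ → Name P) (k : κ) (p : P) : FMem (ρ k) (orb G ρ) p := by
  refine FMem.of_eq (τ := orb G ρ) (1, k) le_top ?_
  change FEq (ρ k) (act (1 : G) (ρ k)) p
  rw [act_one]; exact FEq.refl _ _

/-- The name whose elements are the names of a family. -/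
def fam {κ : Type} (ρ : κ → Name P) : Name P := Name.mk κ ρ (fun _ => ⊤)

theorem fam_congr {κ : Type} {ρ ρ' : κ → Name P} {p : P} (h : ∀ k, FEq (ρ k) (ρ' k) p) :
    FEq (fam ρ) (fam ρ') p :=
  FEq_of_match (fun k => ⟨k, le_top, h k⟩) (fun k => ⟨k, le_top, h k⟩)

theorem act_fam (g : G) {κ : Type} (ρ : κ → Name P) (p : P) :
    FEq (act g (fam ρ)) (fam (fun k => act g (ρ k))) p :=
  FEq_of_match (fun k => ⟨k, le_top, FEq.refl _ _⟩)
    (fun k => ⟨k, le_smul_top g _, FEq.refl _ _⟩)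

theorem HS_fam {κ : Type} {ρ : κ → Name P} (h : ∀ k, HS G (ρ k))
    (h' : (⋂ k, symm G (ρ k)) ∈ SymSys.F (G := G) P) : HS G (fam ρ) := by
  rw [HS_iff]
  refine ⟨Filter.mem_of_superset h' fun g hg p => ?_, h⟩
  rw [Set.mem_iInter] at hg
  exact (act_fam g ρ p).trans (fam_congr fun k => hg k p)

theorem HS_fam_fin {κ : Type} [Finite κ] {ρ : κ → Name P} (h : ∀ k, HS G (ρ k)) :
    HS G (fam ρ) :=
  HS_fam h (Filter.iInter_mem.2 fun k => (h k).symm_mem)

/-- Unordered pair. -/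
def up (σ τ : Name P) : Name P := fam (fun b : Bool => cond b σ τ)

/-- Ordered pair. -/
def op (σ τ : Name P) : Name P := up (up σ σ) (up σ τ)

theorem up_congr {σ σ' τ τ' : Name P} {p : P} (h : FEq σ σ' p) (h' : FEq τ τ' p) :
    FEq (up σ τ) (up σ' τ') p :=
  fam_congr fun b => by cases b <;> assumption

theorem op_congr {σ σ' τ τ' : Name P} {p : P} (h : FEq σ σ' p) (h' : FEq τ τ' p) :
    FEq (op σ τ) (op σ' τ') p :=
  up_congr (up_congr h h) (up_congr h h')

theorem act_up (g : G) (σ τ : Name P) (p : P) :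
    FEq (act g (up σ τ)) (up (act g σ) (act g τ)) p :=
  (act_fam g _ p).trans (fam_congr fun b => by cases b <;> exact FEq.refl _ _)

theorem act_op (g : G) (σ τ : Name P) (p : P) :
    FEq (act g (op σ τ)) (op (act g σ) (act g τ)) p :=
  (act_up g _ _ p).trans (up_congr (act_up g _ _ p) (act_up g _ _ p))

theorem HS_up {σ τ : Name P} (h : HS G σ) (h' : HS G τ) : HS G (up σ τ) :=
  HS_fam_fin fun b => by cases b <;> assumption

theorem HS_op {σ τ : Name P} (h : HS G σ) (h' : HS G τ) : HS G (op σ τ) :=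
  HS_up (HS_up h h) (HS_up h h')

/-- The canonical name of a natural number. -/
def natN (P : Type) [Preorder P] [OrderTop P] (n : ℕ) : Name P :=
  fam (fun i : Fin n => natN P i.1)
termination_by n
decreasing_by exact i.2

theorem natN_eq (n : ℕ) : natN P n = fam (fun i : Fin n => natN P i.1) := by
  rw [natN]

theorem HS_natN (n : ℕ) : HS G (natN P n) := by
  induction n using Nat.strong_induction_on with
  | h n ih =>
    rw [natN_eq]
    exact HS_fam_fin fun i => ih i.1 i.2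

theorem act_natN (g : G) (n : ℕ) : ∀ p : P, FEq (act g (natN P n)) (natN P n) p := by
  induction n using Nat.strong_induction_on with
  | h n ih =>
    intro p
    rw [natN_eq]
    exact (act_fam g _ p).trans (fam_congr fun i => ih i.1 i.2 p)

theorem natN_inj (n : ℕ) : ∀ (m : ℕ) (p : P), FEq (natN P n) (natN P m) p → n = m := by
  induction n using Nat.strong_induction_on with
  | h n ih =>
    intro m p h
    rw [natN_eq n, natN_eq m, FEq_def] at h
    have h1 : ∀ i, i < n → i < m := by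
      intro i hi
      obtain ⟨r, _, j, _, hj⟩ := h.1 ⟨i, hi⟩ p le_rfl le_top
      have : i = (j : Fin m).1 := ih i hi _ r hj
      rw [this]; exact (j : Fin m).2
    have h2 : ∀ j, j < m → j < n := by
      intro j hj
      obtain ⟨r, _, i, _, hi⟩ := h.2 ⟨j, hj⟩ p le_rfl le_top
      have : (i : Fin n).1 = j := ih _ (i : Fin n).2 _ r hi
      rw [← this]; exact (i : Fin n).2
    rcases lt_trichotomy n m with h3 | h3 | h3
    · exact absurd (h2 n h3) (lt_irrefl _)
    · exact h3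
    · exact absurd (h1 m h3) (lt_irrefl _)

end Pool.Agent.Lib.MP_2948f4_lc
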