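import Mathlib

set_option autoImplicit false

namespace Pool.Agent.Lib.MP_2948f4_lc

open Set Filter Topology

/-- The uncountable set of coordinates. -/
abbrev J : Type := List (Set ℕ)

/-- The Cohen space. -/
def Om : Type := J → Bool

instance : TopologicalSpace Om := inferInstanceAs (TopologicalSpace (J → Bool))
instance : CompactSpace Om := inferInstanceAs (CompactSpace (J → Bool))
instance : T2Space Om := inferInstanceAs (T2Space (J → Bool))
instance : Nonempty Om := ⟨fun _ => true⟩
instance : MeasurableSpace Om := borel Om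
instance : BorelSpace Om := ⟨rfl⟩

theorem continuous_coord (j : J) : Continuous (fun ω : Om => ω j) := continuous_apply j

theorem continuous_om {X : Type} [TopologicalSpace X] {f : X → Om}
    (h : ∀ j, Continuous (fun x => f x j)) : Continuous f := continuous_pi h

def Agree (T : Set J) (ω η : Om) : Prop := ∀ j ∈ T, ω j = η j

theorem Agree.refl (T : Set J) (ω : Om) : Agree T ω ω := fun _ _ => rfl

theorem Agree.symm {T : Set J} {ω η : Om} (h : Agree T ω η) : Agree T η ω :=
  fun j hj => (h j hj).symm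

theorem Agree.trans {T : Set J} {ω η ζ : Om} (h : Agree T ω η) (h' : Agree T η ζ) :
    Agree T ω ζ := fun j hj => (h j hj).trans (h' j hj)

theorem Agree.mono {T T' : Set J} {ω η : Om} (h : Agree T ω η) (hT : T' ⊆ T) : Agree T' ω η :=
  fun j hj => h j (hT hj)

/-- Basic open sets. -/
def Cyl (A : Finset J) (ω₀ : Om) : Set Om := {ω | Agree A ω ω₀}

theorem self_mem_Cyl (A : Finset J) (ω₀ : Om) : ω₀ ∈ Cyl A ω₀ := Agree.refl _ _

theorem isOpen_Cyl (A : Finset J) (ω₀ : Om) : IsOpen (Cyl A ω₀) := by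
  have : Cyl A ω₀ = ⋂ j ∈ A, {ω : Om | ω j = ω₀ j} := by
    ext ω; simp [Cyl, Agree]
  rw [this]
  exact isOpen_biInter_finset fun j _ =>
    (isOpen_discrete {ω₀ j}).preimage (continuous_coord j)

theorem exists_Cyl {W : Set Om} (hW : IsOpen W) {ω₀ : Om} (h : ω₀ ∈ W) :
    ∃ A, Cyl A ω₀ ⊆ W := by
  obtain ⟨I, u, h1, h2⟩ := isOpen_pi_iff.1 (show IsOpen (X := J → Bool) W from hW) ω₀ h
  refine ⟨I, fun ω hω => h2 fun j hj => ?_⟩
  rw [hω j hj]
  exact (h1 j hj).2

open Classical in
/-- Take the coordinates in `T` from `ω` and the others from `η`. -/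
noncomputable def merge (T : Set J) (ω η : Om) : Om := fun j => if j ∈ T then ω j else η j

theorem merge_in {T : Set J} {ω η : Om} {j : J} (h : j ∈ T) : merge T ω η j = ω j := by
  simp [merge, h]

theorem merge_out {T : Set J} {ω η : Om} {j : J} (h : j ∉ T) : merge T ω η j = η j := by
  simp [merge, h]

theorem agree_merge (T : Set J) (ω η : Om) : Agree T (merge T ω η) ω := fun _ hj => merge_in hj

theorem continuous_merge_left (T : Set J) (η : Om) : Continuous (fun ω => merge T ω η) := by
  refine continuous_om fun j => ?_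
  by_cases h : j ∈ T
  · simpa only [merge_in h] using continuous_coord j
  · simpa only [merge_out h] using continuous_const

theorem continuous_merge_right (T : Set J) (ω : Om) : Continuous (fun η => merge T ω η) := by
  refine continuous_om fun j => ?_
  by_cases h : j ∈ T
  · simpa only [merge_in h] using continuous_const
  · simpa only [merge_out h] using continuous_coord j

theorem merge_mem_Cyl {T : Set J} {A : Finset J} {ω η ω₀ : Om}
    (h1 : ∀ j ∈ A, j ∈ T → ω j = ω₀ j) (h2 : ∀ j ∈ A, j ∉ T → η j = ω₀ j) :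
    merge T ω η ∈ Cyl A ω₀ := by
  intro j hj
  by_cases h : j ∈ T
  · rw [merge_in h]; exact h1 j hj h
  · rw [merge_out h]; exact h2 j hj h

theorem exists_mem_of_residual {W D : Set Om} (hW : IsOpen W) (hne : W.Nonempty)
    (hD : D ∈ residual Om) : ∃ ω, ω ∈ W ∧ ω ∈ D :=
  (dense_of_mem_residual hD).inter_open_nonempty W hW hne

theorem KU_open {T : Set J} (hT : T.Countable) {D : Set Om} (ho : IsOpen D) (hd : Dense D) :
    ∀ᶠ η in residual Om, ∀ᶠ ω in residual Om, merge T ω η ∈ D := by
  classical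
  have : Countable T := hT.to_subtype
  let B : List (T × Bool) → Set Om := fun l => {ω | ∀ x ∈ l, ω x.1.1 = x.2}
  have hB : ∀ l, IsOpen (B l) := by
    intro l
    have : B l = ⋂ x ∈ l.toFinset, {ω : Om | ω x.1.1 = x.2} := by
      ext ω; simp only [B, mem_ofPred_eq, mem_iInter, List.mem_toFinset]
    rw [this]
    exact isOpen_biInter_finset fun x _ =>
      (isOpen_discrete {x.2}).preimage (continuous_coord x.1.1)
  have h1 : ∀ l, ∀ᶠ η in residual Om, (B l).Nonempty → ∃ ω ∈ B l, merge T ω η ∈ D := by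
    intro l
    by_cases hne : (B l).Nonempty
    · refine mem_of_superset (residual_of_dense_open
        (s := ⋃ ω ∈ B l, (fun η => merge T ω η) ⁻¹' D) ?_ ?_) ?_
      · exact isOpen_biUnion fun ω _ => ho.preimage (continuous_merge_right T ω)
      · rw [dense_iff_inter_open]
        rintro W hW ⟨η₀, hη₀⟩
        obtain ⟨A, hA⟩ := exists_Cyl hW hη₀
        obtain ⟨ω₀, hω₀⟩ := hne
        have hz : merge T ω₀ η₀ ∈ B l := fun x hx => by
          rw [merge_in x.1.2]; exact hω₀ x hx
        obtain ⟨z, ⟨hz1, hz2⟩, hz3⟩ := hd.inter_open_nonempty (Cyl A (merge T ω₀ η₀) ∩ B l)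
          ((isOpen_Cyl _ _).inter (hB l)) ⟨_, self_mem_Cyl _ _, hz⟩
        refine ⟨merge T η₀ z, hA (merge_mem_Cyl (fun _ _ _ => rfl) fun j hj hjT => ?_), ?_⟩
        · rw [hz1 j hj, merge_out hjT]
        · refine mem_biUnion hz2 ?_
          have : merge T z (merge T η₀ z) = z := by
            funext j
            by_cases h : j ∈ T
            · rw [merge_in h]
            · rw [merge_out h, merge_out h]
          change merge T z (merge T η₀ z) ∈ D
          rwa [this]
      · intro η hη _
        simp only [mem_iUnion] at hη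
        obtain ⟨ω, h1, h2⟩ := hη
        exact ⟨ω, h1, h2⟩
    · exact Eventually.of_forall fun η h => absurd h hne
  refine (eventually_countable_forall.2 h1).mono fun η hη => ?_
  refine residual_of_dense_open (ho.preimage (continuous_merge_left T η)) ?_
  rw [dense_iff_inter_open]
  rintro W hW ⟨ω₀, hω₀⟩
  obtain ⟨A, hA⟩ := exists_Cyl hW hω₀
  let l : List (T × Bool) := ((A.subtype (· ∈ T)).toList).map (fun j => (j, ω₀ j.1))
  have hl : ∀ ω, ω ∈ B l ↔ ∀ j ∈ A, j ∈ T → ω j = ω₀ j := by
    intro ω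
    simp only [B, l, mem_ofPred_eq, List.forall_mem_map, Finset.mem_toList, Finset.mem_subtype]
    exact ⟨fun h j hj hjT => h ⟨j, hjT⟩ hj, fun h j hj => h j.1 hj j.2⟩
  obtain ⟨ω, h2, h3⟩ := hη l ⟨ω₀, (hl _).2 fun _ _ _ => rfl⟩
  refine ⟨merge T ω ω₀, hA (merge_mem_Cyl ((hl _).1 h2) fun _ _ _ => rfl), ?_⟩
  have : merge T (merge T ω ω₀) η = merge T ω η := by
    funext j
    by_cases h : j ∈ T
    · rw [merge_in h, merge_in h, merge_in h]
    · rw [merge_out h, merge_out h]
  change merge T (merge T ω ω₀) η ∈ D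
  rwa [this]

/-- The Kuratowski-Ulam theorem in the form that is needed. -/
theorem KU {T : Set J} (hT : T.Countable) {D : Set Om} (hD : D ∈ residual Om) :
    ∀ᶠ η in residual Om, ∀ᶠ ω in residual Om, merge T ω η ∈ D := by
  obtain ⟨S, h1, h2, h3, h4⟩ := mem_residual_iff.1 hD
  have := (eventually_countable_ball h3).2 fun t ht => KU_open hT (h1 t ht) (h2 t ht)
  refine this.mono fun η hη => ?_
  refine ((eventually_countable_ball h3).2 hη).mono fun ω hω => h4 ?_
  exact mem_sInter.2 hω

/-- A function that depends only on the coordinates in `T`. -/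
def Inv {α : Type} (T : Set J) (F : Om → α) : Prop := ∀ ω η, Agree T ω η → F ω = F η

/-- A set that depends only on the coordinates in `T`. -/
def InvS (T : Set J) (W : Set Om) : Prop := ∀ ω η, Agree T ω η → ω ∈ W → η ∈ W

theorem Inv.mono {α : Type} {T T' : Set J} {F : Om → α} (h : Inv T F) (hT : T ⊆ T') :
    Inv T' F := fun ω η ha => h ω η (ha.mono hT)

theorem InvS.mono {T T' : Set J} {W : Set Om} (h : InvS T W) (hT : T ⊆ T') :
    InvS T' W := fun ω η ha => h ω η (ha.mono hT)

theorem InvS_Cyl (A : Finset J) (ω₀ : Om) : InvS A (Cyl A ω₀) :=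
  fun _ _ ha h => ha.symm.trans h

theorem exists_inv_of_continuous {f : Om → Bool} (hf : Continuous f) :
    ∃ A : Finset J, Inv A f := by
  classical
  have h1 : ∀ ω, ∃ A, Cyl A ω ⊆ f ⁻¹' {f ω} := fun ω =>
    exists_Cyl ((isOpen_discrete _).preimage hf) rfl
  choose A hA using h1
  obtain ⟨t, ht⟩ := isCompact_univ.elim_finite_subcover (fun ω => Cyl (A ω) ω)
    (fun ω => isOpen_Cyl _ _) (fun ω _ => mem_iUnion.2 ⟨ω, self_mem_Cyl _ _⟩)
  refine ⟨t.biUnion A, fun ω η ha => ?_⟩
  have := ht (mem_univ ω)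
  simp only [mem_iUnion] at this
  obtain ⟨z, hz, h2⟩ := this
  have h3 : η ∈ Cyl (A z) z := (InvS_Cyl (A z) z) ω η
    (ha.mono fun j hj => by
      simp only [Finset.coe_biUnion, mem_iUnion]
      exact ⟨z, hz, hj⟩) h2
  exact (hA z h2).trans (hA z h3).symm

theorem exists_dep {g : Om → Om} (hg : Continuous g) {T : Set J} (hT : T.Countable) :
    ∃ T' : Set J, T'.Countable ∧ ∀ ω η, Agree T' ω η → Agree T (g ω) (g η) := by
  choose A hA using fun j => exists_inv_of_continuous ((continuous_coord j).comp hg)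
  refine ⟨⋃ j ∈ T, (A j : Set J), hT.biUnion fun j _ => (A j).countable_toSet, ?_⟩
  intro ω η ha j hj
  exact hA j ω η (ha.mono (subset_biUnion_of_mem (u := fun j => (A j : Set J)) hj))

theorem exists_fresh {T : Set J} (hT : T.Countable) : ∃ a : Set ℕ, ∀ j : J, a :: j ∉ T := by
  by_contra h
  push Not at h
  have h1 : (univ : Set (Set ℕ)) ⊆ (fun j : J => j.headD ∅) '' T := by
    intro a _
    obtain ⟨j, hj⟩ := h a
    exact ⟨a :: j, hj, rfl⟩
  have h2 : (univ : Set (Set ℕ)).Countable := (hT.image _).mono h1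
  rw [countable_univ_iff] at h2
  obtain ⟨f, hf⟩ := exists_surjective_nat (Set ℕ)
  exact Function.cantor_surjective f hf

end Pool.Agent.Lib.MP_2948f4_lc
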