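import Mathlib
import Pool.Agent.Lib.MP_2948f4_lc.Cohen

set_option autoImplicit false

namespace Pool.Agent.Lib.MP_2948f4_lc

open Set Filter Topology

/-- An abstract parity-connectedness relation on the reals. -/
structure Conn where
  R : Bool → Set ℕ → Set ℕ → Prop
  refl : ∀ a, R false a a
  symm : ∀ {ε a b}, R ε a b → R ε b a
  trans : ∀ {ε ε' a b c}, R ε a b → R ε' b c → R (xor ε ε') a c
  odd : ∀ a, ¬ R true a a

/-- Borel names for reals. -/
def Fn : Type := {F : Om → Set ℕ // Measurable F}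

def Fn.comp (F : Fn) (g : Om → Om) (hg : Continuous g) : Fn :=
  ⟨fun ω => F.1 (g ω), F.2.comp hg.measurable⟩

variable (K : Conn)

def Path (ε : Bool) (F F' : Fn) (W : Set Om) : Prop :=
  ∀ᶠ ω in residual Om, ω ∈ W → K.R ε (F.1 ω) (F'.1 ω)

variable {K}

theorem Path.mono {ε : Bool} {F F' : Fn} {W W' : Set Om} (h : Path K ε F F' W) (hW : W' ⊆ W) :
    Path K ε F F' W' := Filter.Eventually.mono h fun _ h1 h2 => h1 (hW h2)

theorem Path.symm {ε : Bool} {F F' : Fn} {W : Set Om} (h : Path K ε F F' W) :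
    Path K ε F' F W := Filter.Eventually.mono h fun _ h1 h2 => K.symm (h1 h2)

theorem Path.trans {ε ε' : Bool} {F F' F'' : Fn} {W : Set Om} (h : Path K ε F F' W)
    (h' : Path K ε' F' F'' W) : Path K (xor ε ε') F F'' W :=
  (Filter.Eventually.and h h').mono fun _ h1 h2 => K.trans (h1.1 h2) (h1.2 h2)

theorem Path.self {ε : Bool} {F : Fn} {W : Set Om} (h : Path K ε F F W) (hW : IsOpen W)
    (hne : W.Nonempty) : ε = false := by
  obtain ⟨ω, h1, h2⟩ := exists_mem_of_residual hW hne h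
  cases ε
  · rfl
  · exact absurd (h2 h1) (K.odd _)

open Classical in
theorem Path.sat {ε : Bool} {F F' : Fn} {T : Set J} (hT : T.Countable) (hF : Inv T F.1)
    (hF' : Inv T F'.1) {A : Finset J} {ω₀ : Om} (h : Path K ε F F' (Cyl A ω₀)) :
    Path K ε F F' (Cyl (A.filter (· ∈ T)) ω₀) := by
  obtain ⟨η, hη1, hη2⟩ := exists_mem_of_residual (isOpen_Cyl A ω₀) ⟨_, self_mem_Cyl _ _⟩ (KU hT h)
  refine Filter.Eventually.mono hη2 fun ω h1 h2 => ?_
  have h3 : merge T ω η ∈ Cyl A ω₀ :=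
    merge_mem_Cyl (fun j hj hjT => h2 j (by simp [hj, hjT])) fun j hj _ => hη1 j hj
  have h4 := h1 h3
  rwa [hF _ _ (agree_merge T ω η), hF' _ _ (agree_merge T ω η)] at h4

abbrev Col : Type := Fn → Bool → Set Om

variable (K) in
def Cons (c c' : Col) : Prop :=
  ∀ F F' i i' ε W, IsOpen W → W.Nonempty → W ⊆ c F i → W ⊆ c' F' i' → Path K ε F F' W →
    xor i i' = ε

theorem Cons.symm {c c' : Col} (h : Cons K c c') : Cons K c' c := by
  intro F F' i i' ε W hW hne h1 h2 h3
  rw [Bool.xor_comm]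
  exact h F' F i' i ε W hW hne h2 h1 h3.symm

theorem Cons.mono {c c' d d' : Col} (h : Cons K c c') (h1 : d ≤ c) (h2 : d' ≤ c') :
    Cons K d d' := fun F F' i i' ε W hW hne h3 h4 h5 =>
  h F F' i i' ε W hW hne (h3.trans (h1 F i)) (h4.trans (h2 F' i')) h5

def Supp (c : Col) (T : Set J) : Prop :=
  ∀ F i, InvS T (c F i) ∧ ((c F i).Nonempty → Inv T F.1)

theorem Supp.mono {c : Col} {T T' : Set J} (h : Supp c T) (hT : T ⊆ T') : Supp c T' :=
  fun F i => ⟨(h F i).1.mono hT, fun hne => ((h F i).2 hne).mono hT⟩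

def Total (c : Col) (T : Set J) : Prop :=
  Supp c T ∧ ∀ F : Fn, Inv T F.1 → Dense (c F true ∪ c F false)

def colUnion {κ : Type} (c : κ → Col) : Col := fun F i => ⋃ k, c k F i

theorem le_colUnion {κ : Type} (c : κ → Col) (k : κ) : c k ≤ colUnion c :=
  fun F i => subset_iUnion (fun k => c k F i) k

theorem cons_colUnion {κ : Type} {c : κ → Col} (ho : ∀ k F i, IsOpen (c k F i))
    (h : ∀ k k', Cons K (c k) (c k')) : Cons K (colUnion c) (colUnion c) := by
  rintro F F' i i' ε W hW ⟨ω, hω⟩ h1 h2 h3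
  obtain ⟨k, hk⟩ := mem_iUnion.1 (h1 hω)
  obtain ⟨k', hk'⟩ := mem_iUnion.1 (h2 hω)
  refine h k k' F F' i i' ε (W ∩ (c k F i ∩ c k' F' i')) (hW.inter ((ho _ _ _).inter (ho _ _ _)))
    ⟨ω, hω, hk, hk'⟩ (fun _ hx => hx.2.1) (fun _ hx => hx.2.2) (h3.mono inter_subset_left)

theorem supp_colUnion {κ : Type} {c : κ → Col} {T : Set J} (h : ∀ k, Supp (c k) T) :
    Supp (colUnion c) T := by
  intro F i
  constructor
  · intro ω η ha hω
    obtain ⟨k, hk⟩ := mem_iUnion.1 hω
    exact mem_iUnion.2 ⟨k, (h k F i).1 ω η ha hk⟩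
  · rintro ⟨ω, hω⟩
    obtain ⟨k, hk⟩ := mem_iUnion.1 hω
    exact (h k F i).2 ⟨ω, hk⟩

theorem open_colUnion {κ : Type} {c : κ → Col} (ho : ∀ k F i, IsOpen (c k F i)) (F : Fn)
    (i : Bool) : IsOpen (colUnion c F i) := isOpen_iUnion fun k => ho k F i

open Classical in
/-- A maximal consistent colouring is total. -/
theorem total_of_maximal {T : Set J} (hT : T.Countable) {m : Col}
    (hm : Maximal (· ∈ {c : Col | (∀ F i, IsOpen (c F i)) ∧ Cons K c c ∧ Supp c T}) m) :
    Total m T := by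
  obtain ⟨⟨ho, hc, hs⟩, hmax⟩ := hm
  refine ⟨hs, fun F hF => ?_⟩
  -- adding one more piece
  have add : ∀ (i : Bool) (W : Set Om), IsOpen W → InvS T W →
      (∀ F' i' ε W', IsOpen W' → W'.Nonempty → W' ⊆ W → W' ⊆ m F' i' → Path K ε F F' W' →
        xor i i' = ε) → W ⊆ m F i := by
    intro i W hW hWi hcons
    let d : Col := fun F' i' => if F' = F ∧ i' = i then W else ∅
    have hd : ∀ F' i' (W' : Set Om), W'.Nonempty → W' ⊆ d F' i' → F' = F ∧ i' = i ∧ W' ⊆ W := by
      intro F' i' W' hne h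
      by_cases h1 : F' = F ∧ i' = i
      · exact ⟨h1.1, h1.2, by simpa [d, h1] using h⟩
      · exfalso
        simp only [d, h1, if_false, subset_empty_iff] at h
        exact hne.ne_empty h
    have hdm : Cons K d m := by
      intro F1 F2 i1 i2 ε W' hW' hne h1 h2 h3
      obtain ⟨rfl, rfl, h4⟩ := hd _ _ _ hne h1
      exact hcons F2 i2 ε W' hW' hne h4 h2 h3
    have hdd : Cons K d d := by
      intro F1 F2 i1 i2 ε W' hW' hne h1 h2 h3
      obtain ⟨rfl, rfl, _⟩ := hd _ _ _ hne h1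
      obtain ⟨rfl, rfl, _⟩ := hd _ _ _ hne h2
      rw [h3.self hW' hne, Bool.xor_self]
    let e : Bool → Col := fun b => cond b m d
    have heo : ∀ k F i, IsOpen (e k F i) := by
      intro k F' i'
      cases k
      · change IsOpen (d F' i')
        simp only [d]
        split_ifs
        · exact hW
        · exact isOpen_empty
      · exact ho F' i'
    have hmem : colUnion e ∈ {c : Col | (∀ F i, IsOpen (c F i)) ∧ Cons K c c ∧ Supp c T} := by
      refine ⟨open_colUnion heo, cons_colUnion heo ?_, supp_colUnion ?_⟩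
      · rintro (_ | _) (_ | _)
        · exact hdd
        · exact hdm
        · exact hdm.symm
        · exact hc
      · rintro (_ | _)
        · intro F' i'
          change InvS T (d F' i') ∧ ((d F' i').Nonempty → _)
          simp only [d]
          split_ifs with h1
          · exact ⟨hWi, fun _ => h1.1 ▸ hF⟩
          · exact ⟨fun _ _ _ h => h, fun h => absurd h not_nonempty_empty⟩
        · exact hs
    have h1 := hmax hmem (le_colUnion e true)
    have h2 : d ≤ m := (le_colUnion e false).trans h1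
    have h3 := h2 F i
    simpa [d] using h3
  rw [dense_iff_inter_open]
  rintro W hW ⟨ω₀, hω₀⟩
  obtain ⟨A, hA⟩ := exists_Cyl hW hω₀
  have hsat : ∀ (B : Finset J) (η : Om), InvS T (Cyl (B.filter (· ∈ T)) η) := fun B η =>
    (InvS_Cyl _ η).mono fun j hj => by
      simp only [Finset.coe_filter] at hj
      exact hj.2
  suffices h : ∃ η ∈ Cyl (A.filter (· ∈ T)) ω₀, ∃ i, η ∈ m F i by
    obtain ⟨η, h1, i, h2⟩ := h
    refine ⟨merge T η ω₀, hA (merge_mem_Cyl (fun j hj hjT => h1 j (by simp [hj, hjT]))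
      fun _ _ _ => rfl), ?_⟩
    have h3 := (hs F i).1 _ _ (agree_merge T η ω₀).symm h2
    cases i
    · exact Or.inr h3
    · exact Or.inl h3
  by_cases hex : ∃ F' i' ε W', IsOpen W' ∧ W'.Nonempty ∧ W' ⊆ Cyl (A.filter (· ∈ T)) ω₀ ∧
      W' ⊆ m F' i' ∧ Path K ε F F' W'
  · obtain ⟨F', i', ε, W', hW', ⟨η, hη⟩, h1, h2, h3⟩ := hex
    obtain ⟨B, hB⟩ := exists_Cyl hW' hη
    have hF' : Inv T F'.1 := (hs F' i').2 ⟨η, h2 hη⟩
    have h4 := (h3.mono hB).sat hT hF hF'
    have h5 : Cyl (B.filter (· ∈ T)) η ⊆ m F' i' := by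
      intro z hz
      refine (hs F' i').1 _ _ (agree_merge T z η) (h2 (hB ?_))
      exact merge_mem_Cyl (fun j hj hjT => hz j (by simp [hj, hjT])) fun _ _ _ => rfl
    have h6 := add (xor i' ε) _ (isOpen_Cyl _ _) (hsat B η) (by
      intro F'' i'' ε' W'' hW'' hne h7 h8 h9
      have := hc F' F'' i' i'' _ W'' hW'' hne (h7.trans h5) h8 ((h4.mono h7).symm.trans h9)
      revert this
      cases i' <;> cases i'' <;> cases ε <;> cases ε' <;> simp)
    exact ⟨η, h1 hη, _, h6 (self_mem_Cyl _ _)⟩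
  · have h6 := add true _ (isOpen_Cyl _ _) (hsat A ω₀) (by
      intro F' i' ε W' hW' hne h7 h8 h9
      exact absurd ⟨F', i', ε, W', hW', hne, h7, h8, h9⟩ hex)
    exact ⟨ω₀, self_mem_Cyl _ _, _, h6 (self_mem_Cyl _ _)⟩

variable (K) in
/-- Conditions of the colouring forcing. -/
@[ext] structure RC where
  c : Col
  op : ∀ F i, IsOpen (c F i)
  cons : Cons K c c
  supp : ∃ T : Set J, T.Countable ∧ Supp c T

instance : Preorder (RC K) where
  le r r' := r'.c ≤ r.c
  le_refl _ := le_rfl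
  le_trans _ _ _ h h' := le_trans h' h

theorem RC.le_def {r r' : RC K} : r ≤ r' ↔ ∀ F i, r'.c F i ⊆ r.c F i := Iff.rfl

instance : OrderTop (RC K) where
  top := ⟨fun _ _ => ∅, fun _ _ => isOpen_empty,
    fun _ _ _ _ _ _ _ hne h _ _ => absurd (subset_empty_iff.1 h) hne.ne_empty,
    ∅, countable_empty, fun _ _ => ⟨fun _ _ _ h => h, fun h => absurd h not_nonempty_empty⟩⟩
  le_top _ := fun _ _ => empty_subset _

theorem exists_total {κ : Type} (r : κ → RC K) (hc : ∀ k k', Cons K (r k).c (r k').c)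
    {T : Set J} (hT : T.Countable) (hs : ∀ k, Supp (r k).c T) :
    ∃ r' : RC K, Total r'.c T ∧ ∀ k, r' ≤ r k := by
  obtain ⟨m, hm1, hm2⟩ := zorn_le_nonempty₀
    {c : Col | (∀ F i, IsOpen (c F i)) ∧ Cons K c c ∧ Supp c T} (by
      intro C hC hch y hy
      refine ⟨colUnion (fun x : C => x.1), ⟨open_colUnion fun x => (hC x.2).1,
        cons_colUnion (fun x => (hC x.2).1) fun x x' => ?_,
        supp_colUnion fun x => (hC x.2).2.2⟩, fun z hz => le_colUnion (fun x : C => x.1) ⟨z, hz⟩⟩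
      rcases hch.total x.2 x'.2 with h | h
      · exact (hC x'.2).2.1.mono h le_rfl
      · exact (hC x.2).2.1.mono le_rfl h)
    (colUnion fun k => (r k).c)
    ⟨open_colUnion fun k => (r k).op, cons_colUnion (fun k => (r k).op) hc, supp_colUnion hs⟩
  exact ⟨⟨m, hm2.1.1, hm2.1.2.1, T, hT, hm2.1.2.2⟩, total_of_maximal hT hm2,
    fun k => (le_colUnion (fun k => (r k).c) k).trans hm1⟩

theorem exists_total_le (r : RC K) {T : Set J} (hT : T.Countable) :
    ∃ (r' : RC K) (T' : Set J), T'.Countable ∧ T ⊆ T' ∧ Total r'.c T' ∧ r' ≤ r := by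
  obtain ⟨T₀, h1, h2⟩ := r.supp
  obtain ⟨r', h3, h4⟩ := exists_total (fun _ : Unit => r) (fun _ _ => r.cons) (hT.union h1)
    (fun _ => h2.mono subset_union_right)
  exact ⟨r', _, hT.union h1, subset_union_left, h3, h4 ()⟩

/-- The colouring forcing is countably closed. -/
theorem exists_lower (r : ℕ → RC K) (h : Antitone r) : ∃ r' : RC K, ∀ n, r' ≤ r n := by
  choose T hT1 hT2 using fun n => (r n).supp
  have hc : ∀ n m, Cons K (r n).c (r m).c := by
    intro n m
    rcases le_total n m with h1 | h1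
    · exact (r m).cons.mono (h h1) le_rfl
    · exact (r n).cons.mono le_rfl (h h1)
  obtain ⟨r', _, h2⟩ := exists_total r hc (countable_iUnion hT1)
    (fun n => (hT2 n).mono (subset_iUnion T n))
  exact ⟨r', h2⟩

/-- Amalgamation over a total condition. -/
theorem amalg {r r' rA : RC K} {T T' TA : Set J} (hT : T.Countable) (hs : Supp r.c T)
    (hs' : Supp r'.c T') (hA : Total rA.c TA) (hTA : T ∩ T' ⊆ TA) (h1 : r ≤ rA) (h2 : r' ≤ rA) :
    Cons K r.c r'.c := by
  rintro F F' i i' ε W hW ⟨ω₀, hω₀⟩ hW1 hW2 hp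
  obtain ⟨A, hA'⟩ := exists_Cyl hW hω₀
  have hF : Inv T F.1 := (hs F i).2 ⟨ω₀, hW1 hω₀⟩
  have hF' : Inv T' F'.1 := (hs' F' i').2 ⟨ω₀, hW2 hω₀⟩
  obtain ⟨η, hη1, hη2⟩ := exists_mem_of_residual (isOpen_Cyl A ω₀) ⟨_, self_mem_Cyl _ _⟩
    (KU hT hp)
  let H : Fn := F'.comp (fun ω => merge T ω η) (continuous_merge_left T η)
  have hH : Inv TA H.1 := by
    intro ω ω' ha
    refine hF' _ _ fun j hj => ?_
    change merge T ω η j = merge T ω' η j
    by_cases hjT : j ∈ T
    · rw [merge_in hjT, merge_in hjT]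
      exact ha j (hTA ⟨hjT, hj⟩)
    · rw [merge_out hjT, merge_out hjT]
  have hFH : Path K ε F H (Cyl A ω₀) := by
    refine Filter.Eventually.mono hη2 fun ω h3 h4 => ?_
    have h5 := h3 (hA' (merge_mem_Cyl (fun j hj _ => h4 j hj) fun j hj _ => hη1 j hj))
    rwa [hF _ _ (agree_merge T ω η)] at h5
  obtain ⟨z, hz1, hz2⟩ := (hA.2 H hH).inter_open_nonempty _ (isOpen_Cyl A ω₀)
    ⟨_, self_mem_Cyl _ _⟩
  obtain ⟨k, hk⟩ : ∃ k, z ∈ rA.c H k := by
    rcases hz2 with h | h
    · exact ⟨_, h⟩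
    · exact ⟨_, h⟩
  have hW' : IsOpen (Cyl A ω₀ ∩ rA.c H k) := (isOpen_Cyl _ _).inter (rA.op _ _)
  have e1 := r.cons F H i k ε _ hW' ⟨z, hz1, hk⟩ (inter_subset_left.trans (hA'.trans hW1))
    (inter_subset_right.trans (h1 H k)) (hFH.mono inter_subset_left)
  have e2 := r'.cons H F' k i' _ _ hW' ⟨z, hz1, hk⟩ (inter_subset_right.trans (h2 H k))
    (inter_subset_left.trans (hA'.trans hW2))
    ((hFH.symm.trans (hp.mono hA')).mono inter_subset_left)
  revert e1 e2
  cases i <;> cases i' <;> cases k <;> cases ε <;> simp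

end Pool.Agent.Lib.MP_2948f4_lc
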