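import Mathlib
import Pool.Agent.Lib.MP_2948f4_lc.Col
import Pool.Agent.Lib.MP_2948f4_lc.Build

set_option autoImplicit false

namespace Pool.Agent.Lib.MP_2948f4_lc

open Set Filter Topology

/-- The group of symmetries. -/
abbrev Gr : Type := Om ≃ₜ Om

def Fn.pull (F : Fn) (g : Gr) : Fn := F.comp g g.continuous

theorem residual_pull (g : Gr) {Φ : Om → Prop} (h : ∀ᶠ ω in residual Om, Φ ω) :
    ∀ᶠ ω in residual Om, Φ (g ω) :=
  (tendsto_residual_of_isOpenMap g.continuous g.isOpenMap).eventually h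

variable {K : Conn}

theorem Path.pull {ε : Bool} {F F' : Fn} {W : Set Om} (h : Path K ε F F' W) (g : Gr) :
    Path K ε (F.pull g) (F'.pull g) (g ⁻¹' W) := residual_pull g h

def actCol (g : Gr) (c : Col) : Col := fun F i => g.symm ⁻¹' (c (F.pull g) i)

theorem Cons.act {c c' : Col} (h : Cons K c c') (g : Gr) : Cons K (actCol g c) (actCol g c') := by
  rintro F F' i i' ε W hW ⟨ω, hω⟩ h1 h2 h3
  refine h (F.pull g) (F'.pull g) i i' ε (g ⁻¹' W) (hW.preimage g.continuous)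
    ⟨g.symm ω, by simpa using hω⟩ (fun z hz => ?_) (fun z hz => ?_) (h3.pull g)
  · simpa [actCol] using h1 hz
  · simpa [actCol] using h2 hz

theorem Supp.act {c : Col} {T T' : Set J} (h : Supp c T) (g : Gr)
    (hg : ∀ ω η, Agree T' ω η → Agree T (g.symm ω) (g.symm η)) : Supp (actCol g c) T' := by
  intro F i
  refine ⟨fun ω η ha hω => (h _ i).1 _ _ (hg ω η ha) hω, ?_⟩
  rintro ⟨z, hz⟩ ω η ha
  have := (h (F.pull g) i).2 ⟨_, hz⟩ _ _ (hg ω η ha)
  simpa [Fn.pull, Fn.comp] using this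

instance : MulAction Gr (RC K) where
  smul g r := ⟨actCol g r.c, fun F i => (r.op _ i).preimage g.symm.continuous, r.cons.act g, by
    obtain ⟨T, h1, h2⟩ := r.supp
    obtain ⟨T', h3, h4⟩ := exists_dep g.symm.continuous h1
    exact ⟨T', h3, h2.act g h4⟩⟩
  one_smul _ := rfl
  mul_smul _ _ _ := rfl

theorem RC.smul_c (g : Gr) (r : RC K) : (g • r).c = actCol g r.c := rfl

theorem RC.smul_le (g : Gr) {r r' : RC K} (h : r ≤ r') : g • r ≤ g • r' :=
  fun F i => preimage_mono (h (F.pull g) i)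

/-- Cohen conditions: nonempty open sets. -/
def OC : Type := {U : Set Om // IsOpen U ∧ U.Nonempty}

instance : Preorder OC where
  le U V := U.1 ⊆ V.1
  le_refl _ := Subset.rfl
  le_trans _ _ _ h h' := Subset.trans h h'

instance : OrderTop OC where
  top := ⟨univ, isOpen_univ, univ_nonempty⟩
  le_top _ := subset_univ _

instance : MulAction Gr OC where
  smul g U := ⟨g.symm ⁻¹' U.1, U.2.1.preimage g.symm.continuous, by
    obtain ⟨ω, hω⟩ := U.2.2
    exact ⟨g ω, by simpa using hω⟩⟩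
  one_smul _ := rfl
  mul_smul _ _ _ := rfl

theorem OC.smul_val (g : Gr) (U : OC) : (g • U).1 = g.symm ⁻¹' U.1 := rfl

def cylC (A : Finset J) (ω : Om) : OC := ⟨Cyl A ω, isOpen_Cyl A ω, ω, self_mem_Cyl A ω⟩

variable (K) in
/-- The forcing. -/
abbrev PP : Type := RC K × OC

def fix (T : Set J) : Set Gr := {g | ∀ ω, Agree T (g ω) ω}

theorem fix_symm {T : Set J} {g : Gr} (h : g ∈ fix T) (ω : Om) : Agree T (g.symm ω) ω := by
  have := h (g.symm ω)
  rw [g.apply_symm_apply] at this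
  exact this.symm

theorem fix_mono {T T' : Set J} (h : T ⊆ T') : fix T' ⊆ fix T := fun _ hg ω => (hg ω).mono h

def fixF : Filter Gr where
  sets := {H | ∃ T : Set J, T.Countable ∧ fix T ⊆ H}
  univ_sets := ⟨∅, countable_empty, subset_univ _⟩
  sets_of_superset := fun ⟨T, h1, h2⟩ h => ⟨T, h1, h2.trans h⟩
  inter_sets := fun ⟨T, h1, h2⟩ ⟨T', h3, h4⟩ => ⟨T ∪ T', h1.union h3,
    subset_inter ((fix_mono subset_union_left).trans h2) ((fix_mono subset_union_right).trans h4)⟩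

theorem fix_mem {T : Set J} (hT : T.Countable) : fix T ∈ fixF := ⟨T, hT, Subset.rfl⟩

theorem fixF_iInter {κ : Type} [Countable κ] {H : κ → Set Gr} (h : ∀ k, H k ∈ fixF) :
    (⋂ k, H k) ∈ fixF := by
  choose T h1 h2 using h
  exact ⟨⋃ k, T k, countable_iUnion h1,
    subset_iInter fun k => (fix_mono (subset_iUnion T k)).trans (h2 k)⟩

instance : SymSys Gr (PP K) where
  F := fixF
  smul_le g _ _ h := ⟨RC.smul_le g h.1, preimage_mono h.2⟩
  conj g H := by
    rintro ⟨T, h1, h2⟩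
    obtain ⟨T', h3, h4⟩ := exists_dep g.symm.continuous h1
    refine ⟨T', h3, fun π hπ => h2 fun ω => ?_⟩
    have := h4 _ _ (hπ (g ω))
    simpa using this

theorem symF_eq : SymSys.F (G := Gr) (PP K) = fixF := rfl

theorem pull_eq_of_inv {T : Set J} {g : Gr} (hg : g ∈ fix T) {F : Fn} (hF : Inv T F.1) :
    F.pull g = F := Subtype.ext (funext fun ω => hF _ _ (hg ω))

theorem fix_inv {T : Set J} {g : Gr} (hg : g ∈ fix T) : g⁻¹ ∈ fix T := fix_symm hg

theorem pull_pull_symm (F : Fn) (g : Gr) : (F.pull g).pull g.symm = F :=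
  Subtype.ext (funext fun ω => by simp [Fn.pull, Fn.comp])

theorem pull_symm_pull (F : Fn) (g : Gr) : (F.pull g.symm).pull g = F :=
  Subtype.ext (funext fun ω => by simp [Fn.pull, Fn.comp])

theorem smul_eq_of_fix {T : Set J} {g : Gr} (hg : g ∈ fix T) {r : RC K} (hr : Supp r.c T) :
    g • r = r := by
  ext F i ω
  change g.symm ω ∈ r.c (F.pull g) i ↔ _
  constructor
  · intro h
    have h1 := pull_eq_of_inv (fix_inv hg) ((hr _ i).2 ⟨_, h⟩)
    have h2 : F.pull g = F := by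
      rw [← h1]; exact pull_pull_symm F g
    rw [h2] at h
    exact (hr F i).1 _ _ (fix_symm hg ω) h
  · intro h
    rw [pull_eq_of_inv hg ((hr F i).2 ⟨_, h⟩)]
    exact (hr F i).1 _ _ (fix_symm hg ω).symm h

theorem smul_OC_of_fix {T : Set J} {g : Gr} (hg : g ∈ fix T) {U : OC} (hU : InvS T U.1) :
    g • U = U := by
  apply Subtype.ext
  ext ω
  exact ⟨fun h => hU _ _ (fix_symm hg ω) h, fun h => hU _ _ (fix_symm hg ω).symm h⟩

/-- `U` forces that the generic point satisfies `Φ`. -/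
def Ae (U : Set Om) (Φ : Om → Prop) : Prop := ∀ᶠ ω in residual Om, ω ∈ U → Φ ω

theorem Ae.mono {U V : Set Om} {Φ : Om → Prop} (h : Ae U Φ) (hV : V ⊆ U) : Ae V Φ :=
  Filter.Eventually.mono h fun _ h1 h2 => h1 (hV h2)

theorem Ae.exists {U : Set Om} {Φ : Om → Prop} (h : Ae U Φ) (hU : IsOpen U) (hne : U.Nonempty) :
    ∃ ω ∈ U, Φ ω := by
  obtain ⟨ω, h1, h2⟩ := exists_mem_of_residual hU hne h
  exact ⟨ω, h1, h2 h1⟩

/-- Borel statements are decided below every condition. -/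
theorem Ae.decide {B : Set Om} (hB : MeasurableSet B) (U : OC) :
    ∃ V : OC, V ≤ U ∧ (Ae V.1 (· ∈ B) ∨ Ae V.1 (· ∉ B)) := by
  obtain ⟨O, hO, hBO⟩ := hB.residualEq_isOpen
  by_cases h : (U.1 ∩ O).Nonempty
  · refine ⟨⟨U.1 ∩ O, U.2.1.inter hO, h⟩, inter_subset_left, Or.inl ?_⟩
    refine Filter.Eventually.mono hBO fun ω h1 h2 => ?_
    exact (show ω ∈ B ↔ ω ∈ O from iff_of_eq h1).2 h2.2
  · refine ⟨U, le_rfl, Or.inr ?_⟩
    refine Filter.Eventually.mono hBO fun ω h1 h2 h3 => ?_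
    exact h ⟨ω, h2, (show ω ∈ B ↔ ω ∈ O from iff_of_eq h1).1 h3⟩

/-- A Borel statement forced densely below `U` is forced by `U`. -/
theorem Ae.dense {B : Set Om} (hB : MeasurableSet B) {U : Set Om} (hU : IsOpen U)
    (h : ∀ V : OC, V.1 ⊆ U → ∃ V' : OC, V' ≤ V ∧ Ae V'.1 (· ∈ B)) : Ae U (· ∈ B) := by
  obtain ⟨O, hO, hBO⟩ := hB.compl.residualEq_isOpen
  by_cases hne : (U ∩ O).Nonempty
  · exfalso
    obtain ⟨V', h1, h2⟩ := h ⟨U ∩ O, hU.inter hO, hne⟩ inter_subset_left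
    obtain ⟨ω, h3, h4, h5⟩ := exists_mem_of_residual V'.2.1 V'.2.2
      (Filter.Eventually.and hBO h2)
    exact (show ω ∈ Bᶜ ↔ ω ∈ O from iff_of_eq h4).2 (h1 h3).2 (h5 h3)
  · refine Filter.Eventually.mono hBO fun ω h1 h2 => ?_
    by_contra h3
    exact hne ⟨ω, h2, (show ω ∈ Bᶜ ↔ ω ∈ O from iff_of_eq h1).1 h3⟩

theorem Fn.measurableSet_mem (F : Fn) (n : ℕ) : MeasurableSet {ω | n ∈ F.1 ω} :=
  (_root_.measurableSet_mem n).preimage F.2

/-- The name of the real given by a Borel function of the generic point. -/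
def realN (K : Conn) (F : Fn) : Name (PP K) :=
  Name.mk {x : ℕ × PP K // Ae x.2.2.1 (fun ω => x.1 ∈ F.1 ω)} (fun x => natN (PP K) x.1.1)
    (fun x => x.1.2)

theorem FMem_realN {F : Fn} {n : ℕ} {p : PP K} :
    FMem (natN (PP K) n) (realN K F) p ↔ Ae p.2.1 (fun ω => n ∈ F.1 ω) := by
  constructor
  · intro h
    refine Ae.dense (F.measurableSet_mem n) p.2.2.1 fun V hV => ?_
    obtain ⟨r, hr, ⟨⟨m, s⟩, hs⟩, h1, h2⟩ := h (p.1, V) ⟨le_rfl, hV⟩
    have : n = m := natN_inj n m r h2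
    subst this
    exact ⟨r.2, hr.2, hs.mono h1.2⟩
  · intro h
    exact FMem.self (τ := realN K F) ⟨(n, p), h⟩ le_rfl

theorem act_realN (g : Gr) (F : Fn) (p : PP K) :
    FEq (act g (realN K F)) (realN K (F.pull g.symm)) p := by
  refine FEq_of_match ?_ ?_
  · rintro ⟨⟨n, q⟩, h⟩
    exact ⟨⟨(n, g • q), residual_pull g.symm h⟩, le_rfl, act_natN g n p⟩
  · rintro ⟨⟨n, q⟩, h⟩
    refine ⟨⟨(n, g⁻¹ • q), ?_⟩, ?_, act_natN g n p⟩
    · refine Filter.Eventually.mono (residual_pull g h) fun ω h1 h2 => ?_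
      simpa [Fn.pull, Fn.comp] using h1 h2
    · change q ≤ g • g⁻¹ • q
      rw [smul_inv_smul]

theorem HS_realN {F : Fn} {T : Set J} (hT : T.Countable) (hF : Inv T F.1) :
    HS Gr (realN K F) := by
  rw [HS_iff]
  refine ⟨⟨T, hT, fun g hg p => ?_⟩, fun x => HS_natN _⟩
  have := act_realN g F p
  rwa [show F.pull g.symm = F from pull_eq_of_inv (fix_inv hg) hF] at this

theorem path_of_FEq {F F' : Fn} {p : PP K} (h : FEq (realN K F) (realN K F') p) :
    Path K false F F' p.2.1 := by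
  have key : ∀ {F F' : Fn}, FEq (realN K F) (realN K F') p → ∀ n,
      Ae p.2.1 (· ∈ {ω | n ∈ F.1 ω}ᶜ ∪ {ω | n ∈ F'.1 ω}) := by
    intro F F' h n
    refine Ae.dense ((F.measurableSet_mem n).compl.union (F'.measurableSet_mem n)) p.2.2.1
      fun V hV => ?_
    obtain ⟨V', h1, h2 | h2⟩ := Ae.decide (F.measurableSet_mem n) V
    · have h3 : FMem (natN (PP K) n) (realN K F) (p.1, V') := FMem_realN.2 h2
      have h4 := FMem_realN.1 (h3.congr_right (h.mono ⟨le_rfl, Subset.trans h1 hV⟩))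
      exact ⟨V', h1, Filter.Eventually.mono h4 fun ω h5 h6 => Or.inr (h5 h6)⟩
    · exact ⟨V', h1, Filter.Eventually.mono h2 fun ω h5 h6 => Or.inl (h5 h6)⟩
  have h1 := eventually_countable_forall.2 (key h)
  have h2 := eventually_countable_forall.2 (key h.symm)
  refine (h1.and h2).mono fun ω h3 h4 => ?_
  have : F.1 ω = F'.1 ω := by
    ext n
    have h5 := h3.1 n h4
    have h6 := h3.2 n h4
    simp only [mem_union, mem_compl_iff, mem_ofPred_eq] at h5 h6
    tauto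
  rw [this]
  exact K.refl _

/-- The name of the generic colouring. -/
def colN (K : Conn) : Name (PP K) :=
  Name.mk {x : Fn × Bool × PP K // x.2.2.2.1 ⊆ x.2.2.1.c x.1 x.2.1}
    (fun x => op (realN K x.1.1) (natN (PP K) x.1.2.1.toNat)) (fun x => x.1.2.2)

theorem HS_colN : HS Gr (colN K) := by
  rw [HS_iff]
  refine ⟨Filter.mem_of_superset Filter.univ_mem fun g _ p => ?_, ?_⟩
  · refine FEq_of_match ?_ ?_
    · rintro ⟨⟨F, i, q⟩, h⟩
      refine ⟨⟨(F.pull g.symm, i, g • q), ?_⟩, le_rfl,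
        (act_op g _ _ p).trans (op_congr (act_realN g F p) (act_natN g _ p))⟩
      intro ω hω
      change g.symm ω ∈ q.1.c ((F.pull g.symm).pull g) i
      rw [pull_symm_pull]
      exact h hω
    · rintro ⟨⟨F, i, q⟩, h⟩
      refine ⟨⟨(F.pull g, i, g⁻¹ • q), ?_⟩, ?_, ?_⟩
      · intro ω hω
        change g ω ∈ q.1.c ((F.pull g).pull g.symm) i
        rw [pull_pull_symm]
        exact h hω
      · change q ≤ g • g⁻¹ • q
        rw [smul_inv_smul]
      · refine (act_op g _ _ p).trans (op_congr ?_ (act_natN g _ p))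
        have := act_realN g (F.pull g) p
        rwa [pull_pull_symm] at this
  · rintro ⟨⟨F, i, q⟩, h⟩
    obtain ⟨T, h1, h2⟩ := q.1.supp
    exact HS_op (HS_realN h1 ((h2 F i).2 (q.2.2.2.mono h))) (HS_natN _)

end Pool.Agent.Lib.MP_2948f4_lc
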