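import Mathlib
import Pool.Agent.Lib.MP_2948f4_lc.Sys
import Pool.Agent.Lib.MP_2948f4_lc.Henkin

set_option autoImplicit false

namespace Pool.Agent.Lib.MP_2948f4_lc

open Set Filter Topology

section Mix

variable {P : Type} [Preorder P]

/-- Mixing a family of names along a family of open sets of conditions. -/
def mixN {κ : Type} (τ : κ → Name P) (E : κ → P → Prop) : Name P :=
  Name.mk {x : (Σ k, (τ k).ι) × P // x.2 ≤ (τ x.1.1).c x.1.2 ∧ E x.1.1 x.2}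
    (fun x => (τ x.1.1.1).A x.1.1.2) (fun x => x.1.2)

theorem FMem_mixN {κ : Type} {τ : κ → Name P} {E : κ → P → Prop}
    (hE : ∀ k p q, E k p → q ≤ p → E k q) {ρ : Name P} {p : P} :
    FMem ρ (mixN τ E) p ↔ ∀ q, q ≤ p → ∃ r, r ≤ q ∧ ∃ k, E k r ∧ FMem ρ (τ k) r := by
  constructor
  · intro h q hq
    obtain ⟨r, hr, ⟨⟨⟨k, i⟩, s⟩, h1, h2⟩, h3, h4⟩ := h q hq
    exact ⟨r, hr, k, hE k s r h2 h3, FMem.of_eq i (le_trans h3 h1) h4⟩
  · intro h q hq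
    obtain ⟨r, hr, k, h1, h2⟩ := h q hq
    obtain ⟨s, hs, i, h3, h4⟩ := h2 r le_rfl
    exact ⟨s, hs.trans hr, ⟨⟨⟨k, i⟩, s⟩, h3, hE k r s h1 hs⟩, le_rfl, h4⟩

theorem FEq_mixN {κ : Type} {τ : κ → Name P} {E : κ → P → Prop}
    (hE : ∀ k p q, E k p → q ≤ p → E k q) (hu : ∀ k k' p, E k p → E k' p → k = k')
    {k : κ} {p : P} (h : E k p) : FEq (τ k) (mixN τ E) p := by
  refine FEq_ext fun ρ q hq => ?_
  rw [FMem_mixN hE]
  constructor
  · intro h1 r hr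
    exact ⟨r, le_rfl, k, hE k p r h (hr.trans hq), h1.mono hr⟩
  · intro h1
    refine FMem.dense fun r hr => ?_
    obtain ⟨s, hs, k', h2, h3⟩ := h1 r hr
    obtain rfl := hu k k' s (hE k p s h (hs.trans (hr.trans hq))) h2
    exact ⟨s, hs, h3⟩

variable {G : Type} [Group G] [MulAction G P] [SymSys G P]

theorem HS_mixN {κ : Type} {τ : κ → Name P} {E : κ → P → Prop}
    (hE : ∀ k p q, E k p → q ≤ p → E k q) (hτ : ∀ k, HS G (τ k))
    (H : Set G) (hH : H ∈ SymSys.F (G := G) P) (h1 : ∀ g ∈ H, ∀ k, g ∈ symm G (τ k))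
    (h2 : ∀ g ∈ H, ∀ k p, E k p ↔ E k (g • p)) : HS G (mixN τ E) := by
  rw [HS_iff]
  refine ⟨Filter.mem_of_superset hH fun g hg p => ?_, fun x => (hτ _).sub _⟩
  refine FEq_ext fun ρ q _ => ?_
  rw [FMem_act_iff, FMem_mixN hE, FMem_mixN hE]
  constructor
  · intro h r hr
    obtain ⟨s, hs, k, h3, h4⟩ := h (g⁻¹ • r) (SymSys.smul_le _ hr)
    refine ⟨g • s, (smul_le_iff g _ _).2 hs, k, (h2 g hg k s).1 h3, ?_⟩
    have := h4.act g
    rw [act_act_inv] at this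
    exact this.congr_right (h1 g hg k _)
  · intro h r hr
    obtain ⟨s, hs, k, h3, h4⟩ := h (g • r) ((smul_le_iff g _ _).2 hr)
    refine ⟨g⁻¹ • s, (le_smul_iff g _ _).1 hs, k, (h2 g hg k _).2 (by rwa [smul_inv_smul]), ?_⟩
    exact (FMem_act_iff g).1 (h4.congr_right (h1 g hg k _).symm)

end Mix

variable {K : Conn}

theorem fusion_aux (D : ℕ → Set (PP K)) (hD : ∀ n p q, p ∈ D n → q ≤ p → q ∈ D n)
    (r : RC K) (O : OC) (hd : ∀ n q, q ≤ (r, O) → ∃ q', q' ≤ q ∧ q' ∈ D n) :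
    ∃ (r' : RC K) (T : Set J), r' ≤ r ∧ T.Countable ∧ ∀ n, ∀ W : OC, W ≤ O →
      ∃ (A : Finset J) (ω : Om), (A : Set J) ⊆ T ∧ cylC A ω ≤ O ∧ (r', cylC A ω) ∈ D n ∧
        (W.1 ∩ Cyl A ω).Nonempty := by
  classical
  obtain ⟨S, c, hS, hc, hc0, hreq⟩ := henkin (P := RC K) (X := J)
    (I := ℕ × (Σ m : ℕ, Fin m → Bool)) (fun i => Fin i.2.1)
    (fun i a r' w => r' ≤ r → (O.1 ∩ {ω | ∀ k, ω (a k) = i.2.2 k}).Nonempty →
      ∃ (A : Finset J) (ω : Om), (A : Set J) ⊆ range w ∧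
        Cyl A ω ⊆ O.1 ∩ {ω | ∀ k, ω (a k) = i.2.2 k} ∧ (r', cylC A ω) ∈ D i.1) (by
      rintro ⟨n, m, b⟩ a r₀
      by_cases h1 : r₀ ≤ r
      swap
      · exact ⟨r₀, le_rfl, fun _ => [], fun h => absurd h h1⟩
      by_cases h2 : (O.1 ∩ {ω : Om | ∀ k, ω (a k) = b k}).Nonempty
      swap
      · exact ⟨r₀, le_rfl, fun _ => [], fun _ h => absurd h h2⟩
      have ho : IsOpen {ω : Om | ∀ k, ω (a k) = b k} := by
        rw [ofPred_forall]
        exact isOpen_iInter_of_finite fun k =>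
          (isOpen_discrete {b k}).preimage (continuous_coord (a k))
      obtain ⟨q', h3, h4⟩ := hd n (r₀, ⟨_, O.2.1.inter ho, h2⟩) ⟨h1, inter_subset_left⟩
      obtain ⟨ω, hω⟩ := q'.2.2.2
      obtain ⟨A, hA⟩ := exists_Cyl q'.2.2.1 hω
      obtain ⟨w, hw⟩ := countable_iff_exists_subset_range.1 A.countable_toSet
      exact ⟨q'.1, h3.1, w, fun _ _ => ⟨A, ω, hw, hA.trans h3.2, hD n _ _ h4 ⟨le_rfl, hA⟩⟩⟩) r
  obtain ⟨r', hr'⟩ := exists_lower c hc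
  refine ⟨r', S, (hr' 0).trans hc0, hS, fun n W hW => ?_⟩
  obtain ⟨ω₀, hω₀⟩ := W.2.2
  obtain ⟨A₀, hA₀⟩ := exists_Cyl W.2.1 hω₀
  let B := A₀.filter (· ∈ S)
  obtain ⟨N, w, hw, h1⟩ := hreq (n, ⟨B.card, fun k => ω₀ (B.equivFin.symm k).1⟩)
    (fun k => (B.equivFin.symm k).1) (fun k => (Finset.mem_filter.1 (B.equivFin.symm k).2).2)
  obtain ⟨A, ω, h2, h3, h4⟩ := h1 ((hc (Nat.zero_le N)).trans hc0) ⟨ω₀, hW hω₀, fun _ => rfl⟩
  have hAS : (A : Set J) ⊆ S := h2.trans (range_subset_iff.2 hw)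
  refine ⟨A, ω, hAS, h3.trans inter_subset_left, hD n _ _ h4 ⟨hr' N, le_rfl⟩,
    merge S ω ω₀, hA₀ (merge_mem_Cyl (fun j hj hjS => ?_) fun _ _ _ => rfl),
    (agree_merge S ω ω₀).mono hAS⟩
  have := (h3 (self_mem_Cyl A ω)).2 (B.equivFin ⟨j, Finset.mem_filter.2 ⟨hj, hjS⟩⟩)
  simpa using this

theorem countable_cyl {T : Set J} (hT : T.Countable) :
    {U : OC | ∃ (A : Finset J) (ω : Om), (A : Set J) ⊆ T ∧ U = cylC A ω}.Countable := by
  classical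
  have : Countable T := hT.to_subtype
  refine (countable_range (fun x : Finset T × Finset T =>
    cylC (x.1.map (Function.Embedding.subtype _))
      (fun j => decide (j ∈ x.2.map (Function.Embedding.subtype _))))).mono ?_
  rintro U ⟨A, ω, hA, rfl⟩
  refine ⟨(A.subtype (· ∈ T), (A.filter (fun j => ω j = true)).subtype (· ∈ T)), ?_⟩
  have h1 : (A.subtype (· ∈ T)).map (Function.Embedding.subtype _) = A :=
    Finset.subtype_map_of_mem fun j hj => hA hj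
  have h2 : ((A.filter (fun j => ω j = true)).subtype (· ∈ T)).map
      (Function.Embedding.subtype _) = A.filter (fun j => ω j = true) :=
    Finset.subtype_map_of_mem fun j hj => hA (Finset.mem_filter.1 hj).1
  simp only [h1, h2]
  apply Subtype.ext
  ext z
  refine forall₂_congr fun j hj => ?_
  have hj' : j ∈ A := hj
  cases h : ω j <;> simp [h, hj']

theorem fusion (D : ℕ → Set (PP K)) (hD : ∀ n p q, p ∈ D n → q ≤ p → q ∈ D n)
    (r : RC K) (O : OC) (hd : ∀ n q, q ≤ (r, O) → ∃ q', q' ≤ q ∧ q' ∈ D n) :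
    ∃ (r' : RC K) (T : Set J) (s : ℕ → ℕ → OC), r' ≤ r ∧ T.Countable ∧
      (∀ n k, InvS T (s n k).1 ∧ s n k ≤ O ∧ (r', s n k) ∈ D n) ∧
      ∀ n, ∀ W : OC, W ≤ O → ∃ k, (W.1 ∩ (s n k).1).Nonempty := by
  obtain ⟨r', T, h1, h2, h3⟩ := fusion_aux D hD r O hd
  have key : ∀ n, ∃ s : ℕ → OC,
      {U : OC | (∃ (A : Finset J) (ω : Om), (A : Set J) ⊆ T ∧ U = cylC A ω) ∧ U ≤ O ∧
        (r', U) ∈ D n} = range s := by
    intro n
    refine Set.Countable.exists_eq_range ((countable_cyl h2).mono fun U hU => hU.1) ?_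
    obtain ⟨A, ω, h4, h5, h6, _⟩ := h3 n O le_rfl
    exact ⟨_, ⟨A, ω, h4, rfl⟩, h5, h6⟩
  choose s hs using key
  refine ⟨r', T, s, h1, h2, fun n k => ?_, fun n W hW => ?_⟩
  · have := mem_range_self (f := s n) k
    rw [← hs n] at this
    obtain ⟨⟨A, ω, h4, h5⟩, h6, h7⟩ := this
    refine ⟨?_, h6, h7⟩
    rw [h5]
    exact (InvS_Cyl A ω).mono h4
  · obtain ⟨A, ω, h4, h5, h6, h7⟩ := h3 n W hW
    have : cylC A ω ∈ range (s n) := by
      rw [← hs n]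
      exact ⟨⟨A, ω, h4, rfl⟩, h5, h6⟩
    obtain ⟨k, hk⟩ := this
    exact ⟨k, by rw [hk]; exact h7⟩

def OC.inter (U V : OC) (h : (U.1 ∩ V.1).Nonempty) : OC := ⟨U.1 ∩ V.1, U.2.1.inter V.2.1, h⟩

/-- Every name is, as far as natural numbers are concerned, given by a Borel function. -/
theorem exists_realN (σ : Name (PP K)) (r : RC K) (O : OC) :
    ∃ (r' : RC K) (F : Fn) (T : Set J), r' ≤ r ∧ T.Countable ∧ Inv T F.1 ∧
      ∀ n q, q ≤ (r', O) → (FMem (natN (PP K) n) σ q ↔ FMem (natN (PP K) n) (realN K F) q) := by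
  obtain ⟨r', T, s, h1, h2, h3, h4⟩ := fusion
    (fun n => {q | FMem (natN (PP K) n) σ q ∨ ∀ q', q' ≤ q → ¬ FMem (natN (PP K) n) σ q'})
    (by
      rintro n p q (h | h) hq
      · exact Or.inl (h.mono hq)
      · exact Or.inr fun q' hq' => h q' (hq'.trans hq)) r O (by
      intro n q _
      by_cases h : ∃ q', q' ≤ q ∧ FMem (natN (PP K) n) σ q'
      · obtain ⟨q', h1, h2⟩ := h
        exact ⟨q', h1, Or.inl h2⟩
      · exact ⟨q, le_rfl, Or.inr fun q' hq' h' => h ⟨q', hq', h'⟩⟩)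
  let F : Om → Set ℕ := fun ω => {n | ∃ k, ω ∈ (s n k).1 ∧ FMem (natN (PP K) n) σ (r', s n k)}
  have hF : Measurable F := by
    refine measurable_set_iff.2 fun n => measurableSet_setOfPred.1 (IsOpen.measurableSet ?_)
    have : {ω | n ∈ F ω} = ⋃ k, ⋃ (_ : FMem (natN (PP K) n) σ (r', s n k)), (s n k).1 := by
      ext ω
      simp only [F, mem_ofPred_eq, mem_iUnion, exists_prop, and_comm]
    rw [this]
    exact isOpen_iUnion fun k => isOpen_iUnion fun _ => (s n k).2.1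
  refine ⟨r', ⟨F, hF⟩, T, h1, h2, fun ω η ha => ?_, fun n q hq => ?_⟩
  · ext n
    exact exists_congr fun k => and_congr_left fun _ =>
      ⟨(h3 n k).1 _ _ ha, (h3 n k).1 _ _ ha.symm⟩
  · rw [FMem_realN]
    constructor
    · intro h
      refine Ae.dense (Fn.measurableSet_mem ⟨F, hF⟩ n) q.2.2.1 fun V hV => ?_
      obtain ⟨k, hk⟩ := h4 n V (Subset.trans hV hq.2)
      refine ⟨V.inter (s n k) hk, inter_subset_left, Eventually.of_forall fun ω hω => ?_⟩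
      refine ⟨k, hω.2, ?_⟩
      rcases (h3 n k).2.2 with h5 | h5
      · exact h5
      · exact absurd (h.mono (q := (q.1, V.inter (s n k) hk))
          ⟨le_rfl, inter_subset_left.trans hV⟩) (h5 _ ⟨hq.1, inter_subset_right⟩)
    · intro h
      refine FMem.dense fun q' hq' => ?_
      obtain ⟨ω, h5, k, h6, h7⟩ := (h.mono hq'.2).exists q'.2.2.1 q'.2.2.2
      exact ⟨(q'.1, q'.2.inter (s n k) ⟨ω, h5, h6⟩), ⟨le_rfl, inter_subset_left⟩,
        h7.mono ⟨hq'.1.trans hq.1, inter_subset_right⟩⟩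

/-- A maximum principle at the price of extending the countably closed coordinate. -/
theorem mixing {Q : Name (PP K) → PP K → Prop} (hQ : Good Q) (r : RC K) (O : OC)
    (hd : ∀ q, q ≤ (r, O) → ∃ q', q' ≤ q ∧ ∃ τ, HS Gr τ ∧ Q τ q') :
    ∃ r', r' ≤ r ∧ ∃ τ, HS Gr τ ∧ Q τ (r', O) := by
  classical
  obtain ⟨r', T, s', h1, h2, h3, h4⟩ := fusion (fun _ => {q | ∃ τ, HS Gr τ ∧ Q τ q})
    (fun _ p q ⟨τ, h1, h2⟩ hq => ⟨τ, h1, hQ.mono h2 hq⟩) r O (fun _ => hd)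
  let s := s' 0
  choose τ hτ1 hτ2 using fun k => (h3 0 k).2.2
  let E : ℕ → PP K → Prop := fun k q => q.2.1 ⊆ (s k).1 ∧ ∀ j, j < k → Disjoint q.2.1 (s j).1
  have hE : ∀ k p q, E k p → q ≤ p → E k q := fun k p q h hq =>
    ⟨Subset.trans hq.2 h.1, fun j hj => (h.2 j hj).mono_left hq.2⟩
  have hu : ∀ k k' p, E k p → E k' p → k = k' := by
    intro k k' p h h'
    obtain ⟨ω, hω⟩ := p.2.2.2
    rcases lt_trichotomy k k' with h5 | h5 | h5
    · exact absurd (h.1 hω) (disjoint_left.1 (h'.2 k h5) hω)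
    · exact h5
    · exact absurd (h'.1 hω) (disjoint_left.1 (h.2 k' h5) hω)
  refine ⟨r', h1, mixN τ E, ?_, hQ.dense fun q hq => ?_⟩
  · refine HS_mixN hE hτ1 (fix T ∩ ⋂ k, symm Gr (τ k))
      (Filter.inter_mem (fix_mem h2) (fixF_iInter fun k => (hτ1 k).symm_mem))
      (fun g hg k => mem_iInter.1 hg.2 k) ?_
    have key : ∀ g ∈ fix T, ∀ k p, E k p → E k (g • p) := by
      intro g hg k p h
      refine ⟨fun ω hω => (h3 0 k).1 _ _ (fix_symm hg ω) (h.1 hω), fun j hj => ?_⟩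
      exact disjoint_left.2 fun ω hω h5 =>
        disjoint_left.1 (h.2 j hj) hω ((h3 0 j).1 _ _ (fix_symm hg ω).symm h5)
    intro g hg k p
    refine ⟨key g hg.1 k p, fun h => ?_⟩
    have := key g⁻¹ (fix_inv hg.1) k _ h
    rwa [inv_smul_smul] at this
  · have hex : ∃ k, (q.2.1 ∩ (s k).1).Nonempty := h4 0 q.2 hq.2
    let k := Nat.find hex
    have hk : (q.2.1 ∩ (s k).1).Nonempty := Nat.find_spec hex
    have hEk : E k (q.1, q.2.inter (s k) hk) := by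
      refine ⟨inter_subset_right, fun j hj => ?_⟩
      have := Nat.find_min hex hj
      rw [not_nonempty_iff_eq_empty, ← disjoint_iff_inter_eq_empty] at this
      exact this.mono_left inter_subset_left
    exact ⟨(q.1, q.2.inter (s k) hk), ⟨le_rfl, inter_subset_left⟩,
      hQ.congr (hQ.mono (hτ2 k) ⟨hq.1, inter_subset_right⟩) (FEq_mixN hE hu hEk)⟩

theorem dc_dense (X R : Name (PP K)) (p : PP K) :
    ∃ p', p' ≤ p ∧ ((∀ σ, HS Gr σ → ∀ q, q ≤ p' → ¬ FMem σ X q) ∨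
      (∃ σ, HS Gr σ ∧ FMem σ X p' ∧
        ∀ τ, HS Gr τ → ∀ q, q ≤ p' → ¬ (FMem τ X q ∧ FMem (op σ τ) R q)) ∨
      (∃ y : ℕ → Name (PP K), HS Gr (fam (fun n => op (natN (PP K) n) (y n))) ∧
        ∀ n, FMem (y n) X p' ∧ FMem (op (y n) (y (n + 1))) R p')) := by
  by_contra hcon
  push Not at hcon
  obtain ⟨σ₀, hσ₀, ⟨r₀, O⟩, hq₀, hm₀⟩ := (hcon p le_rfl).1
  have step : ∀ x : {x : RC K × Name (PP K) // x.1 ≤ r₀ ∧ HS Gr x.2 ∧ FMem x.2 X (x.1, O)},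
      ∃ y : {x : RC K × Name (PP K) // x.1 ≤ r₀ ∧ HS Gr x.2 ∧ FMem x.2 X (x.1, O)},
        y.1.1 ≤ x.1.1 ∧ FMem (op x.1.2 y.1.2) R (y.1.1, O) := by
    rintro ⟨⟨r, σ⟩, h1, h2, h3⟩
    obtain ⟨r', h4, τ, h5, h6, h7⟩ := mixing (Q := fun τ q => FMem τ X q ∧ FMem (op σ τ) R q)
      ⟨fun h hq => ⟨h.1.mono hq, h.2.mono hq⟩,
        fun h => ⟨FMem.dense fun q hq => (h q hq).imp fun _ h' => ⟨h'.1, h'.2.1⟩,
          FMem.dense fun q hq => (h q hq).imp fun _ h' => ⟨h'.1, h'.2.2⟩⟩,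
        fun h he => ⟨h.1.congr_left he, h.2.congr_left (op_congr (FEq.refl _ _) he)⟩⟩ r O (by
        intro q hq
        have hq' : q ≤ p := le_trans hq (le_trans (show (r, O) ≤ (r₀, O) from ⟨h1, le_rfl⟩) hq₀)
        obtain ⟨τ, h4, q', h5, h6⟩ := (hcon q hq').2.1 σ h2 (h3.mono hq)
        exact ⟨q', h5, τ, h4, h6⟩)
    exact ⟨⟨(r', τ), h4.trans h1, h5, h6⟩, h4, h7⟩
  choose f hf1 hf2 using step
  let x : ℕ → {x : RC K × Name (PP K) // x.1 ≤ r₀ ∧ HS Gr x.2 ∧ FMem x.2 X (x.1, O)} :=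
    fun n => Nat.rec ⟨(r₀, σ₀), le_rfl, hσ₀, hm₀⟩ (fun _ y => f y) n
  obtain ⟨r', hr'⟩ := exists_lower (fun n => (x n).1.1)
    (antitone_nat_of_succ_le fun n => hf1 (x n))
  have hp' : (r', O) ≤ p := le_trans (show (r', O) ≤ (r₀, O) from ⟨hr' 0, le_rfl⟩) hq₀
  have hop : ∀ n, HS Gr (op (natN (PP K) n) (x n).1.2) := fun n => HS_op (HS_natN n) (x n).2.2.1
  obtain ⟨n, hn⟩ := (hcon _ hp').2.2 (fun n => (x n).1.2)
    (HS_fam hop (fixF_iInter fun n => (hop n).symm_mem))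
  exact hn ((x n).2.2.2.mono ⟨hr' n, le_rfl⟩) ((hf2 (x n)).mono ⟨hr' (n + 1), le_rfl⟩)

end Pool.Agent.Lib.MP_2948f4_lc
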