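import Mathlib
import Pool.Agent.Lib.MP_2948f4_lc.Build

set_option autoImplicit false

namespace Pool.Agent.Lib.MP_2948f4_lc

open Name

variable {P : Type} [Preorder P] [OrderTop P]

section
variable (G : Type) [Group G] [MulAction G P] [SymSys G P]

open Classical in
/-- A chosen witness for an existential statement forced by `p`. -/
noncomputable def wit {n : ℕ} (ψ : Fm (n + 1)) (v : Fin n → Name P) (p : P) : Name P :=
  if h : ∃ τ, HS G τ ∧ Forces G ψ (Fin.cons τ v) p then h.choose else natN P 0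

theorem HS_wit {n : ℕ} (ψ : Fm (n + 1)) (v : Fin n → Name P) (p : P) : HS G (wit G ψ v p) := by
  unfold wit
  split_ifs with h
  · exact h.choose_spec.1
  · exact HS_natN 0

theorem forces_wit {n : ℕ} {ψ : Fm (n + 1)} {v : Fin n → Name P} {p : P} {τ : Name P}
    (h1 : HS G τ) (h2 : Forces G ψ (Fin.cons τ v) p) :
    Forces G ψ (Fin.cons (wit G ψ v p) v) p := by
  have h : ∃ τ, HS G τ ∧ Forces G ψ (Fin.cons τ v) p := ⟨τ, h1, h2⟩
  unfold wit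
  rw [dif_pos h]
  exact h.choose_spec.2

def subN (a : Name P) (T : Set (a.ι × P)) : Name P :=
  Name.mk {x : a.ι × P // x ∈ T} (fun x => a.A x.1.1) (fun x => x.1.2)

def powN (a : Name P) : Name P :=
  orb G (fun T : {T : Set (a.ι × P) // HS G (subN a T)} => subN a T.1)

def unionN (a : Name P) : Name P :=
  orb G (fun x : Σ i : a.ι, (a.A i).ι => (a.A x.1).A x.2)

noncomputable def collN {n : ℕ} (φ : Fm (n + 2)) (v : Fin n → Name P) (a : Name P) : Name P :=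
  orb G (fun x : a.ι × P => wit G φ (Fin.cons (a.A x.1) v) x.2)

def sepF {n : ℕ} (φ : Fm (n + 1)) (v : Fin n → Name P) (a : Name P) : Name P :=
  sepN a (fun σ p => Forces G φ (Fin.cons σ v) p)

theorem HS_powN (a : Name P) : HS G (powN G a) := HS_orb fun T => T.2

theorem HS_unionN {a : Name P} (ha : HS G a) : HS G (unionN G a) :=
  HS_orb fun x => (ha.sub x.1).sub x.2

theorem HS_collN {n : ℕ} (φ : Fm (n + 2)) (v : Fin n → Name P) (a : Name P) :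
    HS G (collN G φ v a) := HS_orb fun _ => HS_wit G _ _ _

/-- A set `S` of names and a filter `D` of conditions that is generic enough for `S`. -/
structure Gen (S : Set (Name P)) (D : Set P) : Prop where
  hs : ∀ τ ∈ S, HS G τ
  upc : ∀ p ∈ D, ∀ q, p ≤ q → q ∈ D
  dir : ∀ p ∈ D, ∀ q ∈ D, ∃ r ∈ D, r ≤ p ∧ r ≤ q
  top : ⊤ ∈ D
  mem_dec : ∀ σ ∈ S, ∀ τ ∈ S, ∃ p ∈ D, (∀ q, q ≤ p → ¬ FMem σ τ q) ∨
    ∃ j, τ.A j ∈ S ∧ p ≤ τ.c j ∧ FEq σ (τ.A j) p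
  eq_dec : ∀ σ ∈ S, ∀ τ ∈ S, ∃ p ∈ D, FEq σ τ p ∨
    (∃ i, σ.A i ∈ S ∧ p ≤ σ.c i ∧ ∀ q, q ≤ p → ¬ FMem (σ.A i) τ q) ∨
    (∃ j, τ.A j ∈ S ∧ p ≤ τ.c j ∧ ∀ q, q ≤ p → ¬ FMem (τ.A j) σ q)
  dec : ∀ (n : ℕ) (φ : Fm n) (v : Fin n → Name P), (∀ i, v i ∈ S) →
    ∃ p ∈ D, Forces G φ v p ∨ ∀ q, q ≤ p → ¬ Forces G φ v q
  wit : ∀ (n : ℕ) (ψ : Fm (n + 1)) (v : Fin n → Name P), (∀ i, v i ∈ S) →
    ∃ p ∈ D, (∀ τ, HS G τ → ∀ q, q ≤ p → ¬ Forces G ψ (Fin.cons τ v) q) ∨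
      (wit G ψ v p ∈ S ∧ Forces G ψ (Fin.cons (wit G ψ v p) v) p)
  sub : ∀ τ ∈ S, Countable τ.ι → ∀ i, τ.A i ∈ S
  sep_mem : ∀ (n : ℕ) (φ : Fm (n + 1)) (v : Fin n → Name P), (∀ i, v i ∈ S) →
    ∀ a ∈ S, sepF G φ v a ∈ S
  coll_mem : ∀ (n : ℕ) (φ : Fm (n + 2)) (v : Fin n → Name P), (∀ i, v i ∈ S) →
    ∀ a ∈ S, collN G φ v a ∈ S
  up_mem : ∀ σ ∈ S, ∀ τ ∈ S, up σ τ ∈ S
  union_mem : ∀ a ∈ S, unionN G a ∈ S
  pow_mem : ∀ a ∈ S, powN G a ∈ S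
  omega_mem : fam (natN P) ∈ S
  dc : ∀ X ∈ S, ∀ R ∈ S, ∃ p ∈ D, (∀ σ, HS G σ → ∀ q, q ≤ p → ¬ FMem σ X q) ∨
    (∃ σ ∈ S, FMem σ X p ∧ ∀ τ, HS G τ → ∀ q, q ≤ p → ¬ (FMem τ X q ∧ FMem (op σ τ) R q)) ∨
    (∃ y : ℕ → Name P, fam (fun n => op (natN P n) (y n)) ∈ S ∧
      ∀ n, FMem (y n) X p ∧ FMem (op (y n) (y (n + 1))) R p)

end

/-- Evaluation of a name. -/
noncomputable def val (S : Set (Name P)) (D : Set P) : Name P → ZFSet.{0}
  | Name.mk ι A c => ZFSet.range (fun x : {i : ι // A i ∈ S ∧ c i ∈ D} => val S D (A x.1))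

omit [Preorder P] [OrderTop P] in
theorem mem_val {S : Set (Name P)} {D : Set P} {τ : Name P} {z : ZFSet.{0}} :
    z ∈ val S D τ ↔ ∃ i, τ.A i ∈ S ∧ τ.c i ∈ D ∧ val S D (τ.A i) = z := by
  cases τ with
  | mk ι A c =>
    rw [val, ZFSet.mem_range]
    constructor
    · rintro ⟨⟨i, h1, h2⟩, h3⟩
      exact ⟨i, h1, h2, h3⟩
    · rintro ⟨i, h1, h2, h3⟩
      exact ⟨⟨i, h1, h2⟩, h3⟩

/-- The model. -/
noncomputable def model (S : Set (Name P)) (D : Set P) [Small.{0} S] : ZFSet.{0} :=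
  ZFSet.range (fun τ : S => val S D τ.1)

omit [Preorder P] [OrderTop P] in
theorem mem_model {S : Set (Name P)} {D : Set P} [Small.{0} S] {z : ZFSet.{0}} :
    z ∈ model S D ↔ ∃ τ ∈ S, val S D τ = z := by
  simp [model]

/-- The von Neumann numeral. -/
def natZ (n : ℕ) : ZFSet.{0} := ZFSet.mk (PSet.ofNat n)

theorem natZ_succ (n : ℕ) : natZ (n + 1) = insert (natZ n) (natZ n) := rfl

theorem mem_natZ {n : ℕ} {z : ZFSet.{0}} : z ∈ natZ n ↔ ∃ i, i < n ∧ natZ i = z := by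
  induction n with
  | zero =>
    have : natZ 0 = ∅ := rfl
    simp [this]
  | succ n ih =>
    rw [natZ_succ, ZFSet.mem_insert_iff, ih]
    constructor
    · rintro (rfl | ⟨i, hi, rfl⟩)
      · exact ⟨n, Nat.lt_succ_self n, rfl⟩
      · exact ⟨i, Nat.lt_succ_of_lt hi, rfl⟩
    · rintro ⟨i, hi, rfl⟩
      rcases Nat.lt_succ_iff_lt_or_eq.1 hi with h | rfl
      · exact Or.inr ⟨i, h, rfl⟩
      · exact Or.inl rfl

theorem natZ_inj {n m : ℕ} (h : natZ n = natZ m) : n = m := by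
  rcases lt_trichotomy n m with h1 | h1 | h1
  · have : natZ n ∈ natZ m := mem_natZ.2 ⟨n, h1, rfl⟩
    rw [h] at this
    exact absurd this (ZFSet.mem_irrefl _)
  · exact h1
  · have : natZ m ∈ natZ n := mem_natZ.2 ⟨m, h1, rfl⟩
    rw [h] at this
    exact absurd this (ZFSet.mem_irrefl _)

theorem mem_omega {z : ZFSet.{0}} : z ∈ ZFSet.omega ↔ ∃ n, natZ n = z := by
  induction z using Quotient.inductionOn with
  | h x =>
    constructor
    · rintro ⟨⟨n⟩, h⟩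
      exact ⟨n, (ZFSet.sound h).symm⟩
    · rintro ⟨n, h⟩
      exact ⟨⟨n⟩, ZFSet.exact h.symm⟩

theorem mem_code {x : Set ℕ} {z : ZFSet.{0}} : z ∈ code x ↔ ∃ n ∈ x, natZ n = z := by
  rw [code, ZFSet.mem_sep, mem_omega]
  constructor
  · rintro ⟨_, n, hn, rfl⟩
    exact ⟨n, hn, rfl⟩
  · rintro ⟨n, hn, rfl⟩
    exact ⟨⟨n, rfl⟩, n, hn, rfl⟩

theorem natZ_mem_code {x : Set ℕ} {n : ℕ} : natZ n ∈ code x ↔ n ∈ x := by
  rw [mem_code]
  constructor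
  · rintro ⟨m, hm, h⟩
    rwa [← natZ_inj h]
  · exact fun h => ⟨n, h, rfl⟩

theorem code_inj {x y : Set ℕ} (h : code x = code y) : x = y := by
  ext n
  rw [← natZ_mem_code, ← natZ_mem_code, h]

theorem code_subset (x : Set ℕ) : code x ⊆ ZFSet.omega := ZFSet.sep_subset

namespace Gen

variable {G : Type} [Group G] [MulAction G P] [SymSys G P] {S : Set (Name P)} {D : Set P}

theorem mem_of_forces (h : Gen G S D) {σ τ : Name P} (hσ : σ ∈ S) (hτ : τ ∈ S) {p : P}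
    (hp : p ∈ D) (hm : FMem σ τ p) :
    ∃ j, τ.A j ∈ S ∧ τ.c j ∈ D ∧ ∃ r ∈ D, FEq σ (τ.A j) r := by
  obtain ⟨q, hq, h1 | ⟨j, h1, h2, h3⟩⟩ := h.mem_dec σ hσ τ hτ
  · obtain ⟨r, _, hr1, hr2⟩ := h.dir p hp q hq
    exact absurd (hm.mono hr1) (h1 r hr2)
  · exact ⟨j, h1, h.upc q hq _ h2, q, hq, h3⟩

theorem val_eq_iff (h : Gen G S D) {σ : Name P} :
    ∀ {τ : Name P}, σ ∈ S → τ ∈ S → (val S D σ = val S D τ ↔ ∃ p ∈ D, FEq σ τ p) := by
  induction σ using Name.induct with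
  | h σ ih =>
    intro τ hσ hτ
    constructor
    · intro he
      obtain ⟨p, hp, h1 | ⟨i, h1, h2, h3⟩ | ⟨j, h1, h2, h3⟩⟩ := h.eq_dec σ hσ τ hτ
      · exact ⟨p, hp, h1⟩
      · exfalso
        have : val S D (σ.A i) ∈ val S D τ := he ▸ mem_val.2 ⟨i, h1, h.upc p hp _ h2, rfl⟩
        obtain ⟨j, hj1, hj2, hj3⟩ := mem_val.1 this
        obtain ⟨q, hq, h4⟩ := (ih i h1 hj1).1 hj3.symm
        obtain ⟨r, hr, hr1, hr2⟩ := h.dir p hp q hq
        obtain ⟨s, _, hs1, hs2⟩ := h.dir r hr _ hj2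
        exact h3 s (hs1.trans hr1) (FMem.of_eq j hs2 (h4.mono (hs1.trans hr2)))
      · exfalso
        have : val S D (τ.A j) ∈ val S D σ := he ▸ mem_val.2 ⟨j, h1, h.upc p hp _ h2, rfl⟩
        obtain ⟨i, hi1, hi2, hi3⟩ := mem_val.1 this
        obtain ⟨q, hq, h4⟩ := (ih i hi1 h1).1 hi3
        obtain ⟨r, hr, hr1, hr2⟩ := h.dir p hp q hq
        obtain ⟨s, _, hs1, hs2⟩ := h.dir r hr _ hi2
        exact h3 s (hs1.trans hr1) (FMem.of_eq i hs2 (h4.mono (hs1.trans hr2)).symm)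
    · rintro ⟨p, hp, he⟩
      ext z
      constructor
      · intro hz
        obtain ⟨i, h1, h2, rfl⟩ := mem_val.1 hz
        obtain ⟨r, hr, hr1, hr2⟩ := h.dir p hp _ h2
        obtain ⟨j, hj1, hj2, hj3⟩ := h.mem_of_forces h1 hτ hr
          ((FMem.self i hr2).congr_right (he.mono hr1))
        exact mem_val.2 ⟨j, hj1, hj2, ((ih i h1 hj1).2 hj3).symm⟩
      · intro hz
        obtain ⟨j, h1, h2, rfl⟩ := mem_val.1 hz
        obtain ⟨r, hr, hr1, hr2⟩ := h.dir p hp _ h2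
        obtain ⟨i, hi1, hi2, s, hs, hi3⟩ := h.mem_of_forces h1 hσ hr
          ((FMem.self j hr2).congr_right (he.mono hr1).symm)
        exact mem_val.2 ⟨i, hi1, hi2, (ih i hi1 h1).2 ⟨s, hs, hi3.symm⟩⟩

theorem val_mem_iff (h : Gen G S D) {σ τ : Name P} (hσ : σ ∈ S) (hτ : τ ∈ S) :
    val S D σ ∈ val S D τ ↔ ∃ p ∈ D, FMem σ τ p := by
  constructor
  · intro hm
    obtain ⟨j, h1, h2, h3⟩ := mem_val.1 hm
    obtain ⟨q, hq, h4⟩ := (h.val_eq_iff hσ h1).1 h3.symm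
    obtain ⟨r, hr, hr1, hr2⟩ := h.dir q hq _ h2
    exact ⟨r, hr, FMem.of_eq j hr2 (h4.mono hr1)⟩
  · rintro ⟨p, hp, hm⟩
    obtain ⟨j, h1, h2, h3⟩ := h.mem_of_forces hσ hτ hp hm
    exact mem_val.2 ⟨j, h1, h2, ((h.val_eq_iff hσ h1).2 h3).symm⟩

omit [Preorder P] [OrderTop P] in
theorem val_cons {n : ℕ} (τ : Name P) (v : Fin n → Name P) :
    (fun i => val S D ((Fin.cons τ v : Fin (n + 1) → Name P) i)) =
      Fin.cons (val S D τ) (fun i => val S D (v i)) := by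
  funext i
  refine Fin.cases ?_ (fun i => ?_) i <;> rfl

omit [Preorder P] [OrderTop P] in
theorem cons_mem {n : ℕ} {τ : Name P} {v : Fin n → Name P} (hτ : τ ∈ S) (hv : ∀ i, v i ∈ S) :
    ∀ i, (Fin.cons τ v : Fin (n + 1) → Name P) i ∈ S := by
  intro i
  refine Fin.cases ?_ (fun i => ?_) i
  · exact hτ
  · exact hv i

variable [Small.{0} S]

theorem truth (h : Gen G S D) {n : ℕ} (φ : Fm n) : ∀ v : Fin n → Name P, (∀ i, v i ∈ S) →
    (Sat (model S D) φ (fun i => val S D (v i)) ↔ ∃ p ∈ D, Forces G φ v p) := by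
  induction φ with
  | mem i j => exact fun v hv => h.val_mem_iff (hv i) (hv j)
  | eq i j => exact fun v hv => h.val_eq_iff (hv i) (hv j)
  | neg φ ih =>
    intro v hv
    change ¬ _ ↔ _
    rw [ih v hv]
    constructor
    · intro hn
      obtain ⟨p, hp, h1 | h1⟩ := h.dec _ φ v hv
      · exact absurd ⟨p, hp, h1⟩ hn
      · exact ⟨p, hp, h1⟩
    · rintro ⟨p, hp, h1⟩ ⟨q, hq, h2⟩
      obtain ⟨r, _, hr1, hr2⟩ := h.dir p hp q hq
      exact h1 r hr1 (h2.mono hr2)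
  | and φ ψ ih1 ih2 =>
    intro v hv
    change _ ∧ _ ↔ _
    rw [ih1 v hv, ih2 v hv]
    constructor
    · rintro ⟨⟨p, hp, h1⟩, ⟨q, hq, h2⟩⟩
      obtain ⟨r, hr, hr1, hr2⟩ := h.dir p hp q hq
      exact ⟨r, hr, h1.mono hr1, h2.mono hr2⟩
    · rintro ⟨p, hp, h1, h2⟩
      exact ⟨⟨p, hp, h1⟩, ⟨p, hp, h2⟩⟩
  | all φ ih =>
    intro v hv
    change (∀ x ∈ model S D, _) ↔ _
    constructor
    · intro ha
      obtain ⟨p, hp, h1 | ⟨h1, h2⟩⟩ := h.wit _ (Fm.neg φ) v hv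
      · refine ⟨p, hp, fun τ hτ => Forces.dense fun q hq => ?_⟩
        have := h1 τ hτ q hq
        change ¬ ∀ r, r ≤ q → ¬ _ at this
        push Not at this
        exact this
      · exfalso
        have h3 := ha _ (mem_model.2 ⟨_, h1, rfl⟩)
        rw [← val_cons, ih _ (cons_mem h1 hv)] at h3
        obtain ⟨q, hq, h4⟩ := h3
        obtain ⟨r, _, hr1, hr2⟩ := h.dir p hp q hq
        exact h2 r hr1 (h4.mono hr2)
    · rintro ⟨p, hp, h1⟩ x hx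
      obtain ⟨τ, hτ, rfl⟩ := mem_model.1 hx
      rw [← val_cons, ih _ (cons_mem hτ hv)]
      exact ⟨p, hp, h1 τ (h.hs τ hτ)⟩

omit [Preorder P] [OrderTop P] in
theorem model_trans : (model S D).IsTransitive := by
  intro y hy z hz
  obtain ⟨τ, _, rfl⟩ := mem_model.1 hy
  obtain ⟨i, h1, _, rfl⟩ := mem_val.1 hz
  exact mem_model.2 ⟨_, h1, rfl⟩

omit [Small.{0} S] in
theorem mem_val_fam (h : Gen G S D) {κ : Type} {ρ : κ → Name P} (hρ : ∀ k, ρ k ∈ S)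
    {z : ZFSet.{0}} : z ∈ val S D (fam ρ) ↔ ∃ k, val S D (ρ k) = z := by
  rw [mem_val]
  exact ⟨fun ⟨k, _, _, h3⟩ => ⟨k, h3⟩, fun ⟨k, h3⟩ => ⟨k, hρ k, h.top, h3⟩⟩

omit [Small.{0} S] in
theorem val_up (h : Gen G S D) {σ τ : Name P} (hσ : σ ∈ S) (hτ : τ ∈ S) :
    val S D (up σ τ) = {val S D σ, val S D τ} := by
  ext z
  rw [up, h.mem_val_fam (fun b => by cases b <;> assumption), ZFSet.mem_pair]
  constructor
  · rintro ⟨b, rfl⟩
    cases b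
    · exact Or.inr rfl
    · exact Or.inl rfl
  · rintro (rfl | rfl)
    · exact ⟨true, rfl⟩
    · exact ⟨false, rfl⟩

omit [Small.{0} S] in
theorem op_mem (h : Gen G S D) {σ τ : Name P} (hσ : σ ∈ S) (hτ : τ ∈ S) : op σ τ ∈ S :=
  h.up_mem _ (h.up_mem _ hσ _ hσ) _ (h.up_mem _ hσ _ hτ)

omit [Small.{0} S] in
theorem of_op_mem (h : Gen G S D) {σ τ : Name P} (ho : op σ τ ∈ S) : σ ∈ S ∧ τ ∈ S := by
  have h1 : up σ τ ∈ S := h.sub _ ho (inferInstanceAs (Countable Bool)) false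
  exact ⟨h.sub _ h1 (inferInstanceAs (Countable Bool)) true,
    h.sub _ h1 (inferInstanceAs (Countable Bool)) false⟩

omit [Small.{0} S] in
theorem val_op (h : Gen G S D) {σ τ : Name P} (hσ : σ ∈ S) (hτ : τ ∈ S) :
    val S D (op σ τ) = ZFSet.pair (val S D σ) (val S D τ) := by
  rw [op, h.val_up (h.up_mem _ hσ _ hσ) (h.up_mem _ hσ _ hτ), h.val_up hσ hσ, h.val_up hσ hτ,
    ZFSet.pair_eq_singleton]
  rfl

omit [Small.{0} S] in
theorem natN_mem (h : Gen G S D) (n : ℕ) : natN P n ∈ S :=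
  h.sub _ h.omega_mem (inferInstanceAs (Countable ℕ)) n

omit [Small.{0} S] in
theorem val_natN (h : Gen G S D) (n : ℕ) : val S D (natN P n) = natZ n := by
  induction n using Nat.strong_induction_on with
  | h n ih =>
    ext z
    rw [natN_eq, h.mem_val_fam (fun i => h.natN_mem _), mem_natZ]
    constructor
    · rintro ⟨i, rfl⟩
      exact ⟨i.1, i.2, (ih i.1 i.2).symm⟩
    · rintro ⟨i, hi, rfl⟩
      exact ⟨⟨i, hi⟩, ih i hi⟩

omit [Small.{0} S] in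
theorem val_omega (h : Gen G S D) : val S D (fam (natN P)) = ZFSet.omega := by
  ext z
  rw [h.mem_val_fam h.natN_mem, mem_omega]
  simp only [h.val_natN]

omit [Small.{0} S] in
theorem val_mem_orb (h : Gen G S D) {κ : Type} {ρ : κ → Name P} {k : κ} (hk : ρ k ∈ S)
    (ho : orb G ρ ∈ S) : val S D (ρ k) ∈ val S D (orb G ρ) :=
  (h.val_mem_iff hk ho).2 ⟨⊤, h.top, FMem_orb ρ k ⊤⟩

theorem val_sepF (h : Gen G S D) {n : ℕ} (φ : Fm (n + 1)) {v : Fin n → Name P}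
    (hv : ∀ i, v i ∈ S) {a : Name P} (ha : a ∈ S) :
    val S D (sepF G φ v a) = (val S D a).sep
      (fun x => Sat (model S D) φ (Fin.cons x (fun i => val S D (v i)))) := by
  have hs := h.sep_mem n φ v hv a ha
  ext z
  rw [ZFSet.mem_sep]
  constructor
  · intro hz
    obtain ⟨σ, hσ, rfl⟩ := mem_model.1 (model_trans _ (mem_model.2 ⟨_, hs, rfl⟩) hz)
    obtain ⟨p, hp, h1⟩ := (h.val_mem_iff hσ hs).1 hz
    obtain ⟨h2, h3⟩ := (FMem_sepN (good_forces φ v)).1 h1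
    refine ⟨(h.val_mem_iff hσ ha).2 ⟨p, hp, h2⟩, ?_⟩
    rw [← val_cons, h.truth φ _ (cons_mem hσ hv)]
    exact ⟨p, hp, h3⟩
  · rintro ⟨hz, hφ⟩
    obtain ⟨σ, hσ, rfl⟩ := mem_model.1 (model_trans _ (mem_model.2 ⟨_, ha, rfl⟩) hz)
    rw [← val_cons, h.truth φ _ (cons_mem hσ hv)] at hφ
    obtain ⟨p, hp, h1⟩ := (h.val_mem_iff hσ ha).1 hz
    obtain ⟨q, hq, h2⟩ := hφ
    obtain ⟨r, hr, hr1, hr2⟩ := h.dir p hp q hq
    exact (h.val_mem_iff hσ hs).2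
      ⟨r, hr, (FMem_sepN (good_forces φ v)).2 ⟨h1.mono hr1, h2.mono hr2⟩⟩

theorem separation (h : Gen G S D) (n : ℕ) (φ : Fm (n + 1)) (v : Fin n → ZFSet.{0})
    (hv : ∀ i, v i ∈ model S D) (a : ZFSet.{0}) (ha : a ∈ model S D) :
    a.sep (fun x => Sat (model S D) φ (Fin.cons x v)) ∈ model S D := by
  choose w hw1 hw2 using fun i => mem_model.1 (hv i)
  obtain ⟨a', ha', rfl⟩ := mem_model.1 ha
  obtain rfl : (fun i => val S D (w i)) = v := funext hw2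
  exact mem_model.2 ⟨_, h.sep_mem n φ w hw1 a' ha', h.val_sepF φ hw1 ha'⟩

theorem isZFDC (h : Gen G S D) : IsZFDC (model S D) where
  trans := model_trans
  pairing a ha b hb := by
    obtain ⟨σ, hσ, rfl⟩ := mem_model.1 ha
    obtain ⟨τ, hτ, rfl⟩ := mem_model.1 hb
    exact mem_model.2 ⟨_, h.up_mem _ hσ _ hτ, h.val_up hσ hτ⟩
  union a ha := by
    obtain ⟨τ, hτ, rfl⟩ := mem_model.1 ha
    have hu := h.union_mem τ hτ
    have := h.separation 1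
      (Fm.neg (Fm.all (Fm.neg (Fm.and (Fm.mem 0 2) (Fm.mem 1 0))))) ![val S D τ]
      (fun i => by fin_cases i; exact ha) _ (mem_model.2 ⟨_, hu, rfl⟩)
    convert this using 1
    ext y
    rw [ZFSet.mem_sep, ZFSet.mem_sUnion]
    change _ ↔ _ ∧ ¬ ∀ z ∈ model S D, ¬ (z ∈ val S D τ ∧ y ∈ z)
    constructor
    · rintro ⟨z, hz, hy⟩
      refine ⟨?_, fun hn => hn z (model_trans _ ha hz) ⟨hz, hy⟩⟩
      obtain ⟨i, _, _, rfl⟩ := mem_val.1 hz
      obtain ⟨j, hj, _, rfl⟩ := mem_val.1 hy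
      exact h.val_mem_orb (ρ := fun x : Σ i : τ.ι, (τ.A i).ι => (τ.A x.1).A x.2)
        (k := ⟨i, j⟩) hj hu
    · rintro ⟨_, hn⟩
      push Not at hn
      obtain ⟨z, _, h1, h2⟩ := hn
      exact ⟨z, h1, h2⟩
  power a ha := by
    obtain ⟨τ, hτ, rfl⟩ := mem_model.1 ha
    have hu := h.pow_mem τ hτ
    have hb : val S D (powN G τ) ∈ model S D := mem_model.2 ⟨_, hu, rfl⟩
    have := h.separation 1
      (Fm.all (Fm.neg (Fm.and (Fm.mem 0 1) (Fm.neg (Fm.mem 0 2))))) ![val S D τ]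
      (fun i => by fin_cases i; exact ha) _ hb
    convert this using 1
    ext x
    rw [ZFSet.mem_sep, ZFSet.mem_inter, ZFSet.mem_powerset]
    change _ ↔ _ ∧ ∀ z ∈ model S D, ¬ (z ∈ x ∧ ¬ z ∈ val S D τ)
    constructor
    · rintro ⟨hx1, hx2⟩
      refine ⟨?_, fun z _ hz => hz.2 (hx1 hz.1)⟩
      obtain ⟨σ, hσ, rfl⟩ := mem_model.1 hx2
      have hv : ∀ i, (![σ] : Fin 1 → Name P) i ∈ S := fun i => by fin_cases i; exact hσ
      have h1 := h.sep_mem 1 (Fm.mem 0 1) ![σ] hv τ hτ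
      have h2 := h.val_sepF (Fm.mem 0 1) hv hτ
      have h3 : val S D (sepF G (Fm.mem 0 1) ![σ] τ) = val S D σ := by
        rw [h2]
        ext z
        rw [ZFSet.mem_sep]
        change _ ∧ z ∈ val S D σ ↔ _
        exact ⟨fun hz => hz.2, fun hz => ⟨hx1 hz, hz⟩⟩
      rw [← h3]
      exact h.val_mem_orb
        (ρ := fun T : {T : Set (τ.ι × P) // HS G (subN τ T)} => subN τ T.1)
        (k := ⟨{x | x.2 ≤ τ.c x.1 ∧ Forces G (Fm.mem 0 1) (Fin.cons (τ.A x.1) ![σ]) x.2},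
          h.hs _ h1⟩) h1 hu
    · rintro ⟨hx1, hx2⟩
      have hx : x ∈ model S D := model_trans _ hb hx1
      refine ⟨fun z hz => ?_, hx⟩
      by_contra hn
      exact hx2 z (model_trans _ hx hz) ⟨hz, hn⟩
  infinity := mem_model.2 ⟨_, h.omega_mem, h.val_omega⟩
  separation := h.separation
  collection n φ v hv a ha hex := by
    choose w hw1 hw2 using fun i => mem_model.1 (hv i)
    obtain ⟨a', ha', rfl⟩ := mem_model.1 ha
    obtain rfl : (fun i => val S D (w i)) = v := funext hw2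
    have hc := h.coll_mem n φ w hw1 a' ha'
    refine ⟨_, mem_model.2 ⟨_, hc, rfl⟩, fun x hx => ?_⟩
    obtain ⟨y, hy, hφ⟩ := hex x hx
    obtain ⟨i, hi, _, rfl⟩ := mem_val.1 hx
    obtain ⟨τ, hτ, rfl⟩ := mem_model.1 hy
    have hv' := cons_mem hi hw1
    rw [← val_cons, ← val_cons, h.truth φ _ (cons_mem hτ hv')] at hφ
    obtain ⟨q, hq, h1⟩ := hφ
    obtain ⟨p, hp, h2 | ⟨h2, h3⟩⟩ := h.wit _ φ _ hv'
    · obtain ⟨r, _, hr1, hr2⟩ := h.dir p hp q hq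
      exact absurd (h1.mono hr2) (h2 τ (h.hs τ hτ) r hr1)
    · refine ⟨_, h.val_mem_orb
        (ρ := fun x : a'.ι × P => MP_2948f4_lc.wit G φ (Fin.cons (a'.A x.1) w) x.2)
        (k := (i, p)) h2 hc, ?_⟩
      rw [← val_cons, ← val_cons, h.truth φ _ (cons_mem h2 hv')]
      exact ⟨p, hp, h3⟩
  dc a ha R hR hne hent := by
    obtain ⟨X, hX, rfl⟩ := mem_model.1 ha
    obtain ⟨R', hR', rfl⟩ := mem_model.1 hR
    obtain ⟨p, hp, h1 | ⟨σ, hσ, h1, h2⟩ | ⟨y, hy, h1⟩⟩ := h.dc X hX R' hR'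
    · exfalso
      apply hne
      rw [ZFSet.eq_empty]
      intro z hz
      obtain ⟨i, hi, hi2, rfl⟩ := mem_val.1 hz
      obtain ⟨r, _, hr1, hr2⟩ := h.dir p hp _ hi2
      exact h1 _ (h.hs _ hi) r hr1 (FMem.self i hr2)
    · exfalso
      obtain ⟨z, hz, hzR⟩ := hent _ ((h.val_mem_iff hσ hX).2 ⟨p, hp, h1⟩)
      obtain ⟨τ, hτ, rfl⟩ := mem_model.1 (model_trans _ ha hz)
      rw [← h.val_op hσ hτ] at hzR
      obtain ⟨q, hq, h3⟩ := (h.val_mem_iff hτ hX).1 hz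
      obtain ⟨q', hq', h4⟩ := (h.val_mem_iff (h.op_mem hσ hτ) hR').1 hzR
      obtain ⟨r, hr, hr1, hr2⟩ := h.dir p hp q hq
      obtain ⟨s, _, hs1, hs2⟩ := h.dir r hr q' hq'
      exact h2 τ (h.hs τ hτ) s (hs1.trans hr1) ⟨h3.mono (hs1.trans hr2), h4.mono hs2⟩
    · have hop : ∀ n, op (natN P n) (y n) ∈ S :=
        fun n => h.sub _ hy (inferInstanceAs (Countable ℕ)) n
      have hyS : ∀ n, y n ∈ S := fun n => (h.of_op_mem (hop n)).2
      have hg : ∀ z, z ∈ val S D (fam (fun n => op (natN P n) (y n))) ↔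
          ∃ n, ZFSet.pair (natZ n) (val S D (y n)) = z := by
        intro z
        rw [h.mem_val_fam hop]
        simp only [fun n => h.val_op (h.natN_mem n) (hyS n), h.val_natN]
      refine ⟨_, mem_model.2 ⟨_, hy, rfl⟩, ⟨fun z hz => ?_, fun z hz => ?_⟩, ?_⟩
      · obtain ⟨n, rfl⟩ := (hg z).1 hz
        exact ZFSet.pair_mem_prod.2 ⟨mem_omega.2 ⟨n, rfl⟩,
          (h.val_mem_iff (hyS n) hX).2 ⟨p, hp, (h1 n).1⟩⟩
      · obtain ⟨n, rfl⟩ := mem_omega.1 hz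
        refine ⟨val S D (y n), (hg _).2 ⟨n, rfl⟩, fun w hw => ?_⟩
        obtain ⟨m, hm⟩ := (hg _).1 hw
        obtain ⟨h2, h3⟩ := ZFSet.pair_inj.1 hm
        rw [← h3, natZ_inj h2]
      · intro z hz x x' hx hx'
        obtain ⟨n, rfl⟩ := mem_omega.1 hz
        rw [← natZ_succ] at hx'
        obtain ⟨m, hm⟩ := (hg _).1 hx
        obtain ⟨m', hm'⟩ := (hg _).1 hx'
        obtain ⟨h2, rfl⟩ := ZFSet.pair_inj.1 hm
        obtain ⟨h3, rfl⟩ := ZFSet.pair_inj.1 hm'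
        rw [natZ_inj h2, natZ_inj h3, ← h.val_op (hyS _) (hyS _)]
        exact (h.val_mem_iff (h.op_mem (hyS _) (hyS _)) hR').2 ⟨p, hp, (h1 n).2⟩

end Gen

end Pool.Agent.Lib.MP_2948f4_lc
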