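import Mathlib
import Pool.Agent.Lib.MP_2948f4_lc.Sys

set_option autoImplicit false

namespace Pool.Agent.Lib.MP_2948f4_lc

open Set Filter Topology

/-- A continuous involution as a symmetry. -/
def invol (f : Om → Om) (hf : Continuous f) (hi : Function.Involutive f) : Gr :=
  ⟨⟨f, f, hi, hi⟩, hf, hf⟩

open Classical in
/-- Exchange of the coordinates in `B` with fresh copies. -/
noncomputable def rho (c : Set ℕ) (B : Set J) (j : J) : J :=
  if j ∈ B then c :: j else if ∃ j' ∈ B, j = c :: j' then j.tail else j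

theorem rho_in {c : Set ℕ} {B : Set J} {j : J} (h : j ∈ B) : rho c B j = c :: j := by
  simp [rho, h]

theorem rho_out {c : Set ℕ} {B : Set J} {j : J} (h : j ∉ B) (h' : ∀ j' ∈ B, j ≠ c :: j') :
    rho c B j = j := by
  rw [rho, if_neg h, if_neg]
  rintro ⟨j', h1, h2⟩
  exact h' j' h1 h2

theorem rho_invol {c : Set ℕ} {B : Set J} (hc : ∀ j, c :: j ∉ B) :
    Function.Involutive (rho c B) := by
  intro j
  by_cases h : j ∈ B
  · rw [rho_in h, rho, if_neg (hc j), if_pos ⟨j, h, rfl⟩]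
    rfl
  · by_cases h' : ∃ j' ∈ B, j = c :: j'
    · obtain ⟨j', h1, rfl⟩ := h'
      have : rho c B (c :: j') = j' := by
        rw [rho, if_neg h, if_pos ⟨j', h1, rfl⟩]
        rfl
      rw [this, rho_in h1]
    · have : rho c B j = j := rho_out h fun j' h1 h2 => h' ⟨j', h1, h2⟩
      rw [this, this]

noncomputable def swapG (c : Set ℕ) (B : Set J) (hc : ∀ j, c :: j ∉ B) : Gr :=
  invol (fun ω j => ω (rho c B j)) (continuous_om fun _ => continuous_coord _)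
    (fun ω => funext fun j => congrArg ω (rho_invol hc j))

theorem swapG_apply (c : Set ℕ) (B : Set J) (hc : ∀ j, c :: j ∉ B) (ω : Om) (j : J) :
    swapG c B hc ω j = ω (rho c B j) := rfl

theorem swapG_symm (c : Set ℕ) (B : Set J) (hc : ∀ j, c :: j ∉ B) :
    (swapG c B hc).symm = swapG c B hc := rfl

open Classical in
noncomputable def shearF (N : Set J) (t : J → J) (δ : Bool) (ω : Om) : Om :=
  fun j => if j ∈ N then xor (xor (ω j) (ω (t j))) δ else ω j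

theorem shearF_in {N : Set J} {t : J → J} {δ : Bool} {ω : Om} {j : J} (h : j ∈ N) :
    shearF N t δ ω j = xor (xor (ω j) (ω (t j))) δ := by simp only [shearF, h, if_true]

theorem shearF_out {N : Set J} {t : J → J} {δ : Bool} {ω : Om} {j : J} (h : j ∉ N) :
    shearF N t δ ω j = ω j := by simp only [shearF, h, if_false]

noncomputable def shearG (N : Set J) (t : J → J) (δ : Bool) (ht : ∀ j ∈ N, t j ∉ N) : Gr :=
  invol (shearF N t δ) (by
    refine continuous_om fun j => ?_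
    by_cases h : j ∈ N
    · simp only [shearF_in h]
      exact (continuous_of_discreteTopology
        (f := fun x : Bool × Bool => xor (xor x.1 x.2) δ)).comp
        ((continuous_coord j).prodMk (continuous_coord (t j)))
    · simpa only [shearF_out h] using continuous_coord j) (by
    intro ω
    funext j
    by_cases h : j ∈ N
    · rw [shearF_in h, shearF_in h, shearF_out (ht j h)]
      cases ω j <;> cases ω (t j) <;> cases δ <;> rfl
    · rw [shearF_out h, shearF_out h])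

theorem shearG_apply (N : Set J) (t : J → J) (δ : Bool) (ht : ∀ j ∈ N, t j ∉ N) (ω : Om) :
    shearG N t δ ht ω = shearF N t δ ω := rfl

theorem shearG_symm (N : Set J) (t : J → J) (δ : Bool) (ht : ∀ j ∈ N, t j ∉ N) :
    (shearG N t δ ht).symm = shearG N t δ ht := rfl

theorem shearG_mul_self (N : Set J) (t : J → J) (δ : Bool) (ht : ∀ j ∈ N, t j ∉ N) :
    shearG N t δ ht * shearG N t δ ht = 1 := inv_mul_cancel (shearG N t δ ht)

theorem shearG_fix {N T : Set J} {t : J → J} {δ : Bool} {ht : ∀ j ∈ N, t j ∉ N}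
    (h : ∀ j ∈ T, j ∉ N) : shearG N t δ ht ∈ fix T := fun _ j hj => shearF_out (h j hj)

theorem fix_mul {T : Set J} {g h : Gr} (hg : g ∈ fix T) (hh : h ∈ fix T) : g * h ∈ fix T :=
  fun ω => (hg (h ω)).trans (hh ω)

variable {K : Conn}

theorem exists_lower_of_cons {κ : Type} [Countable κ] (r : κ → RC K)
    (hc : ∀ k k', Cons K (r k).c (r k').c) : ∃ r' : RC K, ∀ k, r' ≤ r k := by
  choose T hT1 hT2 using fun k => (r k).supp
  obtain ⟨r', _, h2⟩ := exists_total r hc (countable_iUnion hT1)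
    (fun n => (hT2 n).mono (subset_iUnion T n))
  exact ⟨r', h2⟩

theorem triple {rA r₀ : RC K} {TA T₀ N : Set J} {A : Finset J} (ω₁ : Om) (δ : Bool)
    (hT₀ : T₀.Countable) (hA : Total rA.c TA) (hs : Supp r₀.c T₀) (hr : r₀ ≤ rA)
    (hTA : TA ⊆ T₀) (hAT : (A : Set J) ⊆ T₀) (hN : N ⊆ T₀) (hNA : ∀ j ∈ N, j ∉ TA)
    (hNA' : ∀ j ∈ N, j ∉ A) :
    ∃ (g₁ g₂ : Gr) (p' : PP K), g₁ ∈ fix TA ∧ g₂ ∈ fix TA ∧ p' ≤ (r₀, cylC A ω₁) ∧
      p' ≤ g₁ • (r₀, cylC A ω₁) ∧ p' ≤ g₂ • (r₀, cylC A ω₁) ∧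
      ∀ ω : Om, ∀ j ∈ N, g₂.symm ω j = xor (xor (ω j) (g₁.symm ω j)) δ := by
  classical
  obtain ⟨a, ha⟩ := exists_fresh hT₀
  obtain ⟨b, hb'⟩ := exists_fresh (hT₀.union (countable_singleton [a]))
  have hb : ∀ j, b :: j ∉ T₀ := fun j h => hb' j (Or.inl h)
  have hab : b ≠ a := fun h => hb' [] (Or.inr (by rw [h]; rfl))
  let σ₁ := swapG a (T₀ \ TA) fun j h => ha j h.1
  let σ₂ := swapG b ((T₀ \ TA) \ N) fun j h => hb j h.1.1
  let θ' := shearG N (fun j => a :: j) δ fun j _ h => ha j (hN h)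
  let aN : Set J := (fun j => a :: j) '' N
  have haN : ∀ j ∈ T₀, j ∉ aN := by
    rintro j hj ⟨j', _, rfl⟩
    exact ha _ hj
  have hbN : ∀ j, b :: j ∉ aN := by
    rintro j ⟨j', _, h⟩
    exact hab (List.cons.inj h).1.symm
  let θ := shearG aN List.tail δ (by
    rintro j ⟨j', h, rfl⟩
    exact haN _ (hN h))
  have r1 : ∀ j ∈ TA, rho a (T₀ \ TA) j = j := fun j hj =>
    rho_out (fun h => h.2 hj) fun j' _ h => ha j' (h ▸ hTA hj)
  have r2 : ∀ j ∈ T₀, j ∉ (T₀ \ TA) \ N → rho b ((T₀ \ TA) \ N) j = j := fun j hj h =>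
    rho_out h fun j' _ h => hb j' (h ▸ hj)
  have f1 : σ₁ ∈ fix TA := fun ω j hj => by rw [swapG_apply, r1 j hj]
  have f2 : σ₂ ∈ fix TA := fun ω j hj => by
    rw [swapG_apply, r2 j (hTA hj) fun h => h.1.2 hj]
  have f3 : θ' ∈ fix TA := shearG_fix fun j hj h => hNA j h hj
  have f4 : θ ∈ fix T₀ := shearG_fix haN
  let T₁ : Set J := TA ∪ (fun j => a :: j) '' T₀
  let T₂ : Set J := TA ∪ N ∪ (fun j => b :: j) '' T₀
  let T₃ : Set J := TA ∪ aN ∪ (fun j => b :: j) '' T₀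
  have f5 : θ' ∈ fix T₁ := by
    refine shearG_fix ?_
    rintro j (hj | ⟨j', _, rfl⟩) h
    · exact hNA j h hj
    · exact ha _ (hN h)
  have s1 : Supp (σ₁ • r₀).c T₁ := by
    refine hs.act σ₁ fun ω η h j hj => ?_
    rw [swapG_symm, swapG_apply, swapG_apply]
    by_cases h1 : j ∈ TA
    · rw [r1 j h1]; exact h j (Or.inl h1)
    · rw [rho_in (show j ∈ T₀ \ TA from ⟨hj, h1⟩)]; exact h _ (Or.inr ⟨j, hj, rfl⟩)
  have s2 : Supp (σ₂ • r₀).c T₂ := by
    refine hs.act σ₂ fun ω η h j hj => ?_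
    rw [swapG_symm, swapG_apply, swapG_apply]
    by_cases h1 : j ∈ (T₀ \ TA) \ N
    · rw [rho_in h1]; exact h _ (Or.inr ⟨j, hj, rfl⟩)
    · rw [r2 j hj h1]
      refine h j (Or.inl ?_)
      by_contra h2
      exact h1 ⟨⟨hj, fun h3 => h2 (Or.inl h3)⟩, fun h3 => h2 (Or.inr h3)⟩
  have s3 : Supp ((θ * θ') • σ₂ • r₀).c T₃ := by
    refine s2.act (θ * θ') fun ω η h j hj => ?_
    change shearF N (fun j => a :: j) δ (shearF aN List.tail δ ω) j =
      shearF N (fun j => a :: j) δ (shearF aN List.tail δ η) j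
    rcases hj with (hj | hj) | ⟨j', hj', rfl⟩
    · rw [shearF_out fun h => hNA j h hj, shearF_out fun h => hNA j h hj,
        shearF_out (haN j (hTA hj)), shearF_out (haN j (hTA hj))]
      exact h j (Or.inl (Or.inl hj))
    · have h1 : a :: j ∈ aN := ⟨j, hj, rfl⟩
      rw [shearF_in hj, shearF_in hj, shearF_out (haN j (hN hj)), shearF_out (haN j (hN hj)),
        shearF_in h1, shearF_in h1, h _ (Or.inl (Or.inr h1))]
      simp only [List.tail_cons]
      cases ω j <;> cases η j <;> cases η (a :: j) <;> cases δ <;> rfl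
    · rw [shearF_out fun h => hb j' (hN h), shearF_out fun h => hb j' (hN h),
        shearF_out (hbN j'), shearF_out (hbN j')]
      exact h _ (Or.inr ⟨j', hj', rfl⟩)
  have le_fix : ∀ g ∈ fix TA, ∀ r : RC K, r ≤ rA → g • r ≤ rA := by
    intro g hg r h
    have := RC.smul_le g h
    rwa [smul_eq_of_fix hg hA.1] at this
  have hT₁ : T₁.Countable := (hT₀.mono hTA).union (hT₀.image _)
  have c01 : Cons K r₀.c (σ₁ • r₀).c := by
    refine amalg hT₀ hs s1 hA ?_ hr (le_fix _ f1 _ hr)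
    rintro j ⟨h1, h2 | ⟨j', _, rfl⟩⟩
    · exact h2
    · exact absurd h1 (ha _)
  have c12 : Cons K (σ₁ • r₀).c ((θ' * σ₂) • r₀).c := by
    have h1 : Cons K (σ₁ • r₀).c (σ₂ • r₀).c := by
      refine amalg hT₁ s1 s2 hA ?_ (le_fix _ f1 _ hr) (le_fix _ f2 _ hr)
      rintro j ⟨h1 | ⟨j', _, rfl⟩, h2⟩
      · exact h1
      · rcases h2 with (h2 | h2) | ⟨j'', _, h2⟩
        · exact h2
        · exact absurd (hN h2) (ha _)
        · exact absurd (List.cons.inj h2).1 hab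
    have h2 : Cons K (θ' • σ₁ • r₀).c (θ' • σ₂ • r₀).c := h1.act θ'
    rwa [smul_eq_of_fix f5 s1, ← mul_smul] at h2
  have c02 : Cons K r₀.c ((θ' * σ₂) • r₀).c := by
    have h1 : Cons K r₀.c ((θ * θ') • σ₂ • r₀).c := by
      refine amalg hT₀ hs s3 hA ?_ hr
        (le_fix _ (fix_mul (fix_mono hTA f4) f3) _ (le_fix _ f2 _ hr))
      rintro j ⟨h1, (h2 | h2) | ⟨j', _, rfl⟩⟩
      · exact h2
      · exact absurd h2 (haN j h1)
      · exact absurd h1 (hb _)
    have h2 : Cons K (θ • r₀).c (θ • (θ * θ') • σ₂ • r₀).c := h1.act θ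
    rwa [smul_eq_of_fix f4 hs, ← mul_smul θ, ← mul_assoc, shearG_mul_self, one_mul,
      ← mul_smul] at h2
  obtain ⟨r', hr'⟩ := exists_lower_of_cons ![r₀, σ₁ • r₀, (θ' * σ₂) • r₀] (by
    intro k k'
    fin_cases k <;> fin_cases k'
    · exact r₀.cons
    · exact c01
    · exact c02
    · exact c01.symm
    · exact (σ₁ • r₀).cons
    · exact c12
    · exact c02.symm
    · exact c12.symm
    · exact ((θ' * σ₂) • r₀).cons)
  let z : Om := fun j => if j ∈ T₀ then ω₁ j else ω₁ j.tail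
  have hz1 : ∀ j ∈ T₀, z j = ω₁ j := fun j hj => if_pos hj
  have hz2 : ∀ c j, c :: j ∉ T₀ → z (c :: j) = ω₁ j := fun c j hj => if_neg hj
  have m0 : z ∈ (cylC A ω₁).1 := fun j hj => hz1 j (hAT hj)
  have m1 : z ∈ (σ₁ • cylC A ω₁).1 := by
    intro j hj
    rw [swapG_symm, swapG_apply]
    by_cases h1 : j ∈ TA
    · rw [r1 j h1]; exact hz1 j (hAT hj)
    · rw [rho_in (show j ∈ T₀ \ TA from ⟨hAT hj, h1⟩)]; exact hz2 _ _ (ha j)
  have m2 : z ∈ ((θ' * σ₂) • cylC A ω₁).1 := by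
    intro j hj
    change shearF N (fun j => a :: j) δ z (rho b ((T₀ \ TA) \ N) j) = _
    by_cases h1 : j ∈ (T₀ \ TA) \ N
    · rw [rho_in h1, shearF_out fun h => hb j (hN h)]; exact hz2 _ _ (hb j)
    · rw [r2 j (hAT hj) h1, shearF_out fun h => hNA' j h hj]; exact hz1 j (hAT hj)
  refine ⟨σ₁, θ' * σ₂, (r', ⟨(cylC A ω₁).1 ∩ ((σ₁ • cylC A ω₁).1 ∩ ((θ' * σ₂) • cylC A ω₁).1),
    (cylC A ω₁).2.1.inter ((σ₁ • cylC A ω₁).2.1.inter ((θ' * σ₂) • cylC A ω₁).2.1),
    z, m0, m1, m2⟩), f1, fix_mul f3 f2, ⟨hr' 0, inter_subset_left⟩,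
    ⟨hr' 1, inter_subset_right.trans inter_subset_left⟩,
    ⟨hr' 2, inter_subset_right.trans inter_subset_right⟩, fun ω j hj => ?_⟩
  change shearF N (fun j => a :: j) δ ω (rho b ((T₀ \ TA) \ N) j) =
    xor (xor (ω j) (ω (rho a (T₀ \ TA) j))) δ
  rw [r2 j (hN hj) fun h => h.2 hj, shearF_in hj,
    rho_in (show j ∈ T₀ \ TA from ⟨hN hj, hNA j hj⟩)]

theorem exists_inv_pull {F : Fn} {T : Set J} (hT : T.Countable) (hF : Inv T F.1) (g : Gr) :
    ∃ T' : Set J, T'.Countable ∧ Inv T' (F.pull g).1 := by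
  obtain ⟨T', h1, h2⟩ := exists_dep g.continuous hT
  exact ⟨T', h1, fun ω η h => hF _ _ (h2 ω η h)⟩

theorem noult_dense {U : Name (PP K)} (hU : HS Gr U) (p : PP K) :
    ∃ p', p' ≤ p ∧ ∃ F : Fin 3 → Fn, (∀ k, HS Gr (realN K (F k))) ∧
      (((∀ k, FMem (realN K (F k)) U p') ∧ ∀ ω, ((F 0).1 ω ∩ (F 1).1 ω ∩ (F 2).1 ω).Finite) ∨
      ((∀ k q, q ≤ p' → ¬ FMem (realN K (F k)) U q) ∧
        ∀ ω, (((F 0).1 ω)ᶜ ∩ ((F 1).1 ω)ᶜ ∩ ((F 2).1 ω)ᶜ).Finite)) := by
  classical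
  obtain ⟨TU, hTU, hfix⟩ := hU.symm_mem
  obtain ⟨rA, TA, hTA, hUA, hA, hrA⟩ := exists_total_le p.1 hTU
  obtain ⟨a, ha⟩ := exists_fresh hTA
  let jn : ℕ → J := fun n => a :: List.replicate n a
  have hjn : Function.Injective jn := by
    intro n m h
    simpa [jn] using congrArg List.length h
  let F₀ : Fn := ⟨fun ω => {n | ω (jn n) = true}, measurable_set_iff.2 fun n =>
    measurableSet_setOfPred.1
      ((isOpen_discrete {true}).preimage (continuous_coord (jn n))).measurableSet⟩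
  have hF₀ : Inv (range jn) F₀.1 := by
    intro ω η h
    ext n
    change ω (jn n) = true ↔ η (jn n) = true
    rw [h _ (mem_range_self n)]
  obtain ⟨p₁, hp₁, hdec⟩ : ∃ p₁, p₁ ≤ (rA, p.2) ∧
      (FMem (realN K F₀) U p₁ ∨ ∀ q, q ≤ p₁ → ¬ FMem (realN K F₀) U q) := by
    by_cases h : ∃ q, q ≤ (rA, p.2) ∧ FMem (realN K F₀) U q
    · obtain ⟨q, h1, h2⟩ := h
      exact ⟨q, h1, Or.inl h2⟩
    · exact ⟨_, le_rfl, Or.inr fun q hq h' => h ⟨q, hq, h'⟩⟩
  obtain ⟨ω₁, hω₁⟩ := p₁.2.2.2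
  obtain ⟨A, hA₁⟩ := exists_Cyl p₁.2.2.1 hω₁
  obtain ⟨T', hT', hs'⟩ := p₁.1.supp
  obtain ⟨m, hm⟩ : ∃ m, ∀ n, m ≤ n → jn n ∉ A := by
    obtain ⟨m, hm⟩ := (A.finite_toSet.preimage hjn.injOn).bddAbove
    exact ⟨m + 1, fun n hn h => absurd (hm h) (by omega)⟩
  have key := fun δ => triple (rA := rA) (r₀ := p₁.1) (TA := TA)
    (T₀ := T' ∪ TA ∪ range jn ∪ A) (N := jn '' {n | m ≤ n}) (A := A) ω₁ δ
    (((hT'.union hTA).union (countable_range _)).union A.countable_toSet) hA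
    (hs'.mono fun j hj => Or.inl (Or.inl (Or.inl hj))) hp₁.1
    (fun j hj => Or.inl (Or.inl (Or.inr hj))) subset_union_right
    (by rintro j ⟨n, _, rfl⟩; exact Or.inl (Or.inr ⟨n, rfl⟩))
    (by rintro j ⟨n, _, rfl⟩; exact ha _)
    (by rintro j ⟨n, hn, rfl⟩; exact hm n hn)
  have hp₀ : (p₁.1, cylC A ω₁) ≤ p₁ := ⟨le_rfl, hA₁⟩
  have hp₀' : (p₁.1, cylC A ω₁) ≤ p := hp₀.trans (hp₁.trans ⟨hrA, le_rfl⟩)
  have hHS : ∀ g : Gr, HS Gr (realN K (F₀.pull g)) := by
    intro g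
    obtain ⟨T, h1, h2⟩ := exists_inv_pull (countable_range jn) hF₀ g
    exact HS_realN h1 h2
  have hHS3 : ∀ g₁ g₂ : Gr, ∀ k, HS Gr (realN K (![F₀, F₀.pull g₁, F₀.pull g₂] k)) := by
    intro g₁ g₂ k
    fin_cases k
    · exact HS_realN (countable_range jn) hF₀
    · exact hHS _
    · exact hHS _
  rcases hdec with hdec | hdec
  · obtain ⟨g₁, g₂, p', h1, h2, h3, h4, h5, h6⟩ := key false
    have tr : ∀ g ∈ fix TA, FMem (realN K (F₀.pull g.symm)) U (g • (p₁.1, cylC A ω₁)) :=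
      fun g hg => (((hdec.mono hp₀).act g).congr_left (act_realN g F₀ _)).congr_right
        (hfix (fix_mono hUA hg) _)
    refine ⟨p', h3.trans hp₀', ![F₀, F₀.pull g₁.symm, F₀.pull g₂.symm], hHS3 _ _,
      Or.inl ⟨fun k => ?_, fun ω => (finite_lt_nat m).subset ?_⟩⟩
    · fin_cases k
      · exact hdec.mono (h3.trans hp₀)
      · exact (tr g₁ h1).mono h4
      · exact (tr g₂ h2).mono h5
    · rintro n ⟨⟨e0, e1⟩, e2⟩
      by_contra hn
      have := h6 ω (jn n) ⟨n, (show m ≤ n from not_lt.1 hn), rfl⟩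
      change ω (jn n) = true at e0
      change g₁.symm ω (jn n) = true at e1
      change g₂.symm ω (jn n) = true at e2
      rw [e0, e1, e2] at this
      exact absurd this (by decide)
  · obtain ⟨g₁, g₂, p', h1, h2, h3, h4, h5, h6⟩ := key true
    have tr : ∀ g ∈ fix TA, ∀ q, q ≤ g • (p₁.1, cylC A ω₁) →
        ¬ FMem (realN K (F₀.pull g.symm)) U q := by
      intro g hg q hq h
      have h7 := ((h.congr_left (act_realN g F₀ _).symm).congr_right
        (hfix (fix_mono hUA hg) _).symm).act g⁻¹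
      rw [act_inv_act, act_inv_act] at h7
      exact hdec _ (((le_smul_iff g _ _).1 hq).trans hp₀) h7
    refine ⟨p', h3.trans hp₀', ![F₀, F₀.pull g₁.symm, F₀.pull g₂.symm], hHS3 _ _,
      Or.inr ⟨fun k q hq => ?_, fun ω => (finite_lt_nat m).subset ?_⟩⟩
    · fin_cases k
      · exact hdec q (hq.trans (h3.trans hp₀))
      · exact tr g₁ h1 q (hq.trans h4)
      · exact tr g₂ h2 q (hq.trans h5)
    · rintro n ⟨⟨e0, e1⟩, e2⟩
      by_contra hn
      have := h6 ω (jn n) ⟨n, (show m ≤ n from not_lt.1 hn), rfl⟩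
      change ¬ ω (jn n) = true at e0
      change ¬ g₁.symm ω (jn n) = true at e1
      change ¬ g₂.symm ω (jn n) = true at e2
      rw [Bool.not_eq_true] at e0 e1 e2
      rw [e0, e1, e2] at this
      exact absurd this (by decide)

end Pool.Agent.Lib.MP_2948f4_lc
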