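import Mathlib
import Pool.Agent.Lib.MP_2948f4_lc.Fusion
import Pool.Agent.Lib.MP_2948f4_lc.NoUlt
import Pool.Agent.Lib.MP_2948f4_lc.Generic

set_option autoImplicit false

namespace Pool.Agent.Lib.MP_2948f4_lc

open Set Filter Topology

/-- A countable family of density requirements. -/
structure Req (K : Conn) where
  I : Type
  cnt : Countable I
  ar : I → Type
  fin : ∀ i, Finite (ar i)
  br : I → Type
  fin' : ∀ i, Finite (br i)
  Ψ : ∀ i, (ar i → Name (PP K)) → (br i → Fn) → PP K → Set (Name (PP K)) → Set Fn → Prop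
  dense : ∀ i a b p, (∀ k, HS Gr (a k)) → ∃ q, q ≤ p ∧ ∃ W Φ, W.Countable ∧
    (∀ τ ∈ W, HS Gr τ) ∧ Φ.Countable ∧ Ψ i a b q W Φ

variable {K : Conn}

theorem isClosed_Cyl (A : Finset J) (ω₀ : Om) : IsClosed (Cyl A ω₀) := by
  have : Cyl A ω₀ = ⋂ j ∈ A, {ω : Om | ω j = ω₀ j} := by
    ext ω; simp [Cyl, Agree]
  rw [this]
  exact isClosed_biInter fun j _ => (isClosed_discrete {ω₀ j}).preimage (continuous_coord j)

def constFn (c : Set ℕ) : Fn := ⟨fun _ => c, measurable_const⟩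

theorem henkin3 (L : List (Req K)) :
    ∃ (S : Set (Name (PP K))) (Φ : Set Fn) (D : Set (PP K)) (z : Om), S.Countable ∧
      (∀ τ ∈ S, HS Gr τ) ∧ (∀ p ∈ D, ∀ q, p ≤ q → q ∈ D) ∧
      (∀ p ∈ D, ∀ q ∈ D, ∃ r ∈ D, r ≤ p ∧ r ≤ q) ∧ ⊤ ∈ D ∧ (∀ p ∈ D, z ∈ p.2.1) ∧
      ∀ R ∈ L, ∀ i a b, (∀ k, a k ∈ S) → (∀ k, b k ∈ Φ) →
        ∃ p ∈ D, ∃ W, W ⊆ S ∧ ∃ Φ', Φ' ⊆ Φ ∧ R.Ψ i a b p W Φ' := by
  classical
  let X := {τ : Name (PP K) // HS Gr τ} ⊕ Fn
  let nm : X → Name (PP K) := Sum.elim (fun τ => τ.1) (fun _ => natN (PP K) 0)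
  let fn : X → Fn := Sum.elim (fun _ => constFn ∅) id
  have hnm : ∀ x, HS Gr (nm x) := by
    rintro (x | x)
    · exact x.2
    · exact HS_natN 0
  have : Nonempty X := ⟨Sum.inr (constFn ∅)⟩
  have : ∀ k : Fin L.length, Countable (L.get k).I := fun k => (L.get k).cnt
  have : ∀ i : Σ k : Fin L.length, (L.get k).I, Finite ((L.get i.1).ar i.2) :=
    fun i => (L.get i.1).fin i.2
  have : ∀ i : Σ k : Fin L.length, (L.get k).I, Finite ((L.get i.1).br i.2) :=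
    fun i => (L.get i.1).fin' i.2
  obtain ⟨S, c, hS, hc, -, hreq⟩ := henkin (P := {p : PP K // IsClosed p.2.1}) (X := X)
    (I := Σ k : Fin L.length, (L.get k).I) (fun i => (L.get i.1).ar i.2 ⊕ (L.get i.1).br i.2)
    (fun i x p w => ∃ q, p.1 ≤ q ∧ ∃ W, W ⊆ nm '' range w ∧ ∃ Φ, Φ ⊆ fn '' range w ∧
      (L.get i.1).Ψ i.2 (fun k => nm (x (Sum.inl k))) (fun k => fn (x (Sum.inr k))) q W Φ) (by
      intro i x p
      obtain ⟨q, hq, W, Φ, h1, h2, h3, h4⟩ := (L.get i.1).dense i.2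
        (fun k => nm (x (Sum.inl k))) (fun k => fn (x (Sum.inr k))) p.1 (fun k => hnm _)
      obtain ⟨ω, hω⟩ := q.2.2.2
      obtain ⟨A, hA⟩ := exists_Cyl q.2.2.1 hω
      have h5 : (Sum.inl '' (Subtype.val ⁻¹' W) ∪ Sum.inr '' Φ : Set X).Countable :=
        ((h1.preimage Subtype.val_injective).image _).union (h3.image _)
      obtain ⟨w, hw⟩ := countable_iff_exists_subset_range.1 h5
      have hle : (q.1, cylC A ω) ≤ q := ⟨le_rfl, hA⟩
      refine ⟨⟨(q.1, cylC A ω), isClosed_Cyl A ω⟩, hle.trans hq, w, q, hle, W, ?_, Φ, ?_, h4⟩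
      · exact fun τ hτ => ⟨Sum.inl ⟨τ, h2 τ hτ⟩, hw (Or.inl ⟨⟨τ, h2 τ hτ⟩, hτ, rfl⟩), rfl⟩
      · exact fun F hF => ⟨Sum.inr F, hw (Or.inr ⟨F, hF, rfl⟩), rfl⟩) ⟨⊤, isClosed_univ⟩
  obtain ⟨z, hz⟩ := IsCompact.nonempty_iInter_of_sequence_nonempty_isCompact_isClosed
    (fun n => (c n).1.2.1) (fun n => (hc (Nat.le_succ n)).2) (fun n => (c n).1.2.2.2)
    (c 0).2.isCompact (fun n => (c n).2)
  refine ⟨nm '' S, fn '' S, {p | ∃ n, (c n).1 ≤ p}, z, hS.image _, ?_, ?_, ?_, ⟨0, le_top⟩,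
    ?_, ?_⟩
  · rintro _ ⟨x, _, rfl⟩
    exact hnm x
  · rintro p ⟨n, hn⟩ q hq
    exact ⟨n, hn.trans hq⟩
  · rintro p ⟨n, hn⟩ q ⟨m, hm⟩
    exact ⟨(c (max n m)).1, ⟨_, le_rfl⟩, le_trans (hc (le_max_left n m)) hn,
      le_trans (hc (le_max_right n m)) hm⟩
  · rintro p ⟨n, hn⟩
    exact hn.2 (mem_iInter.1 hz n)
  · intro R hR i a b ha hb
    obtain ⟨k, rfl⟩ := List.get_of_mem hR
    choose a' ha1 ha2 using ha
    choose b' hb1 hb2 using hb
    obtain ⟨n, w, hw, q, hq, W, h1, Φ, h2, h3⟩ := hreq ⟨k, i⟩ (Sum.elim a' b') (by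
      rintro (j | j)
      · exact ha1 j
      · exact hb1 j)
    have h4 : range w ⊆ S := range_subset_iff.2 hw
    refine ⟨q, ⟨n, hq⟩, W, h1.trans (image_mono h4), Φ, h2.trans (image_mono h4), ?_⟩
    obtain rfl : (fun k => nm (a' k)) = a := funext ha2
    obtain rfl : (fun k => fn (b' k)) = b := funext hb2
    exact h3

def Fm.code : {n : ℕ} → Fm n → ℕ
  | _, Fm.mem i j => Nat.pair 0 (Nat.pair i j)
  | _, Fm.eq i j => Nat.pair 1 (Nat.pair i j)
  | _, Fm.neg φ => Nat.pair 2 φ.code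
  | _, Fm.and φ ψ => Nat.pair 3 (Nat.pair φ.code ψ.code)
  | _, Fm.all φ => Nat.pair 4 φ.code

theorem Fm.code_inj {n : ℕ} (φ : Fm n) : ∀ ψ : Fm n, φ.code = ψ.code → φ = ψ := by
  induction φ with
  | mem i j => intro ψ h; cases ψ <;> simp_all [Fm.code, Nat.pair_eq_pair, Fin.ext_iff]
  | eq i j => intro ψ h; cases ψ <;> simp_all [Fm.code, Nat.pair_eq_pair, Fin.ext_iff]
  | neg φ ih =>
    intro ψ h
    cases ψ <;> simp [Fm.code, Nat.pair_eq_pair] at h ⊢
    exact ih _ h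
  | and φ φ' ih ih' =>
    intro ψ h
    cases ψ <;> simp [Fm.code, Nat.pair_eq_pair] at h ⊢
    exact ⟨ih _ h.1, ih' _ h.2⟩
  | all φ ih =>
    intro ψ h
    cases ψ <;> simp [Fm.code, Nat.pair_eq_pair] at h ⊢
    exact ih _ h

instance instCountableFm (n : ℕ) : Countable (Fm n) :=
  Function.Injective.countable (f := Fm.code) fun φ ψ h => Fm.code_inj φ ψ h

/-- A requirement that only adds one name. -/
def reqClose (I : Type) [Countable I] (ar : I → Type) [∀ i, Finite (ar i)]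
    (f : ∀ i, (ar i → Name (PP K)) → Name (PP K))
    (hf : ∀ i a, (∀ k, HS Gr (a k)) → HS Gr (f i a)) : Req K where
  I := I
  cnt := inferInstance
  ar := ar
  fin := inferInstance
  br _ := Empty
  fin' := inferInstance
  Ψ i a _ _ W _ := f i a ∈ W
  dense i a _ p ha := ⟨p, le_rfl, {f i a}, ∅, countable_singleton _,
    fun _ h => h ▸ hf i a ha, countable_empty, rfl⟩

variable (K)

def reqMem : Req K where
  I := Unit
  cnt := inferInstance
  ar _ := Bool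
  fin := inferInstance
  br _ := Empty
  fin' := inferInstance
  Ψ _ a _ p W _ := (∀ q, q ≤ p → ¬ FMem (a true) (a false) q) ∨
    ∃ j, (a false).A j ∈ W ∧ p ≤ (a false).c j ∧ FEq (a true) ((a false).A j) p
  dense _ a _ p ha := by
    by_cases h : ∃ q, q ≤ p ∧ FMem (a true) (a false) q
    · obtain ⟨q, h1, h2⟩ := h
      obtain ⟨r, h3, j, h4, h5⟩ := h2 q le_rfl
      exact ⟨r, h3.trans h1, {(a false).A j}, ∅, countable_singleton _,
        fun _ h => h ▸ (ha false).sub j, countable_empty, Or.inr ⟨j, rfl, h4, h5⟩⟩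
    · exact ⟨p, le_rfl, ∅, ∅, countable_empty, fun _ h => h.elim, countable_empty,
        Or.inl fun q hq h' => h ⟨q, hq, h'⟩⟩

theorem exists_not_FMem {P : Type} [Preorder P] {σ τ : Name P} {p : P} (h : ¬ FMem σ τ p) :
    ∃ q, q ≤ p ∧ ∀ r, r ≤ q → ¬ FMem σ τ r := by
  by_contra h'
  push Not at h'
  exact h (FMem.dense h')

def reqEq : Req K where
  I := Unit
  cnt := inferInstance
  ar _ := Bool
  fin := inferInstance
  br _ := Empty
  fin' := inferInstance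
  Ψ _ a _ p W _ := FEq (a true) (a false) p ∨
    (∃ i, (a true).A i ∈ W ∧ p ≤ (a true).c i ∧
      ∀ q, q ≤ p → ¬ FMem ((a true).A i) (a false) q) ∨
    (∃ j, (a false).A j ∈ W ∧ p ≤ (a false).c j ∧
      ∀ q, q ≤ p → ¬ FMem ((a false).A j) (a true) q)
  dense _ a _ p ha := by
    by_cases h : FEq (a true) (a false) p
    · exact ⟨p, le_rfl, ∅, ∅, countable_empty, fun _ h => h.elim, countable_empty, Or.inl h⟩
    · rw [FEq_iff, not_and_or] at h
      rcases h with h | h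
      · push Not at h
        obtain ⟨i, q, h1, h2, h3⟩ := h
        obtain ⟨r, h4, h5⟩ := exists_not_FMem h3
        exact ⟨r, h4.trans h1, {(a true).A i}, ∅, countable_singleton _,
          fun _ h => h ▸ (ha true).sub i, countable_empty,
          Or.inr (Or.inl ⟨i, rfl, h4.trans h2, h5⟩)⟩
      · push Not at h
        obtain ⟨i, q, h1, h2, h3⟩ := h
        obtain ⟨r, h4, h5⟩ := exists_not_FMem h3
        exact ⟨r, h4.trans h1, {(a false).A i}, ∅, countable_singleton _,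
          fun _ h => h ▸ (ha false).sub i, countable_empty,
          Or.inr (Or.inr ⟨i, rfl, h4.trans h2, h5⟩)⟩

def reqDec : Req K where
  I := Σ n, Fm n
  cnt := inferInstance
  ar i := Fin i.1
  fin := inferInstance
  br _ := Empty
  fin' := inferInstance
  Ψ i a _ p _ _ := Forces Gr i.2 a p ∨ ∀ q, q ≤ p → ¬ Forces Gr i.2 a q
  dense i a _ p _ := by
    by_cases h : ∃ q, q ≤ p ∧ Forces Gr i.2 a q
    · obtain ⟨q, h1, h2⟩ := h
      exact ⟨q, h1, ∅, ∅, countable_empty, fun _ h => h.elim, countable_empty, Or.inl h2⟩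
    · exact ⟨p, le_rfl, ∅, ∅, countable_empty, fun _ h => h.elim, countable_empty,
        Or.inr fun q hq h' => h ⟨q, hq, h'⟩⟩

def reqWit : Req K where
  I := Σ n, Fm (n + 1)
  cnt := inferInstance
  ar i := Fin i.1
  fin := inferInstance
  br _ := Empty
  fin' := inferInstance
  Ψ i a _ p W _ := (∀ τ, HS Gr τ → ∀ q, q ≤ p → ¬ Forces Gr i.2 (Fin.cons τ a) q) ∨
    (wit Gr i.2 a p ∈ W ∧ Forces Gr i.2 (Fin.cons (wit Gr i.2 a p) a) p)
  dense i a _ p _ := by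
    by_cases h : ∃ τ, HS Gr τ ∧ ∃ q, q ≤ p ∧ Forces Gr i.2 (Fin.cons τ a) q
    · obtain ⟨τ, h0, q, h1, h2⟩ := h
      exact ⟨q, h1, {wit Gr i.2 a q}, ∅, countable_singleton _,
        fun _ h => h ▸ HS_wit Gr _ _ _, countable_empty, Or.inr ⟨rfl, forces_wit Gr h0 h2⟩⟩
    · exact ⟨p, le_rfl, ∅, ∅, countable_empty, fun _ h => h.elim, countable_empty,
        Or.inl fun τ hτ q hq h' => h ⟨τ, hτ, q, hq, h'⟩⟩

def reqSub : Req K where
  I := Unit
  cnt := inferInstance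
  ar _ := Unit
  fin := inferInstance
  br _ := Empty
  fin' := inferInstance
  Ψ _ a _ _ W _ := Countable (a ()).ι → ∀ i, (a ()).A i ∈ W
  dense _ a _ p ha := by
    by_cases h : Countable (a ()).ι
    · exact ⟨p, le_rfl, range (a ()).A, ∅, countable_range _,
        fun _ ⟨i, hi⟩ => hi ▸ (ha ()).sub i, countable_empty, fun _ i => ⟨i, rfl⟩⟩
    · exact ⟨p, le_rfl, ∅, ∅, countable_empty, fun _ h => h.elim, countable_empty,
        fun h' => absurd h' h⟩

def reqSep : Req K := reqClose (Σ n, Fm (n + 1)) (fun i => Option (Fin i.1))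
  (fun i a => sepF Gr i.2 (fun k => a (some k)) (a none))
  (fun i _ ha => HS_sep_forces i.2 (fun k => ha (some k)) (ha none))

noncomputable def reqColl : Req K := reqClose (Σ n, Fm (n + 2)) (fun i => Option (Fin i.1))
  (fun i a => collN Gr i.2 (fun k => a (some k)) (a none))
  (fun _ _ _ => HS_collN Gr _ _ _)

def reqUp : Req K := reqClose Unit (fun _ => Bool) (fun _ a => up (a true) (a false))
  (fun _ _ ha => HS_up (ha true) (ha false))

def reqUnion : Req K := reqClose Unit (fun _ => Unit) (fun _ a => unionN Gr (a ()))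
  (fun _ _ ha => HS_unionN Gr (ha ()))

def reqPow : Req K := reqClose Unit (fun _ => Unit) (fun _ a => powN Gr (a ()))
  (fun _ _ _ => HS_powN Gr _)

def reqOmega : Req K := reqClose Unit (fun _ => Empty) (fun _ _ => fam (natN (PP K)))
  (fun _ _ _ => HS_fam HS_natN (fixF_iInter fun n => (HS_natN (P := PP K) n).symm_mem))

def reqCol : Req K := reqClose Unit (fun _ => Empty) (fun _ _ => colN K) (fun _ _ _ => HS_colN)

def reqDC : Req K where
  I := Unit
  cnt := inferInstance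
  ar _ := Bool
  fin := inferInstance
  br _ := Empty
  fin' := inferInstance
  Ψ _ a _ p W _ := (∀ σ, HS Gr σ → ∀ q, q ≤ p → ¬ FMem σ (a true) q) ∨
    (∃ σ ∈ W, FMem σ (a true) p ∧
      ∀ τ, HS Gr τ → ∀ q, q ≤ p → ¬ (FMem τ (a true) q ∧ FMem (op σ τ) (a false) q)) ∨
    (∃ y : ℕ → Name (PP K), fam (fun n => op (natN (PP K) n) (y n)) ∈ W ∧
      ∀ n, FMem (y n) (a true) p ∧ FMem (op (y n) (y (n + 1))) (a false) p)
  dense _ a _ p _ := by
    obtain ⟨q, hq, h | ⟨σ, h1, h2⟩ | ⟨y, h1, h2⟩⟩ := dc_dense (a true) (a false) p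
    · exact ⟨q, hq, ∅, ∅, countable_empty, fun _ h => h.elim, countable_empty, Or.inl h⟩
    · exact ⟨q, hq, {σ}, ∅, countable_singleton _, fun _ h => h ▸ h1, countable_empty,
        Or.inr (Or.inl ⟨σ, rfl, h2⟩)⟩
    · exact ⟨q, hq, {_}, ∅, countable_singleton _, fun _ h => h ▸ h1, countable_empty,
        Or.inr (Or.inr ⟨y, rfl, h2⟩)⟩

def reqConst (c : Set ℕ) : Req K where
  I := Unit
  cnt := inferInstance
  ar _ := Empty
  fin := inferInstance
  br _ := Empty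
  fin' := inferInstance
  Ψ _ _ _ _ W Φ := realN K (constFn c) ∈ W ∧ constFn c ∈ Φ
  dense _ _ _ p _ := ⟨p, le_rfl, {_}, {_}, countable_singleton _,
    fun _ h => h ▸ HS_realN (T := ∅) countable_empty (fun _ _ _ => rfl), countable_singleton _,
    rfl, rfl⟩

def reqTot : Req K where
  I := Unit
  cnt := inferInstance
  ar _ := Unit
  fin := inferInstance
  br _ := Empty
  fin' := inferInstance
  Ψ _ a _ p W Φ := ∃ F ∈ Φ, realN K F ∈ W ∧ (∃ i, p.2.1 ⊆ p.1.c F i) ∧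
    ∀ n q, q ≤ p → (FMem (natN (PP K) n) (a ()) q ↔ FMem (natN (PP K) n) (realN K F) q)
  dense _ a _ p _ := by
    obtain ⟨r, F, T, h1, h2, h3, h4⟩ := exists_realN (a ()) p.1 p.2
    obtain ⟨r', T', _, h5, h6, h7⟩ := exists_total_le r h2
    obtain ⟨z, hz1, hz2⟩ := (h6.2 F (h3.mono h5)).inter_open_nonempty _ p.2.2.1 p.2.2.2
    obtain ⟨k, hk⟩ : ∃ k, z ∈ r'.c F k := by
      rcases hz2 with h | h
      · exact ⟨_, h⟩
      · exact ⟨_, h⟩
    refine ⟨(r', ⟨p.2.1 ∩ r'.c F k, p.2.2.1.inter (r'.op _ _), z, hz1, hk⟩),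
      ⟨h7.trans h1, inter_subset_left⟩, {realN K F}, {F}, countable_singleton _,
      fun _ h => h ▸ HS_realN h2 h3, countable_singleton _, F, rfl, rfl,
      ⟨k, inter_subset_right⟩, fun n q hq => h4 n q (hq.trans ⟨h7, inter_subset_left⟩)⟩

def reqUlt : Req K where
  I := Unit
  cnt := inferInstance
  ar _ := Unit
  fin := inferInstance
  br _ := Empty
  fin' := inferInstance
  Ψ _ a _ p W Φ := ∃ F : Fin 3 → Fn, (∀ k, F k ∈ Φ ∧ realN K (F k) ∈ W) ∧
    (((∀ k, FMem (realN K (F k)) (a ()) p) ∧ ∀ ω, ((F 0).1 ω ∩ (F 1).1 ω ∩ (F 2).1 ω).Finite) ∨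
      ((∀ k q, q ≤ p → ¬ FMem (realN K (F k)) (a ()) q) ∧
        ∀ ω, (((F 0).1 ω)ᶜ ∩ ((F 1).1 ω)ᶜ ∩ ((F 2).1 ω)ᶜ).Finite))
  dense _ a _ p ha := by
    obtain ⟨q, hq, F, h1, h2⟩ := noult_dense (ha ()) p
    exact ⟨q, hq, range (fun k => realN K (F k)), range F, countable_range _,
      fun _ ⟨k, hk⟩ => hk ▸ h1 k, countable_range _, F, fun k => ⟨⟨k, rfl⟩, ⟨k, rfl⟩⟩, h2⟩

theorem exists_denseSeq {B : Set Om} (hB : MeasurableSet B) :
    ∃ D : ℕ → Set Om, (∀ k, IsOpen (D k) ∧ Dense (D k)) ∧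
      ∀ z, (∀ k, z ∈ D k) → ∀ V, IsOpen V → z ∈ V →
        (Ae V (· ∈ B) → z ∈ B) ∧ (Ae V (· ∉ B) → z ∉ B) := by
  have key : ∀ {B : Set Om}, MeasurableSet B → ∀ᶠ z in residual Om,
      ∀ V, IsOpen V → z ∈ V → Ae V (· ∉ B) → z ∉ B := by
    intro B hB
    obtain ⟨O, hO, hBO⟩ := hB.residualEq_isOpen
    refine Filter.Eventually.mono hBO fun z h1 V hV hz h2 h3 => ?_
    obtain ⟨ω, h4, h5, h6⟩ := exists_mem_of_residual (hV.inter hO)
      ⟨z, hz, (show z ∈ B ↔ z ∈ O from iff_of_eq h1).1 h3⟩ (Filter.Eventually.and hBO h2)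
    exact h6 h4.1 ((show ω ∈ B ↔ ω ∈ O from iff_of_eq h5).2 h4.2)
  obtain ⟨S, h1, h2, h3, h4⟩ := mem_residual_iff.1 ((key hB).and (key hB.compl))
  obtain ⟨D, hD⟩ := (h3.insert univ).exists_eq_range (insert_nonempty _ _)
  refine ⟨D, fun k => ?_, fun z hz V hV hzV => ?_⟩
  · have : D k ∈ insert univ S := hD ▸ mem_range_self k
    rcases this with h | h
    · rw [h]; exact ⟨isOpen_univ, dense_univ⟩
    · exact ⟨h1 _ h, h2 _ h⟩
  · have : z ∈ ⋂₀ S := by
      intro t ht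
      have : t ∈ range D := hD ▸ mem_insert_of_mem _ ht
      obtain ⟨k, rfl⟩ := this
      exact hz k
    obtain ⟨h5, h6⟩ := h4 this
    refine ⟨fun h => ?_, h5 V hV hzV⟩
    exact not_not.1 (h6 V hV hzV (Filter.Eventually.mono h fun ω h7 h8 h9 => h9 (h7 h8)))

/-- Requirements that make the generic point decide Borel sets correctly. -/
def reqBorel (I : Type) [Countable I] (br : Type) [Finite br] (B : I → (br → Fn) → Set Om)
    (hB : ∀ i b, MeasurableSet (B i b)) : Req K where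
  I := I × ℕ
  cnt := inferInstance
  ar _ := Empty
  fin := inferInstance
  br _ := br
  fin' := inferInstance
  Ψ i _ b p _ _ := (Ae p.2.1 (· ∈ B i.1 b) ∨ Ae p.2.1 (· ∉ B i.1 b)) ∧
    p.2.1 ⊆ (exists_denseSeq (hB i.1 b)).choose i.2
  dense i _ b p _ := by
    obtain ⟨V, h1, h2⟩ := Ae.decide (hB i.1 b) p.2
    obtain ⟨h3, h4⟩ := (exists_denseSeq (hB i.1 b)).choose_spec.1 i.2
    exact ⟨(p.1, ⟨V.1 ∩ _, V.2.1.inter h3, h4.inter_open_nonempty _ V.2.1 V.2.2⟩),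
      ⟨le_rfl, inter_subset_left.trans h1⟩, ∅, ∅, countable_empty, fun _ h => h.elim,
      countable_empty, h2.imp (fun h => h.mono inter_subset_left)
        (fun h => h.mono inter_subset_left), inter_subset_right⟩

end Pool.Agent.Lib.MP_2948f4_lc
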