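import Mathlib
import Pool.Agent.Lib.MP_2948f4_lc.Req

set_option autoImplicit false

namespace Pool.Agent.Lib.MP_2948f4_lc

open Set Filter Topology

theorem code_inter (a b : Set ℕ) : code a ∩ code b = code (a ∩ b) := by
  ext z
  rw [ZFSet.mem_inter, mem_code, mem_code, mem_code]
  constructor
  · rintro ⟨⟨n, hn, rfl⟩, ⟨m, hm, h⟩⟩
    exact ⟨n, ⟨hn, natZ_inj h ▸ hm⟩, rfl⟩
  · rintro ⟨n, ⟨h1, h2⟩, rfl⟩
    exact ⟨⟨n, h1, rfl⟩, ⟨n, h2, rfl⟩⟩

theorem code_compl (a : Set ℕ) : ZFSet.omega \ code a = code aᶜ := by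
  ext z
  rw [ZFSet.mem_sdiff, mem_omega, mem_code (x := aᶜ)]
  constructor
  · rintro ⟨⟨n, rfl⟩, h⟩
    exact ⟨n, fun hn => h (natZ_mem_code.2 hn), rfl⟩
  · rintro ⟨n, h, rfl⟩
    exact ⟨⟨n, rfl⟩, fun hn => h (natZ_mem_code.1 hn)⟩

theorem code_finite {a : Set ℕ} (h : a.Finite) : ((code a : ZFSet.{0}) : Set ZFSet.{0}).Finite :=
  (h.image natZ).subset fun _ hz => mem_code.1 hz

theorem natZ_bool (i : Bool) : natZ i.toNat ∈ ({∅, {∅}} : ZFSet.{0}) := by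
  rw [ZFSet.mem_pair]
  cases i
  · exact Or.inl rfl
  · right
    ext z
    rw [mem_natZ, ZFSet.mem_singleton]
    constructor
    · rintro ⟨i, hi, rfl⟩
      have : i = 0 := by simpa using hi
      subst this
      rfl
    · rintro rfl
      exact ⟨0, by simp, rfl⟩

theorem core (K : Conn) (Γ : Set (Set ℕ × Set ℕ)) (hΓ : MeasurableSet Γ)
    (hK : ∀ a b, (a, b) ∈ Γ → K.R true a b) (c : Set ℕ) :
    ∃ M : ZFSet.{0}, IsZFDC M ∧ code c ∈ M ∧
      (∃ f ∈ M, ZFSet.IsFunc (ZFSet.omega.powerset ∩ M) {∅, {∅}} f ∧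
        ∀ a b, (a, b) ∈ Γ → ∀ i j, ZFSet.pair (code a) i ∈ f → ZFSet.pair (code b) j ∈ f → i ≠ j) ∧
      ¬ ∃ U ∈ M, IsNonprincipalUltrafilter M U := by
  let B₁ : ℕ → (Unit → Fn) → Set Om := fun n b => {ω | n ∈ (b ()).1 ω}
  have hB₁ : ∀ n b, MeasurableSet (B₁ n b) := fun n b => (b ()).measurableSet_mem n
  let B₂ : Unit → (Bool → Fn) → Set Om := fun _ b => {ω | ((b true).1 ω, (b false).1 ω) ∈ Γ}
  have hB₂ : ∀ n b, MeasurableSet (B₂ n b) := fun _ b =>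
    hΓ.preimage ((b true).2.prodMk (b false).2)
  obtain ⟨S, Φ, D, z, hS, hHS, hup, hdir, htop, hz, hreq⟩ := henkin3
    [reqMem K, reqEq K, reqDec K, reqWit K, reqSub K, reqSep K, reqColl K, reqUp K, reqUnion K,
      reqPow K, reqOmega K, reqCol K, reqDC K, reqConst K c, reqTot K, reqUlt K,
      reqBorel K ℕ Unit B₁ hB₁, reqBorel K Unit Bool B₂ hB₂]
  have : Countable S := hS.to_subtype
  have e0 : ∀ {α : Type 1} {T : Set α} (k : Empty), (k.elim : α) ∈ T := fun k => k.elim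
  have e1 : ∀ k : Empty, (k.elim : Fn) ∈ Φ := fun k => k.elim
  have hb2 : ∀ {σ τ : Name (PP K)}, σ ∈ S → τ ∈ S → ∀ b : Bool, (cond b σ τ) ∈ S := by
    intro σ τ h1 h2 b
    cases b <;> assumption
  have hG : Gen Gr S D :=
    { hs := hHS
      upc := hup
      dir := hdir
      top := htop
      mem_dec := fun σ hσ τ hτ => by
        obtain ⟨p, hp, W, hW, _, _, h⟩ := hreq (reqMem K) (by simp) () (fun b => cond b σ τ)
          Empty.elim (hb2 hσ hτ) e1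
        exact ⟨p, hp, Or.imp id (fun ⟨j, h1, h2⟩ => ⟨j, hW h1, h2⟩) h⟩
      eq_dec := fun σ hσ τ hτ => by
        obtain ⟨p, hp, W, hW, _, _, h⟩ := hreq (reqEq K) (by simp) () (fun b => cond b σ τ)
          Empty.elim (hb2 hσ hτ) e1
        exact ⟨p, hp, Or.imp id (Or.imp (fun ⟨j, h1, h2⟩ => ⟨j, hW h1, h2⟩)
          (fun ⟨j, h1, h2⟩ => ⟨j, hW h1, h2⟩)) h⟩
      dec := fun n φ v hv => by
        obtain ⟨p, hp, W, hW, _, _, h⟩ := hreq (reqDec K) (by simp) ⟨n, φ⟩ v Empty.elim hv e1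
        exact ⟨p, hp, h⟩
      wit := fun n φ v hv => by
        obtain ⟨p, hp, W, hW, _, _, h⟩ := hreq (reqWit K) (by simp) ⟨n, φ⟩ v Empty.elim hv e1
        exact ⟨p, hp, Or.imp id (fun h => ⟨hW h.1, h.2⟩) h⟩
      sub := fun τ hτ hc i => by
        obtain ⟨p, hp, W, hW, _, _, h⟩ := hreq (reqSub K) (by simp) () (fun _ => τ) Empty.elim
          (fun _ => hτ) e1
        exact hW (h hc i)
      sep_mem := fun n φ v hv a ha => by
        obtain ⟨p, hp, W, hW, _, _, h⟩ := hreq (reqSep K) (by simp) ⟨n, φ⟩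
          (fun o => Option.elim o a v) Empty.elim (by rintro (_ | k); exacts [ha, hv k]) e1
        exact hW h
      coll_mem := fun n φ v hv a ha => by
        obtain ⟨p, hp, W, hW, _, _, h⟩ := hreq (reqColl K) (by simp) ⟨n, φ⟩
          (fun o => Option.elim o a v) Empty.elim (by rintro (_ | k); exacts [ha, hv k]) e1
        exact hW h
      up_mem := fun σ hσ τ hτ => by
        obtain ⟨p, hp, W, hW, _, _, h⟩ := hreq (reqUp K) (by simp) () (fun b => cond b σ τ)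
          Empty.elim (hb2 hσ hτ) e1
        exact hW h
      union_mem := fun τ hτ => by
        obtain ⟨p, hp, W, hW, _, _, h⟩ := hreq (reqUnion K) (by simp) () (fun _ => τ) Empty.elim
          (fun _ => hτ) e1
        exact hW h
      pow_mem := fun τ hτ => by
        obtain ⟨p, hp, W, hW, _, _, h⟩ := hreq (reqPow K) (by simp) () (fun _ => τ) Empty.elim
          (fun _ => hτ) e1
        exact hW h
      omega_mem := by
        obtain ⟨p, hp, W, hW, _, _, h⟩ := hreq (reqOmega K) (by simp) () Empty.elim Empty.elim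
          e0 e1
        exact hW h
      dc := fun σ hσ τ hτ => by
        obtain ⟨p, hp, W, hW, _, _, h⟩ := hreq (reqDC K) (by simp) () (fun b => cond b σ τ)
          Empty.elim (hb2 hσ hτ) e1
        exact ⟨p, hp, Or.imp id (Or.imp (fun ⟨j, h1, h2⟩ => ⟨j, hW h1, h2⟩)
          (fun ⟨j, h1, h2⟩ => ⟨j, hW h1, h2⟩)) h⟩ }
  have hcol : colN K ∈ S := by
    obtain ⟨p, hp, W, hW, _, _, h⟩ := hreq (reqCol K) (by simp) () Empty.elim Empty.elim e0 e1
    exact hW h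
  have hbor₁ : ∀ n, ∀ F ∈ Φ, (∀ V, IsOpen V → z ∈ V → Ae V (fun ω => n ∈ F.1 ω) → n ∈ F.1 z) ∧
      (n ∈ F.1 z → ∃ p ∈ D, Ae p.2.1 (fun ω => n ∈ F.1 ω)) := by
    intro n F hF
    have h := fun k => hreq (reqBorel K ℕ Unit B₁ hB₁) (by simp) (n, k) Empty.elim (fun _ => F)
      e0 (fun _ => hF)
    have h1 := (exists_denseSeq (hB₁ n (fun _ => F))).choose_spec.2 z (fun k => by
      obtain ⟨p, hp, _, _, _, _, h⟩ := h k
      exact h.2 (hz p hp))
    refine ⟨fun V hV hzV => (h1 V hV hzV).1, fun hn => ?_⟩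
    obtain ⟨p, hp, _, _, _, _, h2 | h2, _⟩ := h 0
    · exact ⟨p, hp, h2⟩
    · exact absurd hn ((h1 _ p.2.2.1 (hz p hp)).2 h2)
  have hbor₂ : ∀ F ∈ Φ, ∀ F' ∈ Φ, (F.1 z, F'.1 z) ∈ Γ →
      ∃ p ∈ D, Ae p.2.1 (fun ω => (F.1 ω, F'.1 ω) ∈ Γ) := by
    intro F hF F' hF' hn
    have h := fun k => hreq (reqBorel K Unit Bool B₂ hB₂) (by simp) ((), k) Empty.elim
      (fun b => cond b F F') e0 (fun b => by cases b <;> assumption)
    have h1 := (exists_denseSeq (hB₂ () (fun b => cond b F F'))).choose_spec.2 z (fun k => by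
      obtain ⟨p, hp, _, _, _, _, h⟩ := h k
      exact h.2 (hz p hp))
    obtain ⟨p, hp, _, _, _, _, h2 | h2, _⟩ := h 0
    · exact ⟨p, hp, h2⟩
    · exact absurd hn ((h1 _ p.2.2.1 (hz p hp)).2 h2)
  have hsub : ∀ F, val S D (realN K F) ⊆ ZFSet.omega := by
    intro F x hx
    obtain ⟨⟨⟨n, q⟩, h⟩, _, _, rfl⟩ := mem_val.1 hx
    exact mem_omega.2 ⟨n, (hG.val_natN n).symm⟩
  have hval : ∀ F ∈ Φ, realN K F ∈ S → val S D (realN K F) = code (F.1 z) := by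
    intro F hF hFS
    ext x
    constructor
    · intro hx
      obtain ⟨⟨⟨n, q⟩, h⟩, _, hq, rfl⟩ := mem_val.1 hx
      exact mem_code.2 ⟨n, (hbor₁ n F hF).1 _ q.2.2.1 (hz q hq) h, (hG.val_natN n).symm⟩
    · intro hx
      obtain ⟨n, hn, rfl⟩ := mem_code.1 hx
      obtain ⟨p, hp, h⟩ := (hbor₁ n F hF).2 hn
      rw [← hG.val_natN n]
      exact (hG.val_mem_iff (hG.natN_mem n) hFS).2 ⟨p, hp, FMem_realN.2 h⟩
  have hf : ∀ x, x ∈ val S D (colN K) ↔ ∃ F i p, p ∈ D ∧ p.2.1 ⊆ p.1.c F i ∧ realN K F ∈ S ∧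
      x = ZFSet.pair (val S D (realN K F)) (natZ i.toNat) := by
    intro x
    rw [mem_val]
    constructor
    · rintro ⟨⟨⟨F, i, p⟩, h⟩, h1, h2, rfl⟩
      have h3 := (hG.of_op_mem h1).1
      refine ⟨F, i, p, h2, h, h3, ?_⟩
      rw [← hG.val_natN]
      exact hG.val_op h3 (hG.natN_mem _)
    · rintro ⟨F, i, p, h1, h2, h3, rfl⟩
      refine ⟨⟨(F, i, p), h2⟩, hG.op_mem h3 (hG.natN_mem _), h1, ?_⟩
      rw [← hG.val_natN]
      exact hG.val_op h3 (hG.natN_mem _)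
  have hcons : ∀ F F' i i' ε, ∀ p ∈ D, ∀ p' ∈ D, ∀ q ∈ D, p.2.1 ⊆ p.1.c F i →
      p'.2.1 ⊆ p'.1.c F' i' → Path K ε F F' q.2.1 → xor i i' = ε := by
    intro F F' i i' ε p hp p' hp' q hq h1 h2 h3
    obtain ⟨r, hr, hr1, hr2⟩ := hdir p hp p' hp'
    obtain ⟨s, _, hs1, hs2⟩ := hdir r hr q hq
    exact s.1.cons F F' i i' ε s.2.1 s.2.2.1 s.2.2.2
      (Subset.trans (hs1.trans hr1).2 (h1.trans ((hs1.trans hr1).1 F i)))
      (Subset.trans (hs1.trans hr2).2 (h2.trans ((hs1.trans hr2).1 F' i'))) (h3.mono hs2.2)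
  have hfun : ∀ x i j, ZFSet.pair x i ∈ val S D (colN K) → ZFSet.pair x j ∈ val S D (colN K) →
      i = j := by
    intro x i j h1 h2
    obtain ⟨F, k, p, hp, h3, h4, h5⟩ := (hf _).1 h1
    obtain ⟨F', k', p', hp', h6, h7, h8⟩ := (hf _).1 h2
    obtain ⟨rfl, rfl⟩ := ZFSet.pair_inj.1 h5
    obtain ⟨h9, rfl⟩ := ZFSet.pair_inj.1 h8
    obtain ⟨q, hq, h10⟩ := (hG.val_eq_iff h4 h7).1 h9
    have := hcons F F' k k' false p hp p' hp' q hq h3 h6 (path_of_FEq h10)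
    have : k = k' := by
      revert this
      cases k <;> cases k' <;> simp
    rw [this]
  have htot : ∀ x ∈ model S D, x ⊆ ZFSet.omega → ∃ F ∈ Φ, realN K F ∈ S ∧
      val S D (realN K F) = x ∧ ∃ i, ∃ p ∈ D, p.2.1 ⊆ p.1.c F i := by
    intro x hx hxo
    obtain ⟨σ, hσ, rfl⟩ := mem_model.1 hx
    obtain ⟨p, hp, W, hW, Φ', hΦ', F, h1, h2, ⟨i, h3⟩, h4⟩ := hreq (reqTot K) (by simp) ()
      (fun _ => σ) Empty.elim (fun _ => hσ) e1
    refine ⟨F, hΦ' h1, hW h2, ?_, i, p, hp, h3⟩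
    have key : ∀ n, natZ n ∈ val S D (realN K F) ↔ natZ n ∈ val S D σ := by
      intro n
      rw [← hG.val_natN n, hG.val_mem_iff (hG.natN_mem n) (hW h2),
        hG.val_mem_iff (hG.natN_mem n) hσ]
      constructor
      · rintro ⟨q, hq, h⟩
        obtain ⟨r, hr, hr1, hr2⟩ := hdir p hp q hq
        exact ⟨r, hr, (h4 n r hr1).2 (h.mono hr2)⟩
      · rintro ⟨q, hq, h⟩
        obtain ⟨r, hr, hr1, hr2⟩ := hdir p hp q hq
        exact ⟨r, hr, (h4 n r hr1).1 (h.mono hr2)⟩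
    ext y
    constructor
    · intro hy
      obtain ⟨n, rfl⟩ := mem_omega.1 (hsub F hy)
      exact (key n).1 hy
    · intro hy
      obtain ⟨n, rfl⟩ := mem_omega.1 (hxo hy)
      exact (key n).2 hy
  refine ⟨model S D, hG.isZFDC, ?_, ⟨val S D (colN K), mem_model.2 ⟨_, hcol, rfl⟩,
    ⟨fun x hx => ?_, fun x hx => ?_⟩, ?_⟩, ?_⟩
  · obtain ⟨p, hp, W, hW, Φ', hΦ', h1, h2⟩ := hreq (reqConst K c) (by simp) () Empty.elim
      Empty.elim e0 e1
    exact mem_model.2 ⟨_, hW h1, hval _ (hΦ' h2) (hW h1)⟩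
  · obtain ⟨F, i, p, _, _, h, rfl⟩ := (hf x).1 hx
    exact ZFSet.pair_mem_prod.2 ⟨ZFSet.mem_inter.2 ⟨ZFSet.mem_powerset.2 (hsub F),
      mem_model.2 ⟨_, h, rfl⟩⟩, natZ_bool i⟩
  · obtain ⟨h1, h2⟩ := ZFSet.mem_inter.1 hx
    obtain ⟨F, _, h3, rfl, i, p, hp, h4⟩ := htot x h2 (ZFSet.mem_powerset.1 h1)
    have h5 := (hf _).2 ⟨F, i, p, hp, h4, h3, rfl⟩
    exact ⟨_, h5, fun w hw => hfun _ _ _ hw h5⟩
  · intro a b hab i j hi hj hij
    have hM : ∀ x i, ZFSet.pair x i ∈ val S D (colN K) → x ∈ model S D := by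
      intro x i h
      obtain ⟨F, k, p, _, _, h4, h5⟩ := (hf _).1 h
      exact mem_model.2 ⟨_, h4, (ZFSet.pair_inj.1 h5).1.symm⟩
    obtain ⟨F, hF, h1, h2, k, p, hp, h3⟩ := htot _ (hM _ _ hi) (code_subset a)
    obtain ⟨F', hF', h1', h2', k', p', hp', h3'⟩ := htot _ (hM _ _ hj) (code_subset b)
    have e1 : natZ k.toNat = i := hfun _ _ _ ((hf _).2 ⟨F, k, p, hp, h3, h1, by rw [h2]⟩) hi
    have e2 : natZ k'.toNat = j := hfun _ _ _ ((hf _).2 ⟨F', k', p', hp', h3', h1', by rw [h2']⟩) hj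
    have e3 : F.1 z = a := code_inj ((hval F hF h1).symm.trans h2)
    have e4 : F'.1 z = b := code_inj ((hval F' hF' h1').symm.trans h2')
    obtain ⟨q, hq, h4⟩ := hbor₂ F hF F' hF' (by rw [e3, e4]; exact hab)
    have h5 := hcons F F' k k' true p hp p' hp' q hq h3 h3'
      (Filter.Eventually.mono h4 fun ω h6 h7 => hK _ _ (h6 h7))
    have h6 : k.toNat = k'.toNat := natZ_inj (e1.trans (hij.trans e2.symm))
    revert h5 h6
    cases k <;> cases k' <;> simp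
  · rintro ⟨U, hU, _, hinter, _, hdich, hinf⟩
    obtain ⟨U', hU', rfl⟩ := mem_model.1 hU
    obtain ⟨p, hp, W, hW, Φ', hΦ', F, h1, h2⟩ := hreq (reqUlt K) (by simp) ()
      (fun _ => U') Empty.elim (fun _ => hU') e1
    have hv : ∀ k, val S D (realN K (F k)) = code ((F k).1 z) :=
      fun k => hval _ (hΦ' (h1 k).1) (hW (h1 k).2)
    rcases h2 with ⟨h2, h3⟩ | ⟨h2, h3⟩
    · have h4 : ∀ k, code ((F k).1 z) ∈ val S D U' := fun k =>
        hv k ▸ (hG.val_mem_iff (hW (h1 k).2) hU').2 ⟨p, hp, h2 k⟩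
      have h5 := hinter _ (hinter _ (h4 0) _ (h4 1)) _ (h4 2)
      rw [code_inter, code_inter] at h5
      exact hinf _ h5 (code_finite (h3 z))
    · have h4 : ∀ k, code ((F k).1 z)ᶜ ∈ val S D U' := by
        intro k
        rcases hdich _ (mem_model.2 ⟨_, hW (h1 k).2, hv k⟩) (code_subset _) with h | h
        · exfalso
          rw [← hv k] at h
          obtain ⟨q, hq, h5⟩ := (hG.val_mem_iff (hW (h1 k).2) hU').1 h
          obtain ⟨r, _, hr1, hr2⟩ := hdir p hp q hq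
          exact h2 k r hr1 (h5.mono hr2)
        · rwa [code_compl] at h
      have h5 := hinter _ (hinter _ (h4 0) _ (h4 1)) _ (h4 2)
      rw [code_inter, code_inter] at h5
      exact hinf _ h5 (code_finite (h3 z))

end Pool.Agent.Lib.MP_2948f4_lc
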